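import Mathlib

/-!
# Linear independence over a subring of `ℂ` and over the field it generates
-/

namespace Pool.Agent.Schn

open Module

theorem frac_mem (R : Subring ℂ) {x : ℂ} (hx : x ∈ Subfield.closure (R : Set ℂ)) :
    ∃ y ∈ R, ∃ z ∈ R, z ≠ 0 ∧ z * x = y := by
  rw [Subfield.mem_closure_iff, Subring.closure_eq] at hx
  obtain ⟨y, hy, z, hz, rfl⟩ := hx
  by_cases hz0 : z = 0
  · exact ⟨0, R.zero_mem, 1, R.one_mem, one_ne_zero, by simp [hz0]⟩
  · exact ⟨y, hy, z, hz, hz0, by field_simp⟩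

theorem linInd_closure (R : Subring ℂ) {m : ℕ} (q : Fin m → ℂ)
    (hqi : ∀ α : Fin m → ℂ, (∀ i, α i ∈ R) → ∑ i, α i * q i = 0 → ∀ i, α i = 0) :
    LinearIndependent (Subfield.closure (R : Set ℂ)) q := by
  classical
  rw [Fintype.linearIndependent_iff]
  intro g hg
  have h1 : ∀ i, ∃ y ∈ R, ∃ z ∈ R, z ≠ 0 ∧ z * (g i : ℂ) = y := fun i => frac_mem R (g i).2
  choose y hy z hz hz0 hzy using h1
  have h2 := hqi (fun i => (∏ j, z j) * (g i : ℂ)) (fun i => by
    rw [← Finset.mul_prod_erase _ _ (Finset.mem_univ i), mul_assoc, mul_comm _ (g i : ℂ),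
      ← mul_assoc, hzy]
    exact R.mul_mem (hy i) (R.prod_mem fun j _ => hz j)) (by
    have h3 : ∑ i, (g i : ℂ) * q i = 0 := by
      simpa [Subfield.smul_def] using hg
    calc ∑ i, (∏ j, z j) * (g i : ℂ) * q i = (∏ j, z j) * ∑ i, (g i : ℂ) * q i := by
          rw [Finset.mul_sum]
          exact Finset.sum_congr rfl fun i _ => by ring
      _ = 0 := by rw [h3, mul_zero])
  intro i
  have h4 := h2 i
  rcases mul_eq_zero.1 h4 with h5 | h5
  · exact absurd h5 (Finset.prod_ne_zero_iff.2 fun j _ => hz0 j)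
  · exact Subtype.ext h5

theorem linInd_ring (R : Subring ℂ) {m : ℕ} (q : Fin m → ℂ)
    (h : LinearIndependent (Subfield.closure (R : Set ℂ)) q) (α : Fin m → ℂ)
    (hα : ∀ i, α i ∈ R) (h0 : ∑ i, α i * q i = 0) (i : Fin m) : α i = 0 := by
  rw [Fintype.linearIndependent_iff] at h
  have h1 := h (fun i => ⟨α i, Subfield.subset_closure (hα i)⟩) (by
    simpa [Subfield.smul_def] using h0) i
  exact congrArg Subtype.val h1

end Pool.Agent.Schn
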