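import Pool.Agent.Schn.Defs

/-!
# Schneider's theorem, module HurwitzInt: integrality of `n!` times the Taylor coefficients

`mono D a b = us D ^ a * xs D ^ b` where `us D = U0 + V X` and `xs D = ∑ (e_m / m!) X ^ m` with
`e_m = seq D m ∈ 𝓞 K`. Then `n!` times the `n`-th coefficient of `mono D a b` is in `𝓞 K`.

Proof. Call a power series `f` over `K` *Hurwitz integral* if for all `n` there is `y : 𝓞 K` with
`(y : K) = n! * coeff n f`. (`K` has characteristic `0`.)
* If `f`, `g` are Hurwitz integral so is `f * g`: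
  `n! coeff n (f g) = ∑_{i + j = n} n! f_i g_j = ∑ C(n, i) (i! f_i) (j! g_j)`.
* Constants in `𝓞 K`, `1`, `X`, sums are Hurwitz integral, hence `us D` is.
* `xs D` is Hurwitz integral: `m! * (e_m / m!) = e_m`.
* Powers by induction.
-/

namespace Pool.Agent.Schn

open NumberField

/-- Hurwitz integral power series: `n!` times the `n`-th coefficient is an algebraic integer -/
def HurInt {K : Type*} [Field K] (f : PowerSeries K) : Prop :=
  ∀ n : ℕ, ∃ y : 𝓞 K, (y : K) = (n.factorial : K) * PowerSeries.coeff n f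

variable {K : Type*} [Field K]

theorem HurInt.mul {f g : PowerSeries K} (hf : HurInt f) (hg : HurInt g) : HurInt (f * g) := by
  intro n
  choose y hy using hf
  choose z hz using hg
  refine ⟨∑ p ∈ (Finset.HasAntidiagonal.antidiagonal n : Finset (ℕ × ℕ)),
    (n.choose p.1 : 𝓞 K) * y p.1 * z p.2, ?_⟩
  rw [PowerSeries.coeff_mul, Finset.mul_sum, RingOfIntegers.coe_eq_algebraMap, map_sum]
  refine Finset.sum_congr rfl fun p hp => ?_
  rw [Finset.HasAntidiagonal.mem_antidiagonal] at hp
  have h : ((n.choose p.1 : ℕ) : K) * (p.1.factorial : K) * (p.2.factorial : K)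
      = (n.factorial : K) := by
    rw [← hp]
    have h2 := Nat.choose_mul_factorial_mul_factorial (Nat.le_add_right p.1 p.2)
    rw [Nat.add_sub_cancel_left] at h2
    exact_mod_cast congrArg (Nat.cast (R := K)) h2
  rw [map_mul, map_mul, map_natCast, ← RingOfIntegers.coe_eq_algebraMap,
    ← RingOfIntegers.coe_eq_algebraMap, hy, hz, ← h]
  ring

theorem HurInt.add {f g : PowerSeries K} (hf : HurInt f) (hg : HurInt g) : HurInt (f + g) := by
  intro n
  obtain ⟨y, hy⟩ := hf n
  obtain ⟨z, hz⟩ := hg n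
  refine ⟨y + z, ?_⟩
  rw [map_add, RingOfIntegers.coe_eq_algebraMap, map_add, ← RingOfIntegers.coe_eq_algebraMap,
    ← RingOfIntegers.coe_eq_algebraMap, hy, hz]
  ring

theorem hurInt_C (c : 𝓞 K) : HurInt (PowerSeries.C (c : K)) := by
  intro n
  refine ⟨if n = 0 then c else 0, ?_⟩
  rw [PowerSeries.coeff_C]
  split_ifs with h
  · subst h; simp
  · simp

theorem hurInt_X : HurInt (PowerSeries.X : PowerSeries K) := by
  intro n
  refine ⟨if n = 1 then 1 else 0, ?_⟩
  rw [PowerSeries.coeff_X]
  split_ifs with h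
  · subst h; simp
  · simp

theorem HurInt.pow {f : PowerSeries K} (hf : HurInt f) (a : ℕ) : HurInt (f ^ a) := by
  induction a with
  | zero =>
    have h := hurInt_C (K := K) 1
    simpa using h
  | succ a ih => rw [pow_succ]; exact ih.mul hf

theorem hurInt_us (D : Dat K) : HurInt (us D) :=
  (hurInt_C D.U0).add ((hurInt_C D.V).mul hurInt_X)

theorem hurInt_xs [CharZero K] (D : Dat K) : HurInt (xs D) := by
  intro n
  refine ⟨seq D n, ?_⟩
  rw [xs, PowerSeries.coeff_mk]
  have h : (n.factorial : K) ≠ 0 := Nat.cast_ne_zero.mpr n.factorial_ne_zero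
  field_simp

theorem hurwitz {K : Type*} [Field K] [NumberField K] (D : Dat K) (a b n : ℕ) :
    ∃ y : 𝓞 K, (y : K) = (n.factorial : K) * PowerSeries.coeff n (mono D a b) :=
  (((hurInt_us D).pow a).mul ((hurInt_xs D).pow b)) n

end Pool.Agent.Schn
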