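import Pool.Agent.Schn.Defs

/-!
# Schneider's theorem, module TayBasic: Taylor series at `0` (`tay`)

`tay f = ∑ (iteratedDeriv n f 0 / n!) X ^ n`. Rules for functions analytic at `0`.
-/

namespace Pool.Agent.Schn

open Filter Topology

theorem tay_congr {f g : ℂ → ℂ} (h : ∀ᶠ t in 𝓝 (0 : ℂ), f t = g t) : tay f = tay g := by
  unfold tay
  congr 1
  funext n
  rw [Filter.EventuallyEq.iteratedDeriv_eq n h]

theorem tay_const (u : ℂ) : tay (fun _ => u) = PowerSeries.C u := by
  ext n
  rw [tay, PowerSeries.coeff_mk, PowerSeries.coeff_C, iteratedDeriv_const]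
  by_cases hn : n = 0
  · subst hn; simp
  · simp [hn]

theorem tay_add {f g : ℂ → ℂ} (hf : AnalyticAt ℂ f 0) (hg : AnalyticAt ℂ g 0) :
    tay (fun t => f t + g t) = tay f + tay g := by
  ext n
  rw [map_add, tay, tay, tay, PowerSeries.coeff_mk, PowerSeries.coeff_mk, PowerSeries.coeff_mk,
    iteratedDeriv_fun_add hf.contDiffAt hg.contDiffAt, add_div]

theorem tay_mul {f g : ℂ → ℂ} (hf : AnalyticAt ℂ f 0) (hg : AnalyticAt ℂ g 0) :
    tay (fun t => f t * g t) = tay f * tay g := by
  ext n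
  rw [PowerSeries.coeff_mul, tay, PowerSeries.coeff_mk,
    iteratedDeriv_fun_mul hf.contDiffAt hg.contDiffAt,
    Finset.Nat.sum_antidiagonal_eq_sum_range_succ_mk, Finset.sum_div]
  refine Finset.sum_congr rfl fun i hi => ?_
  have hi' : i ≤ n := Nat.lt_succ_iff.mp (Finset.mem_range.mp hi)
  rw [tay, tay, PowerSeries.coeff_mk, PowerSeries.coeff_mk]
  have h1 : ((n.choose i : ℕ) : ℂ) * (i.factorial : ℂ) * ((n - i).factorial : ℂ) =
      (n.factorial : ℂ) := by
    exact_mod_cast Nat.choose_mul_factorial_mul_factorial hi'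
  have h2 : (i.factorial : ℂ) ≠ 0 := by exact_mod_cast i.factorial_ne_zero
  have h3 : ((n - i).factorial : ℂ) ≠ 0 := by exact_mod_cast (n - i).factorial_ne_zero
  have h4 : (n.factorial : ℂ) ≠ 0 := by exact_mod_cast n.factorial_ne_zero
  rw [div_mul_div_comm, div_eq_div_iff h4 (mul_ne_zero h2 h3), ← h1]
  ring

theorem tay_id : tay (fun t => t) = PowerSeries.X := by
  ext n
  rw [tay, PowerSeries.coeff_mk, PowerSeries.coeff_X]
  rcases n with _ | _ | n
  · simp
  · simp
  · rw [iteratedDeriv_succ']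
    have : deriv (fun t : ℂ => t) = fun _ => 1 := by funext t; simp
    rw [this, iteratedDeriv_const]
    simp

theorem tay_lin (u v : ℂ) :
    tay (fun t => u + v * t) = PowerSeries.C u + PowerSeries.C v * PowerSeries.X := by
  have h1 : AnalyticAt ℂ (fun t : ℂ => t) 0 := analyticAt_id
  have h2 : AnalyticAt ℂ (fun _ : ℂ => u) 0 := analyticAt_const
  have h3 : AnalyticAt ℂ (fun _ : ℂ => v) 0 := analyticAt_const
  have h4 : AnalyticAt ℂ (fun t : ℂ => v * t) 0 := h3.mul h1
  rw [tay_add h2 h4, tay_const, tay_mul h3 h1, tay_const, tay_id]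

theorem tay_pow {f : ℂ → ℂ} (hf : AnalyticAt ℂ f 0) (n : ℕ) :
    tay (fun t => f t ^ n) = tay f ^ n := by
  induction n with
  | zero =>
    simp only [pow_zero]
    rw [tay_const, map_one]
  | succ n ih =>
    have h1 : AnalyticAt ℂ (fun t => f t ^ n) 0 := hf.pow n
    simp only [pow_succ]
    rw [tay_mul h1 hf, ih]

theorem tay_sum {ι : Type*} (s : Finset ι) (f : ι → ℂ → ℂ) (hf : ∀ i ∈ s, AnalyticAt ℂ (f i) 0) :
    tay (fun t => ∑ i ∈ s, f i t) = ∑ i ∈ s, tay (f i) := by
  classical
  induction s using Finset.induction_on with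
  | empty =>
    simp only [Finset.sum_empty]
    rw [tay_const, map_zero]
  | insert a s ha ih =>
    simp only [Finset.sum_insert ha]
    rw [tay_add (hf a (Finset.mem_insert_self _ _))
      (Finset.analyticAt_fun_sum s fun i hi => hf i (Finset.mem_insert_of_mem hi)),
      ih fun i hi => hf i (Finset.mem_insert_of_mem hi)]

end Pool.Agent.Schn
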