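import Pool.Agent.Schn.SeqBound

/-!
# Schneider's theorem, module MonoBound: the houses of the Taylor coefficients

There is `C ≥ 1` with `house (coeff n (mono D a b)) ≤ C ^ (a + b + n)` for all `a, b, n`.

Proof. Let `B ≥ 2` be at least the houses of `X0, X1, U0, V, G` (e.g. `2` plus their sum; houses are
`≥ 0`: `house_nonneg`). Fix an embedding `σ : K →+* ℂ`; `‖σ x‖ ≤ house x`
(`norm_embedding_le_house`), and it is enough to bound `‖σ (coeff n (mono D a b))‖` for all `σ`
(`house_eq_sup'`; `Finset.sup'_le`). Let `r = 1 / (4 B)`. For a power series `f` over `ℂ` say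
`Maj f M` if for all `n`, `∑_{i < n} ‖coeff i f‖ r ^ i ≤ M`.
* `Maj f M`, `Maj g M'` imply `Maj (f * g) (M * M')`:
  `∑_{n < m} ‖(f g)_n‖ r^n ≤ ∑_{n < m} ∑_{i + j = n} ‖f_i‖ r^i ‖g_j‖ r^j ≤
  (∑_{i < m} ‖f_i‖ r^i) (∑_{j < m} ‖g_j‖ r^j)` (all terms are `≥ 0`; the pairs with `i + j < m` are
  among those with `i, j < m`).
* `Maj (map σ (us D)) (2 B)`: `‖σ U0‖ + ‖σ V‖ r ≤ B + B`.
* `Maj (map σ (xs D)) (2 B ^ 2)`: `seq_bound` gives `‖coeff m‖ ≤ (m + 1) B^{m+2}`, so
  `‖coeff m‖ r^m ≤ B² (m + 1) / 4^m`, and `∑_{m < n} (m + 1) / 4^m ≤ 16 / 9 ≤ 2` (e.g. prove by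
  induction `∑_{m < n} (m + 1) / 4^m ≤ 16/9 - (stuff) ≤ 2`; convenient:
  `(m + 1) / 4^m ≤ 1 / 2^m` and `∑ 1 / 2^m ≤ 2`).
* `Maj 1 1`. Hence `Maj (map σ (mono D a b)) ((2 B) ^ a * (2 B ^ 2) ^ b)`, and
  `‖σ (coeff n (mono D a b))‖ ≤ (2 B)^a (2 B²)^b (4 B)^n ≤ (4 B²)^{a + b + n}`
  (`2 B, 2 B², 4 B ≤ 4 B²` since `B ≥ 1`).
So `C = 4 B²` works.
-/

namespace Pool.Agent.Schn

open NumberField

open PowerSeries in
private def Maj (r : ℝ) (f : PowerSeries ℂ) (M : ℝ) : Prop :=
  ∀ n : ℕ, ∑ i ∈ Finset.range n, ‖PowerSeries.coeff i f‖ * r ^ i ≤ M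

private lemma maj_mul {r : ℝ} (hr : 0 ≤ r) {f g : PowerSeries ℂ} {M M' : ℝ} (hf : Maj r f M)
    (hg : Maj r g M') : Maj r (f * g) (M * M') := by
  classical
  intro m
  set F : ℕ → ℝ := fun i => ‖PowerSeries.coeff i f‖ * r ^ i with hF
  set G : ℕ → ℝ := fun i => ‖PowerSeries.coeff i g‖ * r ^ i with hG
  have hF0 : ∀ i, 0 ≤ F i := fun i => mul_nonneg (norm_nonneg _) (pow_nonneg hr _)
  have hG0 : ∀ i, 0 ≤ G i := fun i => mul_nonneg (norm_nonneg _) (pow_nonneg hr _)
  have h1 : ∀ n, ‖PowerSeries.coeff n (f * g)‖ * r ^ n ≤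
      ∑ p ∈ Finset.HasAntidiagonal.antidiagonal n, F p.1 * G p.2 := by
    intro n
    rw [PowerSeries.coeff_mul]
    calc ‖∑ p ∈ Finset.HasAntidiagonal.antidiagonal n, PowerSeries.coeff p.1 f * PowerSeries.coeff p.2 g‖ * r ^ n
        ≤ (∑ p ∈ Finset.HasAntidiagonal.antidiagonal n,
            ‖PowerSeries.coeff p.1 f * PowerSeries.coeff p.2 g‖) * r ^ n :=
          mul_le_mul_of_nonneg_right (norm_sum_le _ _) (pow_nonneg hr _)
      _ = ∑ p ∈ Finset.HasAntidiagonal.antidiagonal n, F p.1 * G p.2 := by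
          rw [Finset.sum_mul]
          refine Finset.sum_congr rfl fun p hp => ?_
          have hp' : p.1 + p.2 = n := Finset.HasAntidiagonal.mem_antidiagonal.1 hp
          rw [norm_mul, ← hp', pow_add]
          simp only [hF, hG]
          ring
  have h2 : ∑ n ∈ Finset.range m, ∑ p ∈ Finset.HasAntidiagonal.antidiagonal n, F p.1 * G p.2 ≤
      ∑ p ∈ Finset.range m ×ˢ Finset.range m, F p.1 * G p.2 := by
    rw [← Finset.sum_sigma (Finset.range m) (fun n => Finset.HasAntidiagonal.antidiagonal n)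
      (fun x => F x.2.1 * G x.2.2)]
    have hinj : Set.InjOn (fun x : (Σ _ : ℕ, ℕ × ℕ) => x.2)
        ((Finset.range m).sigma fun n => Finset.HasAntidiagonal.antidiagonal n : Finset (Σ _ : ℕ, ℕ × ℕ)) := by
      rintro ⟨n, p⟩ hx ⟨n', p'⟩ hx' h
      simp only [Finset.coe_sigma, Set.mem_sigma_iff, Finset.mem_coe,
        Finset.HasAntidiagonal.mem_antidiagonal] at hx hx' h
      subst h
      have : n = n' := by rw [← hx.2, ← hx'.2]
      subst this
      rfl
    rw [← Finset.sum_image (f := fun p : ℕ × ℕ => F p.1 * G p.2) hinj]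
    refine Finset.sum_le_sum_of_subset_of_nonneg ?_ ?_
    · intro p hp
      obtain ⟨⟨n, q⟩, hx, rfl⟩ := Finset.mem_image.1 hp
      simp only [Finset.mem_sigma, Finset.mem_range, Finset.HasAntidiagonal.mem_antidiagonal] at hx
      simp only [Finset.mem_product, Finset.mem_range]
      omega
    · intro p _ _
      exact mul_nonneg (hF0 _) (hG0 _)
  have h3 : ∑ p ∈ Finset.range m ×ˢ Finset.range m, F p.1 * G p.2 =
      (∑ i ∈ Finset.range m, F i) * ∑ j ∈ Finset.range m, G j := by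
    rw [Finset.sum_product, Finset.sum_mul_sum]
  calc ∑ n ∈ Finset.range m, ‖PowerSeries.coeff n (f * g)‖ * r ^ n
      ≤ ∑ n ∈ Finset.range m, ∑ p ∈ Finset.HasAntidiagonal.antidiagonal n, F p.1 * G p.2 :=
        Finset.sum_le_sum fun n _ => h1 n
    _ ≤ (∑ i ∈ Finset.range m, F i) * ∑ j ∈ Finset.range m, G j := h2.trans h3.le
    _ ≤ M * M' := by
        have hM : 0 ≤ M := le_trans (Finset.sum_nonneg fun i _ => hF0 i) (hf m)
        exact mul_le_mul (hf m) (hg m) (Finset.sum_nonneg fun i _ => hG0 i) hM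

private lemma maj_add {r : ℝ} (hr : 0 ≤ r) {f g : PowerSeries ℂ} {M M' : ℝ} (hf : Maj r f M)
    (hg : Maj r g M') : Maj r (f + g) (M + M') := by
  intro m
  calc ∑ n ∈ Finset.range m, ‖PowerSeries.coeff n (f + g)‖ * r ^ n
      ≤ ∑ n ∈ Finset.range m, (‖PowerSeries.coeff n f‖ * r ^ n +
          ‖PowerSeries.coeff n g‖ * r ^ n) := by
        refine Finset.sum_le_sum fun n _ => ?_
        rw [← add_mul, map_add]
        exact mul_le_mul_of_nonneg_right (norm_add_le _ _) (pow_nonneg hr _)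
    _ ≤ M + M' := by
        rw [Finset.sum_add_distrib]
        exact add_le_add (hf m) (hg m)

private lemma maj_mono {r : ℝ} {f : PowerSeries ℂ} {M M' : ℝ} (hf : Maj r f M) (h : M ≤ M') :
    Maj r f M' := fun n => (hf n).trans h

private lemma maj_C {r : ℝ} (z : ℂ) : Maj r (PowerSeries.C z) ‖z‖ := by
  intro m
  have h : ∀ i, ‖PowerSeries.coeff i (PowerSeries.C z)‖ * r ^ i = if i = 0 then ‖z‖ else 0 := by
    intro i
    rw [PowerSeries.coeff_C]
    split_ifs with hi
    · rw [hi, pow_zero, mul_one]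
    · rw [norm_zero, zero_mul]
  rw [Finset.sum_congr rfl fun i _ => h i, Finset.sum_ite_eq']
  split_ifs
  · exact le_rfl
  · exact norm_nonneg z

private lemma maj_X {r : ℝ} (hr : 0 ≤ r) : Maj r (PowerSeries.X : PowerSeries ℂ) r := by
  intro m
  have h : ∀ i, ‖PowerSeries.coeff i (PowerSeries.X : PowerSeries ℂ)‖ * r ^ i =
      if i = 1 then r else 0 := by
    intro i
    rw [PowerSeries.coeff_X]
    split_ifs with hi
    · rw [hi, pow_one, norm_one, one_mul]
    · rw [norm_zero, zero_mul]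
  rw [Finset.sum_congr rfl fun i _ => h i, Finset.sum_ite_eq']
  split_ifs
  · exact le_rfl
  · exact hr

private lemma maj_pow {r : ℝ} (hr : 0 ≤ r) {f : PowerSeries ℂ} {M : ℝ} (hf : Maj r f M) (k : ℕ) :
    Maj r (f ^ k) (M ^ k) := by
  induction k with
  | zero =>
    rw [pow_zero, pow_zero]
    have h := maj_C (r := r) 1
    rw [map_one, norm_one] at h
    exact h
  | succ k ih =>
    rw [pow_succ, pow_succ]
    exact maj_mul hr ih hf

private lemma geom_le (n : ℕ) : ∑ m ∈ Finset.range n, (1 / 2 : ℝ) ^ m ≤ 2 := by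
  have h : ∑ m ∈ Finset.range n, (1 / 2 : ℝ) ^ m = 2 - 2 * (1 / 2 : ℝ) ^ n := by
    induction n with
    | zero => simp
    | succ n ih =>
      rw [Finset.sum_range_succ, ih, pow_succ]
      ring
  rw [h]
  have : (0 : ℝ) ≤ (1 / 2 : ℝ) ^ n := by positivity
  linarith

private lemma succ_le_two_pow (m : ℕ) : (m : ℝ) + 1 ≤ 2 ^ m := by
  induction m with
  | zero => norm_num
  | succ m ih =>
    rw [pow_succ]
    push_cast
    have : (0 : ℝ) ≤ m := Nat.cast_nonneg m
    linarith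

theorem mono_bound {K : Type*} [Field K] [NumberField K] (D : Dat K) :
    ∃ C : ℝ, 1 ≤ C ∧ ∀ a b n : ℕ, house (PowerSeries.coeff n (mono D a b)) ≤ C ^ (a + b + n) := by
  classical
  set B : ℝ := 2 + house (D.X0 : K) + house (D.X1 : K) + house (D.U0 : K) + house (D.V : K) +
    house (D.G : K) with hBdef
  have g0 := house_nonneg (D.X0 : K)
  have g1 := house_nonneg (D.X1 : K)
  have g2 := house_nonneg (D.U0 : K)
  have g3 := house_nonneg (D.V : K)
  have g4 := house_nonneg (D.G : K)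
  have hB : 2 ≤ B := by linarith
  have hB0 : 0 < B := by linarith
  refine ⟨4 * B ^ 2, by nlinarith, ?_⟩
  intro a b n
  set r : ℝ := 1 / (4 * B) with hr
  have hr0 : 0 < r := by positivity
  have hr1 : r ≤ 1 := by
    rw [hr, div_le_one (by positivity)]
    linarith
  rw [house_eq_sup']
  have key : ∀ σ : K →+* ℂ, ‖σ (PowerSeries.coeff n (mono D a b))‖ ≤ (4 * B ^ 2) ^ (a + b + n) := by
    intro σ
    have e0 : ‖σ D.X0‖ ≤ B := (norm_embedding_le_house _ σ).trans (by linarith)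
    have e1 : ‖σ D.X1‖ ≤ B := (norm_embedding_le_house _ σ).trans (by linarith)
    have e2 : ‖σ D.U0‖ ≤ B := (norm_embedding_le_house _ σ).trans (by linarith)
    have e3 : ‖σ D.V‖ ≤ B := (norm_embedding_le_house _ σ).trans (by linarith)
    have e4 : ‖σ D.G‖ ≤ B := (norm_embedding_le_house _ σ).trans (by linarith)
    have hus : Maj r (PowerSeries.map σ (us D)) (2 * B) := by
      have h1 : PowerSeries.map σ (us D) = PowerSeries.C (σ D.U0) +
          PowerSeries.C (σ D.V) * PowerSeries.X := by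
        rw [us, map_add, map_mul, PowerSeries.map_C, PowerSeries.map_C, PowerSeries.map_X]
      rw [h1]
      have h2 := maj_add hr0.le (maj_C (r := r) (σ D.U0))
        (maj_mul hr0.le (maj_C (r := r) (σ D.V)) (maj_X hr0.le))
      refine maj_mono h2 ?_
      have h3 : ‖σ D.V‖ * r ≤ B * 1 := mul_le_mul e3 hr1 hr0.le hB0.le
      linarith
    have hxs : Maj r (PowerSeries.map σ (xs D)) (2 * B ^ 2) := by
      intro m
      have h1 : ∀ i, ‖PowerSeries.coeff i (PowerSeries.map σ (xs D))‖ * r ^ i ≤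
          B ^ 2 * (1 / 2) ^ i := by
        intro i
        have hfac : (0 : ℝ) < i.factorial := by exact_mod_cast i.factorial_pos
        have h2 := seq_bound D σ hB e0 e1 e4 i
        have h3 : ‖PowerSeries.coeff i (PowerSeries.map σ (xs D))‖ ≤ (i + 1) * B ^ (i + 2) := by
          rw [PowerSeries.coeff_map, xs, PowerSeries.coeff_mk, map_div₀, norm_div, map_natCast,
            Complex.norm_natCast, div_le_iff₀ hfac]
          calc ‖σ (seq D i)‖ ≤ i.factorial * (i + 1) * B ^ (i + 2) := h2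
            _ = (i + 1) * B ^ (i + 2) * i.factorial := by ring
        have h4 := succ_le_two_pow i
        calc ‖PowerSeries.coeff i (PowerSeries.map σ (xs D))‖ * r ^ i
            ≤ ((i + 1) * B ^ (i + 2)) * r ^ i :=
              mul_le_mul_of_nonneg_right h3 (pow_nonneg hr0.le _)
          _ = B ^ 2 * ((i + 1) * (B * r) ^ i) := by rw [mul_pow]; ring
          _ = B ^ 2 * ((i + 1) * (1 / 4) ^ i) := by
              congr 3
              rw [hr]
              field_simp
          _ ≤ B ^ 2 * (2 ^ i * (1 / 4) ^ i) := by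
              apply mul_le_mul_of_nonneg_left _ (by positivity)
              exact mul_le_mul_of_nonneg_right h4 (by positivity)
          _ = B ^ 2 * (1 / 2) ^ i := by
              rw [← mul_pow]
              norm_num
      calc ∑ i ∈ Finset.range m, ‖PowerSeries.coeff i (PowerSeries.map σ (xs D))‖ * r ^ i
          ≤ ∑ i ∈ Finset.range m, B ^ 2 * (1 / 2) ^ i := Finset.sum_le_sum fun i _ => h1 i
        _ = B ^ 2 * ∑ i ∈ Finset.range m, (1 / 2) ^ i := by rw [Finset.mul_sum]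
        _ ≤ B ^ 2 * 2 := mul_le_mul_of_nonneg_left (geom_le m) (by positivity)
        _ = 2 * B ^ 2 := by ring
    have hmono : Maj r (PowerSeries.map σ (mono D a b)) ((2 * B) ^ a * (2 * B ^ 2) ^ b) := by
      rw [mono, map_mul, map_pow, map_pow]
      exact maj_mul hr0.le (maj_pow hr0.le hus a) (maj_pow hr0.le hxs b)
    have h5 : ‖σ (PowerSeries.coeff n (mono D a b))‖ * r ^ n ≤ (2 * B) ^ a * (2 * B ^ 2) ^ b := by
      have h6 := hmono (n + 1)
      rw [Finset.sum_range_succ] at h6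
      have h7 : 0 ≤ ∑ i ∈ Finset.range n,
          ‖PowerSeries.coeff i (PowerSeries.map σ (mono D a b))‖ * r ^ i :=
        Finset.sum_nonneg fun i _ => mul_nonneg (norm_nonneg _) (pow_nonneg hr0.le _)
      rw [PowerSeries.coeff_map] at h6
      linarith
    have h8 : r ^ n * (4 * B) ^ n = 1 := by
      rw [← mul_pow, hr]
      have : 1 / (4 * B) * (4 * B) = 1 := by field_simp
      rw [this, one_pow]
    have hBB : B ≤ B ^ 2 := by nlinarith
    calc ‖σ (PowerSeries.coeff n (mono D a b))‖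
        = ‖σ (PowerSeries.coeff n (mono D a b))‖ * r ^ n * (4 * B) ^ n := by
          rw [mul_assoc, h8, mul_one]
      _ ≤ (2 * B) ^ a * (2 * B ^ 2) ^ b * (4 * B) ^ n :=
          mul_le_mul_of_nonneg_right h5 (by positivity)
      _ ≤ (4 * B ^ 2) ^ a * (4 * B ^ 2) ^ b * (4 * B ^ 2) ^ n := by
          gcongr
          · nlinarith
          · norm_num
      _ = (4 * B ^ 2) ^ (a + b + n) := by rw [pow_add, pow_add]
  have h9 : (Finset.univ.sup' Finset.univ_nonempty
      (fun φ : K →+* ℂ => ‖φ (PowerSeries.coeff n (mono D a b))‖₊)) ≤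
      ⟨(4 * B ^ 2) ^ (a + b + n), by positivity⟩ := by
    apply Finset.sup'_le
    intro φ _
    exact_mod_cast key φ
  exact_mod_cast h9

end Pool.Agent.Schn
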