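import Pool.Agent.Schn.HurwitzInt
import Pool.Agent.Schn.MonoBound

/-!
# Schneider's theorem, module Lower: the lower bound (Liouville)

Let `d = [K : ℚ]`. Given `C₁ ≥ 1` there is `C ≥ 1` such that for all `T ≥ 1`, all
`c : Fin T → Fin L → 𝓞 K` with `house (c i l) ≤ (C₁ T)^T`, all `s ≥ T` with `γ := gam D c s ≠ 0`:
`1 ≤ ‖φ γ‖ * (C s^(2 d - 1))^s`.

Proof. `α := s! γ` is in `𝓞 K` (`hurwitz`: `s! * coeff s (mono D i l) = y_{il} ∈ 𝓞 K`,
`α = ∑ c_{il} y_{il}`), nonzero.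
Liouville: `1 ≤ ‖Algebra.norm ℚ α‖ ≤ ‖φ α‖ * house α ^ (d - 1)`
(`norm_norm_le_norm_mul_house_pow`; the norm of a nonzero algebraic integer is a nonzero integer:
`Algebra.norm ℚ (α : K) = (Algebra.norm ℤ α : ℚ)`, `Algebra.coe_norm_int`, or
`Algebra.isIntegral_norm` and `IsIntegrallyClosed`). With `C₂` from `mono_bound D`:
`house α ≤ s! ∑_{i<T, l<L} house (c_{il}) house (coeff s (mono D i l))
≤ s! T L (C₁ T)^T C₂^(T + L + s) ≤ s^s 2^s (L + 1)^s (C₁ s)^s C₂^(2 s + L s) = (C₃ s²)^s`,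
`C₃ = 2 (L + 1) C₁ C₂^(2 + L)` (as `1 ≤ T ≤ s`, `T ≤ 2^s`, `s! ≤ s^s`). And
`‖φ α‖ = s! ‖φ γ‖ ≤ s^s ‖φ γ‖`. So
`1 ≤ ‖φ γ‖ s^s (C₃ s²)^(s (d - 1)) = ‖φ γ‖ (C₃^(d-1) s^(1 + 2 (d - 1)))^s` and
`1 + 2 (d - 1) = 2 d - 1` since `d ≥ 1`. `C = C₃^(d - 1)`.
-/

namespace Pool.Agent.Schn

open NumberField

/-- Liouville inequality for an element of the ring of integers -/
theorem liouville_aux {K : Type*} [Field K] [NumberField K] (φ : K →+* ℂ) (β : 𝓞 K)
    (hβ : (β : K) ≠ 0) :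
    1 ≤ ‖φ (β : K)‖ * house (β : K) ^ (Module.finrank ℚ K - 1) := by
  refine le_trans ?_ (norm_norm_le_norm_mul_house_pow (β : K) φ)
  have h1 : Algebra.norm ℚ (β : K) = ((Algebra.norm ℤ β : ℤ) : ℚ) := (Algebra.coe_norm_int β).symm
  have h2 : Algebra.norm ℚ (β : K) ≠ 0 := Algebra.norm_ne_zero_iff.mpr hβ
  have h3 : Algebra.norm ℤ β ≠ 0 := by
    intro e
    rw [h1, e] at h2
    simp at h2
  rw [h1]
  have h4 : (1 : ℤ) ≤ |Algebra.norm ℤ β| := Int.one_le_abs h3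
  have h5 : ‖((Algebra.norm ℤ β : ℤ) : ℚ)‖ = ((|Algebra.norm ℤ β| : ℤ) : ℝ) := by
    rw [← Rat.norm_cast_real]
    push_cast
    rw [Real.norm_eq_abs]
  rw [h5]
  exact_mod_cast h4

/-- `s!` times a Taylor coefficient of the auxiliary function is integral -/
theorem gam_integral {K : Type*} [Field K] [NumberField K] (D : Dat K) {T L : ℕ}
    (c : Fin T → Fin L → 𝓞 K) (s : ℕ) :
    ∃ β : 𝓞 K, (β : K) = (s.factorial : K) * gam D c s := by
  choose y hy using fun (i : Fin T) (l : Fin L) => hurwitz D i l s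
  refine ⟨∑ i, ∑ l, c i l * y i l, ?_⟩
  rw [gam]
  push_cast
  rw [Finset.mul_sum]
  refine Finset.sum_congr rfl fun i _ => ?_
  rw [Finset.mul_sum]
  refine Finset.sum_congr rfl fun l _ => ?_
  refine Eq.trans (congrArg (fun t => (c i l : K) * t) (hy i l)) ?_
  ring

/-- the house of a Taylor coefficient of the auxiliary function -/
theorem house_gam_le {K : Type*} [Field K] [NumberField K] (D : Dat K) {C₂ : ℝ} (hC₂ : 1 ≤ C₂)
    (hb : ∀ a b n : ℕ, house (PowerSeries.coeff n (mono D a b)) ≤ C₂ ^ (a + b + n))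
    {T L : ℕ} (c : Fin T → Fin L → 𝓞 K) {B : ℝ} (hc : ∀ i l, house (c i l : K) ≤ B)
    (s : ℕ) : house (gam D c s) ≤ T * (L * (B * C₂ ^ (T + L + s))) := by
  rw [gam]
  refine (house_sum_le_sum_house _ _).trans ?_
  have h1 : ∀ i : Fin T, house (∑ l, (c i l : K) * PowerSeries.coeff s (mono D i l)) ≤
      L * (B * C₂ ^ (T + L + s)) := by
    intro i
    refine (house_sum_le_sum_house _ _).trans ?_
    have h2 : ∀ l : Fin L, house ((c i l : K) * PowerSeries.coeff s (mono D i l)) ≤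
        B * C₂ ^ (T + L + s) := by
      intro l
      have hB : 0 ≤ B := (house_nonneg _).trans (hc i l)
      refine (house_mul_le _ _).trans (mul_le_mul (hc i l) ?_ (house_nonneg _) hB)
      refine (hb i l s).trans (pow_le_pow_right₀ hC₂ ?_)
      have := i.2
      have := l.2
      omega
    refine (Finset.sum_le_sum fun l _ => h2 l).trans ?_
    simp
  refine (Finset.sum_le_sum fun i _ => h1 i).trans ?_
  simp

theorem lower {K : Type*} [Field K] [NumberField K] (φ : K →+* ℂ) (D : Dat K) (L : ℕ)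
    {C₁ : ℝ} (hC₁ : 1 ≤ C₁) :
    ∃ C : ℝ, 1 ≤ C ∧ ∀ T : ℕ, 1 ≤ T → ∀ c : Fin T → Fin L → 𝓞 K,
      (∀ i l, house (c i l : K) ≤ (C₁ * T) ^ T) → ∀ s : ℕ, T ≤ s → gam D c s ≠ 0 →
      1 ≤ ‖φ (gam D c s)‖ * (C * (s : ℝ) ^ (2 * Module.finrank ℚ K - 1)) ^ s := by
  obtain ⟨C₂, hC₂, hb⟩ := mono_bound D
  have hd : 0 < Module.finrank ℚ K := Module.finrank_pos
  set d := Module.finrank ℚ K with hd'
  have hL : (1 : ℝ) ≤ L + 1 := by
    have : (0 : ℝ) ≤ L := Nat.cast_nonneg L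
    linarith
  set C₃ : ℝ := 2 * (L + 1) * C₁ * C₂ ^ (2 + L) with hC₃'
  have hC₂p : (1 : ℝ) ≤ C₂ ^ (2 + L) := one_le_pow₀ hC₂
  have hC₃ : 1 ≤ C₃ := by
    have h1 : (1 : ℝ) ≤ 2 * (L + 1) := by linarith
    have h2 : (1 : ℝ) ≤ 2 * (L + 1) * C₁ := one_le_mul_of_one_le_of_one_le h1 hC₁
    exact one_le_mul_of_one_le_of_one_le h2 hC₂p
  refine ⟨C₃ ^ (d - 1), one_le_pow₀ hC₃, ?_⟩
  intro T hT c hc s hTs hne
  have hs1 : 1 ≤ s := hT.trans hTs
  have hsR : (1 : ℝ) ≤ s := by exact_mod_cast hs1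
  have hTR : (1 : ℝ) ≤ T := by exact_mod_cast hT
  have hTsR : (T : ℝ) ≤ s := by exact_mod_cast hTs
  obtain ⟨β, hβ⟩ := gam_integral D c s
  have hfac : (s.factorial : K) ≠ 0 := by exact_mod_cast s.factorial_ne_zero
  have hβ0 : (β : K) ≠ 0 := by rw [hβ]; exact mul_ne_zero hfac hne
  have hli := liouville_aux φ β hβ0
  rw [hβ] at hli
  have hfs : (s.factorial : ℝ) ≤ (s : ℝ) ^ s := by exact_mod_cast Nat.factorial_le_pow s
  have hφ : ‖φ ((s.factorial : K) * gam D c s)‖ ≤ (s : ℝ) ^ s * ‖φ (gam D c s)‖ := by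
    rw [map_mul, norm_mul, map_natCast, Complex.norm_natCast]
    exact mul_le_mul_of_nonneg_right hfs (norm_nonneg _)
  have hhouse : house ((s.factorial : K) * gam D c s) ≤ (C₃ * (s : ℝ) ^ 2) ^ s := by
    rw [house_nat_mul]
    have h1 := house_gam_le D hC₂ hb c hc s
    have hT2 : (T : ℝ) ≤ 2 ^ s := by
      refine hTsR.trans ?_
      exact_mod_cast (Nat.lt_two_pow_self (n := s)).le
    have hL2 : (L : ℝ) ≤ (L + 1) ^ s := by
      calc (L : ℝ) ≤ L + 1 := by linarith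
        _ = (L + 1) ^ 1 := (pow_one _).symm
        _ ≤ (L + 1) ^ s := pow_le_pow_right₀ hL hs1
    have hCT : (C₁ * T) ^ T ≤ (C₁ * s) ^ s := by
      have h0 : 1 ≤ C₁ * s := one_le_mul_of_one_le_of_one_le hC₁ hsR
      calc (C₁ * T) ^ T ≤ (C₁ * s) ^ T := by gcongr
        _ ≤ (C₁ * s) ^ s := pow_le_pow_right₀ h0 hTs
    have hC2' : C₂ ^ (T + L + s) ≤ (C₂ ^ (2 + L)) ^ s := by
      rw [← pow_mul]
      refine pow_le_pow_right₀ hC₂ ?_
      nlinarith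
    calc (s.factorial : ℝ) * house (gam D c s)
        ≤ (s : ℝ) ^ s * (2 ^ s * ((L + 1) ^ s * ((C₁ * s) ^ s * (C₂ ^ (2 + L)) ^ s))) := by
          refine mul_le_mul hfs (h1.trans ?_) (house_nonneg _) (by positivity)
          gcongr
      _ = (C₃ * (s : ℝ) ^ 2) ^ s := by
          rw [hC₃']
          rw [← mul_pow, ← mul_pow, ← mul_pow, ← mul_pow]
          congr 1
          ring
  calc (1 : ℝ) ≤ ‖φ ((s.factorial : K) * gam D c s)‖ *
        house ((s.factorial : K) * gam D c s) ^ (d - 1) := hli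
    _ ≤ ((s : ℝ) ^ s * ‖φ (gam D c s)‖) * ((C₃ * (s : ℝ) ^ 2) ^ s) ^ (d - 1) := by
        refine mul_le_mul hφ ?_ (pow_nonneg (house_nonneg _) _) (by positivity)
        exact pow_le_pow_left₀ (house_nonneg _) hhouse _
    _ = ‖φ (gam D c s)‖ * (C₃ ^ (d - 1) * (s : ℝ) ^ (2 * d - 1)) ^ s := by
        have e1 : (s : ℝ) ^ (2 * d - 1) = s * ((s : ℝ) ^ 2) ^ (d - 1) := by
          rw [← pow_mul, ← pow_succ']
          congr 1
          omega
        rw [e1, ← pow_mul, mul_comm s (d - 1), pow_mul]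
        rw [mul_comm ((s : ℝ) ^ s) ‖φ (gam D c s)‖, mul_assoc, ← mul_pow]
        congr 2
        rw [mul_pow]
        ring

end Pool.Agent.Schn
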