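import Pool.Agent.Schn.Defs

/-!
# Schneider's theorem, module TayFactor: vanishing Taylor coefficients and factorisation

Let `f` be analytic at `0`, `tay f = ∑ c_n X ^ n`, `c_n = f^(n)(0) / n!`.
(1) If `c_n = 0` for all `n < s` then near `0` `f (t) = t ^ s g (t)` with `g` analytic at `0` and
`g (0) = c_s`.
(2) If all `c_n = 0` then `f = 0` near `0`.

Proof. Let `p` be the power series of `f` at `0` (`AnalyticAt.hasFPowerSeriesAt` gives
`HasFPowerSeriesAt f (FormalMultilinearSeries.ofScalars ℂ fun n => iteratedDeriv n f 0 / n!) 0`,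
whose `n`-th coefficient is `c_n`: `FormalMultilinearSeries.coeff_ofScalars`).
(2): then `p = 0`, `HasFPowerSeriesAt.locally_zero_iff` (or
`HasFPowerSeriesAt.eventually_eq_zero`).
(1): either induction on `s` with `dslope`: if `f` is analytic at `0` and `f 0 = 0` then
`g := dslope f 0` is analytic at `0`, `f t = t * g t` for all `t`, and the Taylor coefficients of `g`
are those of `f` shifted by one (`HasFPowerSeriesAt.has_fpower_series_dslope_fslope`,
`FormalMultilinearSeries.coeff_fslope`; `iterate` version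
`HasFPowerSeriesAt.has_fpower_series_iterate_dslope_fslope`: take
`g := (Function.swap dslope 0)^[s] f`, which has the power series `fslope^[s] p`, with
`coeff_iterate_fslope : (fslope^[k] p).coeff n = p.coeff (n + k)`; then
`t ^ s g (t) = f (t)` near `0` because both have the same power series — or by
`HasSum.exists_hasSum_smul_of_apply_eq_zero` as in the proof of
`HasFPowerSeriesAt.eq_pow_order_mul_iterate_dslope`).
The final theorem on the Taylor coefficients of `tay f` is only bookkeeping:
`PowerSeries.coeff_mk`.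
-/

namespace Pool.Agent.Schn

open Filter Topology

lemma tayFactor_coeff {f : ℂ → ℂ} {n : ℕ} (h : PowerSeries.coeff n (tay f) = 0) :
    iteratedDeriv n f 0 = 0 := by
  rw [tay, PowerSeries.coeff_mk] at h
  have h2 : (n.factorial : ℂ) ≠ 0 := by exact_mod_cast n.factorial_ne_zero
  exact (div_eq_zero_iff.1 h).resolve_right h2

theorem tay_factor {f : ℂ → ℂ} (hf : AnalyticAt ℂ f 0) (s : ℕ)
    (h : ∀ n < s, PowerSeries.coeff n (tay f) = 0) :
    ∃ g : ℂ → ℂ, AnalyticAt ℂ g 0 ∧ g 0 = PowerSeries.coeff s (tay f) ∧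
      ∀ᶠ t in 𝓝 (0 : ℂ), f t = t ^ s * g t := by
  obtain ⟨F, hF, hfF⟩ := hf.exists_eventuallyEq_sum_add_pow_mul (s + 1)
  refine ⟨fun t => PowerSeries.coeff s (tay f) + t * F t, ?_, ?_, ?_⟩
  · exact analyticAt_const.add (analyticAt_id.mul hF)
  · simp
  · filter_upwards [hfF] with t ht
    rw [ht, Finset.sum_range_succ, Finset.sum_eq_zero, tay, PowerSeries.coeff_mk]
    · simp only [smul_eq_mul]
      ring
    · intro i hi
      rw [tayFactor_coeff (h i (Finset.mem_range.1 hi)), smul_zero]

theorem tay_zero {f : ℂ → ℂ} (hf : AnalyticAt ℂ f 0)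
    (h : ∀ n, PowerSeries.coeff n (tay f) = 0) : ∀ᶠ t in 𝓝 (0 : ℂ), f t = 0 := by
  rw [← analyticOrderAt_eq_top]
  by_contra hne
  obtain ⟨n, hn⟩ := ENat.ne_top_iff_exists.1 hne
  have h1 : ((n + 1 : ℕ) : ℕ∞) ≤ analyticOrderAt f 0 :=
    (natCast_le_analyticOrderAt_iff_iteratedDeriv_eq_zero hf).2
      fun i _ => tayFactor_coeff (h i)
  rw [← hn] at h1
  have h2 : n + 1 ≤ n := by exact_mod_cast h1
  omega

end Pool.Agent.Schn
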