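import Pool.Agent.Schn.Defs

/-!
# Schneider's theorem, module Schwarz: the Schwarz lemma for several zeros

`H` holomorphic on the ball of radius `2 R`, `‖H‖ ≤ M` on `‖w‖ = R`, `z_0, …, z_{N-1}` distinct with
`‖z_j‖ ≤ ρ`, `2 ρ ≤ R`, and `H (w) = (w - z_j)^s g_j (w)` near `z_j` with `g_j` continuous at `z_j`.
Then `‖g_j (z_j)‖ ≤ M (2 ρ)^((N - 1) s) (2 / R)^(N s)`.

Proof. Let `P (w) = ∏_j (w - z_j)^s`. The function `h = H / P` on the ball minus the points `z_j` is
holomorphic, and near `z_j` it equals `g_j (w) / ∏_{k ≠ j} (w - z_k)^s`, which is continuous at `z_j`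
(the `z_k` are distinct); so it extends to a function `h` holomorphic on the ball (removable
singularities: define `h (z_j) = g_j (z_j) / ∏_{k ≠ j} (z_j - z_k)^s`; `h` is continuous on the ball and
differentiable off a finite set: `Complex.analyticAt_of_differentiable_on_punctured_nhds_of_continuousAt`,
for each `z_j` with a punctured neighbourhood avoiding the other points).
Maximum principle on the closed ball of radius `R` (contained in the open ball of radius `2 R`,
`R > 0`): `Complex.norm_le_of_forall_mem_frontier_norm_le` (frontier of the ball is the sphere: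
`frontier_ball`), `‖w‖ = R` gives `‖w - z_j‖ ≥ R - ρ ≥ R / 2`, so `‖P (w)‖ ≥ (R / 2)^(N s)` and
`‖h (w)‖ ≤ M (2 / R)^(N s)`. At `z_j` (`‖z_j‖ ≤ ρ < R`, note `ρ ≥ 0`): `‖h (z_j)‖ ≤ M (2 / R)^(N s)` and
`‖g_j (z_j)‖ = ‖h (z_j)‖ ∏_{k ≠ j} ‖z_j - z_k‖^s ≤ ‖h (z_j)‖ (2 ρ)^((N - 1) s)`.
(Alternatively: induction on the number of points, dividing by one factor at a time with `dslope`.)
-/

namespace Pool.Agent.Schn

open Filter Topology

/-- removing the singularities: dividing by all the factors -/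
theorem schwarz_h {N : ℕ} (z : Fin N → ℂ) (hz : Function.Injective z) {R : ℝ} (H : ℂ → ℂ)
    (hH : DifferentiableOn ℂ H (Metric.ball 0 R))
    (s : ℕ) (g : Fin N → ℂ → ℂ) (hg : ∀ j, ContinuousAt (g j) (z j))
    (hHg : ∀ j, ∀ᶠ w in 𝓝 (z j), H w = (w - z j) ^ s * g j w) :
    ∃ h : ℂ → ℂ, DifferentiableOn ℂ h (Metric.ball 0 R) ∧
      (∀ j, h (z j) * ∏ k ∈ Finset.univ.erase j, (z j - z k) ^ s = g j (z j)) ∧
      ∀ w, (∀ j, w ≠ z j) → h w * ∏ k, (w - z k) ^ s = H w := by
  classical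
  -- definition of h
  let h : ℂ → ℂ := fun w => if hw : ∃ j, w = z j then
      g hw.choose w / ∏ k ∈ Finset.univ.erase hw.choose, (w - z k) ^ s
    else H w / ∏ k, (w - z k) ^ s
  have hval : ∀ j, h (z j) = g j (z j) / ∏ k ∈ Finset.univ.erase j, (z j - z k) ^ s := by
    intro j
    have hw : ∃ j', z j = z j' := ⟨j, rfl⟩
    have hc : hw.choose = j := (hz hw.choose_spec).symm
    simp only [h, dif_pos hw]
    rw [hc]
  have hoff : ∀ w, (∀ j, w ≠ z j) → h w = H w / ∏ k, (w - z k) ^ s := by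
    intro w hw
    have : ¬ ∃ j, w = z j := fun ⟨j, hj⟩ => hw j hj
    simp only [h, dif_neg this]
  have hPne : ∀ w, (∀ j, w ≠ z j) → ∏ k, (w - z k) ^ s ≠ 0 := by
    intro w hw
    exact Finset.prod_ne_zero_iff.mpr fun k _ => pow_ne_zero _ (sub_ne_zero.mpr (hw k))
  have hPjne : ∀ j, ∏ k ∈ Finset.univ.erase j, (z j - z k) ^ s ≠ 0 := by
    intro j
    refine Finset.prod_ne_zero_iff.mpr fun k hk => pow_ne_zero _ (sub_ne_zero.mpr fun e => ?_)
    exact (Finset.mem_erase.mp hk).1 (hz e).symm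
  -- h is continuous at z j
  have hlocal : ∀ j, ∀ᶠ w in 𝓝 (z j), h w = g j w / ∏ k ∈ Finset.univ.erase j, (w - z k) ^ s := by
    intro j
    have hne : ∀ᶠ w in 𝓝 (z j), ∀ k ∈ Finset.univ.erase j, w ≠ z k := by
      rw [Filter.eventually_all_finset]
      intro k hk
      have : z j ≠ z k := fun e => (Finset.mem_erase.mp hk).1 (hz e).symm
      exact isOpen_ne.mem_nhds this
    filter_upwards [hne, hHg j] with w hw hHw
    by_cases hwj : w = z j
    · rw [hwj]; exact hval j
    · have hall : ∀ k, w ≠ z k := by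
        intro k
        by_cases hk : k = j
        · rw [hk]; exact hwj
        · exact hw k (Finset.mem_erase.mpr ⟨hk, Finset.mem_univ _⟩)
      rw [hoff w hall, hHw, ← Finset.mul_prod_erase Finset.univ _ (Finset.mem_univ j)]
      rw [mul_div_mul_left]
      exact pow_ne_zero _ (sub_ne_zero.mpr hwj)
  have hcont : ∀ j, ContinuousAt h (z j) := by
    intro j
    have h1 : ContinuousAt (fun w => g j w / ∏ k ∈ Finset.univ.erase j, (w - z k) ^ s) (z j) := by
      refine (hg j).div ?_ (hPjne j)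
      exact (continuous_finsetProd _ fun k _ => (continuous_id.sub continuous_const).pow _).continuousAt
    exact h1.congr (Filter.EventuallyEq.symm (hlocal j))
  have hdiffoff : ∀ w ∈ Metric.ball (0 : ℂ) R, (∀ j, w ≠ z j) → DifferentiableAt ℂ h w := by
    intro w hwR hw
    have hopen : IsOpen {w : ℂ | ∀ j, w ≠ z j} := by
      have : {w : ℂ | ∀ j, w ≠ z j} = ⋂ j, {w | w ≠ z j} := by ext; simp
      rw [this]
      exact isOpen_iInter_of_finite fun j => isOpen_ne
    have hev : h =ᶠ[𝓝 w] fun w => H w / ∏ k, (w - z k) ^ s := by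
      filter_upwards [hopen.mem_nhds hw] with v hv
      exact hoff v hv
    have hd : DifferentiableAt ℂ (fun w => H w / ∏ k, (w - z k) ^ s) w := by
      refine DifferentiableAt.div ?_ ?_ (hPne w hw)
      · exact hH.differentiableAt (Metric.isOpen_ball.mem_nhds hwR)
      · fun_prop
    exact hd.congr_of_eventuallyEq hev
  refine ⟨h, ?_, ?_, ?_⟩
  · intro w hwR
    by_cases hw : ∃ j, w = z j
    · obtain ⟨j, rfl⟩ := hw
      refine (Complex.analyticAt_of_differentiable_on_punctured_nhds_of_continuousAt ?_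
        (hcont j)).differentiableAt.differentiableWithinAt
      rw [eventually_nhdsWithin_iff]
      have hne : ∀ᶠ w in 𝓝 (z j), ∀ k ∈ Finset.univ.erase j, w ≠ z k := by
        rw [Filter.eventually_all_finset]
        intro k hk
        have : z j ≠ z k := fun e => (Finset.mem_erase.mp hk).1 (hz e).symm
        exact isOpen_ne.mem_nhds this
      filter_upwards [hne, Metric.isOpen_ball.mem_nhds hwR] with w hw hwR' hwj
      refine hdiffoff w hwR' fun k => ?_
      by_cases hk : k = j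
      · rw [hk]; exact hwj
      · exact hw k (Finset.mem_erase.mpr ⟨hk, Finset.mem_univ _⟩)
    · exact (hdiffoff w hwR fun j hj => hw ⟨j, hj⟩).differentiableWithinAt
  · intro j
    rw [hval j, div_mul_cancel₀ _ (hPjne j)]
  · intro w hw
    rw [hoff w hw, div_mul_cancel₀ _ (hPne w hw)]

theorem schwarz {N : ℕ} (z : Fin N → ℂ) (hz : Function.Injective z) {ρ R M : ℝ}
    (hρ : ∀ j, ‖z j‖ ≤ ρ) (hR : 0 < R) (h2 : 2 * ρ ≤ R) (H : ℂ → ℂ)
    (hH : DifferentiableOn ℂ H (Metric.ball 0 (2 * R))) (hM : ∀ w, ‖w‖ = R → ‖H w‖ ≤ M)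
    (s : ℕ) (g : Fin N → ℂ → ℂ) (hg : ∀ j, ContinuousAt (g j) (z j))
    (hHg : ∀ j, ∀ᶠ w in 𝓝 (z j), H w = (w - z j) ^ s * g j w) (j : Fin N) :
    ‖g j (z j)‖ ≤ M * (2 * ρ) ^ ((N - 1) * s) * (2 / R) ^ (N * s) := by
  have hρ0 : 0 ≤ ρ := (norm_nonneg _).trans (hρ j)
  have hzR : ∀ j, ‖z j‖ ≤ R / 2 := fun j => (hρ j).trans (by linarith)
  obtain ⟨h, hd, hv, ho⟩ := schwarz_h z hz H hH s g hg hHg
  have hM0 : 0 ≤ M := by
    have := hM (R : ℂ) (by rw [Complex.norm_real, Real.norm_of_nonneg hR.le])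
    exact (norm_nonneg _).trans this
  have hfr : ∀ w ∈ frontier (Metric.ball (0 : ℂ) R), ‖h w‖ ≤ M * (2 / R) ^ (N * s) := by
    intro w hw
    rw [frontier_ball _ hR.ne', mem_sphere_zero_iff_norm] at hw
    have hwz : ∀ k, R / 2 ≤ ‖w - z k‖ := by
      intro k
      have h1 := norm_sub_norm_le w (z k)
      have := hzR k
      linarith
    have hne : ∀ k, w ≠ z k := by
      intro k e
      have := hwz k
      rw [e, sub_self, norm_zero] at this
      linarith
    have h1 := ho w hne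
    have h2' : ‖h w‖ * ∏ k, ‖w - z k‖ ^ s = ‖H w‖ := by
      rw [← h1, norm_mul, norm_prod]
      simp
    have h3 : (R / 2) ^ (N * s) ≤ ∏ k, ‖w - z k‖ ^ s := by
      calc (R / 2) ^ (N * s) = ∏ _k : Fin N, (R / 2) ^ s := by
            rw [Finset.prod_const, Finset.card_univ, Fintype.card_fin, ← pow_mul, mul_comm]
        _ ≤ ∏ k, ‖w - z k‖ ^ s := by
            refine Finset.prod_le_prod (fun _ _ => by positivity) fun k _ => ?_
            exact pow_le_pow_left₀ (by positivity) (hwz k) s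
    have h4 : ‖h w‖ * (R / 2) ^ (N * s) ≤ M := by
      calc ‖h w‖ * (R / 2) ^ (N * s) ≤ ‖h w‖ * ∏ k, ‖w - z k‖ ^ s :=
            mul_le_mul_of_nonneg_left h3 (norm_nonneg _)
        _ = ‖H w‖ := h2'
        _ ≤ M := hM w hw
    have h5 : (2 / R) ^ (N * s) = ((R / 2) ^ (N * s))⁻¹ := by
      rw [← inv_pow, inv_div]
    rw [h5, ← div_eq_mul_inv, le_div_iff₀ (by positivity)]
    exact h4
  have hmax : ‖h (z j)‖ ≤ M * (2 / R) ^ (N * s) := by
    refine Complex.norm_le_of_forall_mem_frontier_norm_le (U := Metric.ball (0 : ℂ) R)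
      Metric.isBounded_ball ?_ hfr ?_
    · refine DifferentiableOn.diffContOnCl ?_
      rw [closure_ball _ hR.ne']
      exact hd.mono (Metric.closedBall_subset_ball (by linarith))
    · rw [closure_ball _ hR.ne']
      simp only [Metric.mem_closedBall, dist_zero_right]
      have := hzR j
      linarith
  have hprod : ‖∏ k ∈ Finset.univ.erase j, (z j - z k) ^ s‖ ≤ (2 * ρ) ^ ((N - 1) * s) := by
    rw [norm_prod]
    calc ∏ k ∈ Finset.univ.erase j, ‖(z j - z k) ^ s‖
        ≤ ∏ _k ∈ Finset.univ.erase j, (2 * ρ) ^ s := by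
          refine Finset.prod_le_prod (fun _ _ => norm_nonneg _) fun k _ => ?_
          rw [norm_pow]
          refine pow_le_pow_left₀ (norm_nonneg _) ?_ s
          calc ‖z j - z k‖ ≤ ‖z j‖ + ‖z k‖ := norm_sub_le _ _
            _ ≤ 2 * ρ := by have := hρ j; have := hρ k; linarith
      _ = (2 * ρ) ^ ((N - 1) * s) := by
          rw [Finset.prod_const, Finset.card_erase_of_mem (Finset.mem_univ _), Finset.card_univ,
            Fintype.card_fin, ← pow_mul, Nat.mul_comm s (N - 1)]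
  rw [← hv j, norm_mul]
  calc ‖h (z j)‖ * ‖∏ k ∈ Finset.univ.erase j, (z j - z k) ^ s‖
      ≤ (M * (2 / R) ^ (N * s)) * (2 * ρ) ^ ((N - 1) * s) :=
        mul_le_mul hmax hprod (norm_nonneg _) (by positivity)
    _ = M * (2 * ρ) ^ ((N - 1) * s) * (2 / R) ^ (N * s) := by ring

end Pool.Agent.Schn
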