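import Pool.Agent.Schn.Defs

/-!
# Schneider's theorem, module ClearDen: clearing denominators

For a finite family `x` of elements of a number field there is a positive integer `δ` such that
`δ^k x_i` is an algebraic integer for all `i` and all `k ≥ 1`.

Proof. For each `i` there is `δ_i ≠ 0` in `ℤ` with `δ_i x_i` integral over `ℤ`
(`exists_integral_multiple`, or `IsAlgebraic.exists_integral_multiple`, or
`IsIntegralClosure`/`IsLocalization` facts for `𝓞 K`); let `δ = ∏ |δ_i|`, a positive natural number;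
`δ x_i = (± ∏_{k ≠ i} |δ_k|) δ_i x_i` is integral, and so is `δ^k x_i = δ^(k - 1) δ x_i`.
-/

namespace Pool.Agent.Schn

theorem clear_den {K : Type*} [Field K] [NumberField K] {ι : Type*} [Finite ι] (x : ι → K) :
    ∃ δ : ℕ, 0 < δ ∧ ∀ i, ∀ k : ℕ, 1 ≤ k → IsIntegral ℤ ((δ : K) ^ k * x i) := by
  classical
  have := Fintype.ofFinite ι
  have halg : Algebra.IsAlgebraic ℤ K := by
    have : Algebra.IsAlgebraic ℤ ℚ := IsLocalization.isAlgebraic ℚ (nonZeroDivisors ℤ)
    exact Algebra.IsAlgebraic.trans ℤ ℚ K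
  obtain ⟨y, hy, h⟩ := Algebra.IsAlgebraic.exists_integral_multiples ℤ (Finset.univ.image x)
  refine ⟨y.natAbs, Int.natAbs_pos.2 hy, fun i k hk => ?_⟩
  have h1 : IsIntegral ℤ (y • x i) := h _ (Finset.mem_image_of_mem x (Finset.mem_univ i))
  have h2 : IsIntegral ℤ ((y.natAbs : K) * x i) := by
    rcases Int.natAbs_eq y with h3 | h3
    · have h4 : y • x i = (y.natAbs : K) * x i := by
        conv_lhs => rw [h3]
        rw [zsmul_eq_mul, Int.cast_natCast]
      rwa [h4] at h1
    · have h4 : y • x i = -((y.natAbs : K) * x i) := by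
        conv_lhs => rw [h3]
        rw [zsmul_eq_mul, Int.cast_neg, Int.cast_natCast, neg_mul]
      rw [h4] at h1
      simpa using h1.neg
  have h5 : (y.natAbs : K) ^ k * x i = (y.natAbs : K) ^ (k - 1) * ((y.natAbs : K) * x i) := by
    rw [← mul_assoc, ← pow_succ, Nat.sub_add_cancel hk]
  rw [h5]
  refine IsIntegral.mul (IsIntegral.pow ?_ _) h2
  have h6 := isIntegral_algebraMap (R := ℤ) (A := K) (x := (y.natAbs : ℤ))
  rwa [eq_intCast, Int.cast_natCast] at h6

end Pool.Agent.Schn
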