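import Pool.Agent.Schn.MulPts

/-!
# Schneider's theorem, module Points: arbitrarily many points with coordinates in a field

Let `K` be a subfield of `ℂ` containing `g₂`, `p`, `℘ (p)`, `℘' (p)`, with `p` off the lattice. Then
for every `N` there are `N` distinct points `z` off the lattice with `z, ℘ (z), ℘' (z) ∈ K`.

Proof. `p ≠ 0` (`0 = lat a b 0`). For every natural `j`, one of `(2 j + 1) p`, `(2 j + 2) p` is off
the lattice: otherwise both are lattice vectors, so is their difference `p` (`lat_sub`), against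
`hp`. Let `z j := (2 j + 1) p` if this is off the lattice, `z j := (2 j + 2) p` otherwise, i.e.
`z j = m j * p` with `m j ∈ {2 j + 1, 2 j + 2}` natural numbers; `m` is injective (as
`(m j - 1) / 2 = j`) and `p ≠ 0`, so `z` is injective. Membership: `mul_pts` and `K` is closed under
multiplication and contains the natural numbers.
-/

namespace Pool.Agent.Schn

open Pool.Agent.EllSch

theorem points {a b p : ℂ} (h : Ind a b) (hp : Off a b p) (K : Subfield ℂ)
    (hG : G2 a b ∈ K) (h0 : p ∈ K) (h1 : wp a b p ∈ K) (h2 : wq a b p ∈ K) (N : ℕ) :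
    ∃ z : Fin N → ℂ, Function.Injective z ∧
      ∀ j, Off a b (z j) ∧ z j ∈ K ∧ wp a b (z j) ∈ K ∧ wq a b (z j) ∈ K := by
  have hp0 : p ≠ 0 := by
    rintro rfl
    exact hp (0, 0) (lat_zero a b).symm
  have key : ∀ j : ℕ, ∃ m : ℕ, (m = 2 * j + 1 ∨ m = 2 * j + 2) ∧ Off a b ((m : ℂ) * p) := by
    intro j
    by_contra hcon
    push Not at hcon
    have e1 := hcon (2 * j + 1) (Or.inl rfl)
    have e2 := hcon (2 * j + 2) (Or.inr rfl)
    rw [Basic.not_off_iff] at e1 e2
    obtain ⟨x, hx⟩ := e1
    obtain ⟨y, hy⟩ := e2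
    refine hp (y.1 - x.1, y.2 - x.2) ?_
    have h3 : lat a b (y.1 - x.1, y.2 - x.2) = lat a b y - lat a b x := by
      simp only [lat]
      push_cast
      ring
    rw [h3, ← hx, ← hy]
    push_cast
    ring
  choose m hm hoff using key
  have hinj : Function.Injective m := by
    intro i j hij
    have h3 := hm i
    have h4 := hm j
    omega
  refine ⟨fun j => (m j : ℂ) * p, ?_, fun j => ?_⟩
  · intro i j hij
    have h3 : (m i : ℂ) * p = (m j : ℂ) * p := hij
    have h4 : (m i : ℂ) = m j := mul_right_cancel₀ hp0 h3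
    exact Fin.ext (hinj (by exact_mod_cast h4))
  · have h3 := mul_pts h hp K hG h1 h2 (m j) (hoff j)
    exact ⟨hoff j, K.mul_mem (natCast_mem K (m j)) h0, h3.1, h3.2⟩

end Pool.Agent.Schn
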