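import Pool.Agent.Schn.Core
import Pool.Agent.Schn.ClearDen
import Pool.Agent.Schn.Points

/-!
# Schneider's theorem

If `g₂`, `g₃` are algebraic and `p` is off the lattice then `p` and `℘ (p)` are not both algebraic.

Proof. `℘' (p)² = 4 ℘ (p)³ - g₂ ℘ (p) - g₃` (`ode`), so `℘' (p)` is algebraic too. Let
`K = ℚ(g₂, p, ℘ (p), ℘' (p)) ⊆ ℂ` (`IntermediateField.adjoin`), a number field (finitely many
algebraic generators: `IntermediateField.finiteDimensional_adjoin`), `φ = K.val`,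
`N = 8 [K : ℚ] + 2`, `z_j` the points of `points` (for `K.toSubfield`). By `clear_den` for the
elements `z_j, ℘ (z_j), ℘' (z_j), g₂ / 2` of `K` there is a natural `δ ≥ 1` with `δ z_j`,
`δ² ℘ (z_j)`, `δ³ ℘' (z_j)`, `δ⁴ g₂ / 2` integral. `D_j = ⟨δ² ℘ (z_j), δ³ ℘' (z_j), δ z_j, δ², δ⁴ g₂ / 2⟩`.
Apply `core`.
-/

namespace Pool.Agent.Schn

open Pool.Agent.EllSch NumberField

theorem schneider {a b p : ℂ} (h : Ind a b) (hp : Off a b p) (h2 : IsAlgebraic ℚ (G2 a b))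
    (h3 : IsAlgebraic ℚ (G3 a b)) (h0 : IsAlgebraic ℚ p) (h1 : IsAlgebraic ℚ (wp a b p)) :
    False := by
  have hq : IsAlgebraic ℚ (wq a b p) := by
    have e := ode h hp
    have h4 : IsAlgebraic ℚ (wq a b p ^ 2) := by
      rw [e]
      have h5 : IsAlgebraic ℚ (4 : ℂ) := isAlgebraic_natCast 4
      exact ((h5.mul (h1.pow 3)).sub (h2.mul h1)).sub h3
    exact (isAlgebraic_iff_isIntegral.2 ((isAlgebraic_iff_isIntegral.1 h4).of_pow (by norm_num)))
  let S : Set ℂ := {G2 a b, p, wp a b p, wq a b p}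
  let K : IntermediateField ℚ ℂ := IntermediateField.adjoin ℚ S
  have hS : ∀ x ∈ S, IsIntegral ℚ x := by
    intro x hx
    simp only [S, Set.mem_insert_iff, Set.mem_singleton_iff] at hx
    rcases hx with rfl | rfl | rfl | rfl
    · exact isAlgebraic_iff_isIntegral.1 h2
    · exact isAlgebraic_iff_isIntegral.1 h0
    · exact isAlgebraic_iff_isIntegral.1 h1
    · exact isAlgebraic_iff_isIntegral.1 hq
  have hSf : Finite S := by
    apply Set.Finite.to_subtype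
    simp [S]
  have hfd : FiniteDimensional ℚ K := IntermediateField.finiteDimensional_adjoin hS
  have hNF : NumberField K := { to_charZero := inferInstance, to_finiteDimensional := hfd }
  have hmem : ∀ x ∈ S, x ∈ K := fun x hx => IntermediateField.subset_adjoin ℚ S hx
  have m2 : G2 a b ∈ K := hmem _ (by simp [S])
  have m0 : p ∈ K := hmem _ (by simp [S])
  have m1 : wp a b p ∈ K := hmem _ (by simp [S])
  have mq : wq a b p ∈ K := hmem _ (by simp [S])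
  obtain ⟨z, hz, hzK⟩ := points h hp K.toSubfield m2 m0 m1 mq (8 * Module.finrank ℚ K + 2)
  have n0 : ∀ j, z j ∈ K := fun j => (hzK j).2.1
  have n1 : ∀ j, wp a b (z j) ∈ K := fun j => (hzK j).2.2.1
  have nq : ∀ j, wq a b (z j) ∈ K := fun j => (hzK j).2.2.2
  let N := 8 * Module.finrank ℚ K + 2
  let xf : (Fin N ⊕ Fin N ⊕ Fin N ⊕ Unit) → K :=
    Sum.elim (fun j => ⟨z j, n0 j⟩) (Sum.elim (fun j => ⟨wp a b (z j), n1 j⟩)
      (Sum.elim (fun j => ⟨wq a b (z j), nq j⟩) (fun _ => ⟨G2 a b, m2⟩ / 2)))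
  obtain ⟨δ, hδ, hint⟩ := clear_den xf
  have i0 : ∀ j, IsIntegral ℤ ((δ : K) ^ 1 * (⟨z j, n0 j⟩ : K)) := fun j =>
    hint (Sum.inl j) 1 le_rfl
  have i1 : ∀ j, IsIntegral ℤ ((δ : K) ^ 2 * (⟨wp a b (z j), n1 j⟩ : K)) := fun j =>
    hint (Sum.inr (Sum.inl j)) 2 (by norm_num)
  have iq : ∀ j, IsIntegral ℤ ((δ : K) ^ 3 * (⟨wq a b (z j), nq j⟩ : K)) := fun j =>
    hint (Sum.inr (Sum.inr (Sum.inl j))) 3 (by norm_num)
  have i2 : IsIntegral ℤ ((δ : K) ^ 4 * ((⟨G2 a b, m2⟩ : K) / 2)) :=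
    hint (Sum.inr (Sum.inr (Sum.inr ()))) 4 (by norm_num)
  let D : Fin N → Dat K := fun j =>
    { X0 := ⟨_, i1 j⟩
      X1 := ⟨_, iq j⟩
      U0 := ⟨_, i0 j⟩
      V := (δ : 𝓞 K) ^ 2
      G := ⟨_, i2⟩ }
  refine core (K := K) (algebraMap K ℂ) (δ := (δ : ℂ)) h ?_ z hz (fun j => (hzK j).1) D ?_
  · rw [Complex.norm_natCast]
    exact_mod_cast hδ
  · intro j
    refine ⟨?_, ?_, ?_, ?_, ?_⟩
    · change ((((δ : K) ^ 2 * (⟨wp a b (z j), n1 j⟩ : K) : K)) : ℂ) = _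
      push_cast
      rfl
    · change ((((δ : K) ^ 3 * (⟨wq a b (z j), nq j⟩ : K) : K)) : ℂ) = _
      push_cast
      rfl
    · change ((((δ : K) ^ 1 * (⟨z j, n0 j⟩ : K) : K)) : ℂ) = _
      rw [pow_one]
      push_cast
      rfl
    · change algebraMap K ℂ (((δ : 𝓞 K) ^ 2 : 𝓞 K) : K) = _
      push_cast
      simp
    · change ((((δ : K) ^ 4 * ((⟨G2 a b, m2⟩ : K) / 2) : K)) : ℂ) = _
      have e2 : (((2 : K)) : ℂ) = 2 := rfl
      push_cast
      rw [e2]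
      ring

end Pool.Agent.Schn
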