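import Pool.Agent.Schn.HurwitzInt
import Pool.Agent.Schn.MonoBound

/-!
# Schneider's theorem, module SiegelC: choice of the auxiliary function

For `N ≥ 1` points with data `D j` there is `C ≥ 1` such that for all `T ≥ 1` there are
`c : Fin T → Fin (2 N) → 𝓞 K`, not all zero, with `gam (D j) c n = 0` for all `j` and `n < T`, and
`house (c i l) ≤ (C T)^T`.

Proof. Siegel's lemma over number fields, `NumberField.house.exists_ne_zero_int_vec_house_le K a ha
h0p hpq cardα cardβ habs` of Mathlib (its constant `c₁ K` is private: get it first as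
`∃ c₁ : ℝ, ∀ ...` with `exact ⟨_, fun ... => NumberField.house.exists_ne_zero_int_vec_house_le ..⟩`,
or use the result for the needed `a` and generalise), for the index types `α = Fin N × Fin T`,
`β = Fin T × Fin (2 N)`, `p = N T`, `q = 2 N T`, and the matrix with the entry
`y = n! * coeff n (mono (D j) i l) ∈ 𝓞 K` (`hurwitz`) in the row `(j, n)` and the column `(i, l)`.
If the matrix is `0` take `c = 1`. By `mono_bound` (maximum `C₂` of the constants of the `D j`, e.g.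
the sum of the constants) and `house_nat_mul`, `house y ≤ n! C₂ ^ (i + l + n) ≤ T^T C₂^(2 T + 2 N) =: A`
for `n, i < T`, `l < 2 N`. The exponent is `p / (q - p) = 1`, so
`house (c i l) ≤ c₁ (c₁ 2 N T A) ≤ (C T)^T` with `C = (1 + |c₁|)² * 2 N * 2 * C₂^(2 + 2 N)`, using
`T ≤ 2^T`, `x ≤ x^T` for `x ≥ 1`, `T ≥ 1`. The equations `a *ᵥ ξ = 0` say
`n! * gam (D j) c n = 0`, so `gam (D j) c n = 0`.
-/

namespace Pool.Agent.Schn

open NumberField Matrix

theorem siegel_post {K : Type*} [Field K] [NumberField K] {N T : ℕ} (hN : 0 < N) (hT : 0 < T)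
    {a : Matrix (Fin N × Fin T) (Fin T × Fin (2 * N)) (𝓞 K)} {A c : ℝ}
    (h : ∃ ξ : Fin T × Fin (2 * N) → 𝓞 K, ξ ≠ 0 ∧ a *ᵥ ξ = 0 ∧
      ∀ l, house (ξ l).1 ≤ c * ((c * ((2 * N * T : ℕ) : ℝ) * A) ^
        (((N * T : ℕ) : ℝ) / (((2 * N * T : ℕ) : ℝ) - ((N * T : ℕ) : ℝ))))) :
    ∃ ξ : Fin T × Fin (2 * N) → 𝓞 K, ξ ≠ 0 ∧ a *ᵥ ξ = 0 ∧
      ∀ l, house (algebraMap (𝓞 K) K (ξ l)) ≤ c * (c * ((2 * N * T : ℕ) : ℝ) * A) := by
  obtain ⟨ξ, h3, h4, h5⟩ := h
  have h1 : 0 < N * T := Nat.mul_pos hN hT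
  refine ⟨ξ, h3, h4, fun l => ?_⟩
  have h6 : ((N * T : ℕ) : ℝ) / (((2 * N * T : ℕ) : ℝ) - ((N * T : ℕ) : ℝ)) = 1 := by
    have h7 : (((2 * N * T : ℕ) : ℝ) - ((N * T : ℕ) : ℝ)) = ((N * T : ℕ) : ℝ) := by
      push_cast; ring
    rw [h7]
    exact div_self (by exact_mod_cast h1.ne')
  have h8 := h5 l
  rw [h6, Real.rpow_one] at h8
  exact h8

theorem siegel_card {N T : ℕ} : Fintype.card (Fin T × Fin (2 * N)) = 2 * N * T := by
  simp; ring

theorem siegel_lt {N T : ℕ} (hN : 0 < N) (hT : 0 < T) : N * T < 2 * N * T := by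
  have := Nat.mul_pos hN hT
  nlinarith

open scoped Classical in
/-- Siegel's lemma with a constant that depends only on `K` -/
theorem siegel_const (K : Type*) [Field K] [NumberField K] :
    ∃ c₁ : ℝ, ∀ (N T : ℕ), 0 < N → 0 < T →
      ∀ (a : Matrix (Fin N × Fin T) (Fin T × Fin (2 * N)) (𝓞 K)), a ≠ 0 → ∀ A : ℝ,
      (∀ k l, house (algebraMap (𝓞 K) K (a k l)) ≤ A) →
      ∃ ξ : Fin T × Fin (2 * N) → 𝓞 K, ξ ≠ 0 ∧ a *ᵥ ξ = 0 ∧
        ∀ l, house (algebraMap (𝓞 K) K (ξ l)) ≤ c₁ * (c₁ * ((2 * N * T : ℕ) : ℝ) * A) :=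
  ⟨_, fun N T hN hT a ha _ hA => siegel_post hN hT
    (NumberField.house.exists_ne_zero_int_vec_house_le K a ha (Nat.mul_pos hN hT)
      (siegel_lt hN hT) siegel_card hA (by simp))⟩

theorem siegel_c {K : Type*} [Field K] [NumberField K] {N : ℕ} (hN : 0 < N)
    (D : Fin N → Dat K) :
    ∃ C : ℝ, 1 ≤ C ∧ ∀ T : ℕ, 1 ≤ T → ∃ c : Fin T → Fin (2 * N) → 𝓞 K, c ≠ 0 ∧
      (∀ j, ∀ n < T, gam (D j) c n = 0) ∧ ∀ i l, house (c i l : K) ≤ (C * T) ^ T := by
  classical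
  obtain ⟨c₁, hc₁⟩ := siegel_const K
  choose C₂ hC₂1 hC₂ using fun j => mono_bound (D j)
  set C₃ : ℝ := ∑ j, C₂ j with hC₃
  have hC₃j : ∀ j, C₂ j ≤ C₃ := fun j =>
    Finset.single_le_sum (f := C₂) (fun k _ => zero_le_one.trans (hC₂1 k)) (Finset.mem_univ j)
  have hC₃1 : 1 ≤ C₃ := (hC₂1 ⟨0, hN⟩).trans (hC₃j ⟨0, hN⟩)
  have hNR : (1 : ℝ) ≤ N := by exact_mod_cast hN
  set E : ℝ := (1 + |c₁|) ^ 2 with hE
  have hE1 : 1 ≤ E := by
    have : (0 : ℝ) ≤ |c₁| := abs_nonneg _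
    nlinarith
  have hcE : c₁ ^ 2 ≤ E := by
    have h1 := sq_abs c₁
    have : (0 : ℝ) ≤ |c₁| := abs_nonneg _
    nlinarith
  set C : ℝ := E * (2 * N) * 2 * C₃ ^ (2 + 2 * N) with hC
  have hpow1 : (1 : ℝ) ≤ C₃ ^ (2 + 2 * N) := one_le_pow₀ hC₃1
  have hC1 : 1 ≤ C := by
    have h1 : (1 : ℝ) ≤ 2 * N := by linarith
    have h2 : (1 : ℝ) ≤ E * (2 * N) := one_le_mul_of_one_le_of_one_le hE1 h1
    have h3 : (1 : ℝ) ≤ E * (2 * N) * 2 := one_le_mul_of_one_le_of_one_le h2 (by norm_num)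
    exact one_le_mul_of_one_le_of_one_le h3 hpow1
  refine ⟨C, hC1, ?_⟩
  intro T hT
  have hTR : (1 : ℝ) ≤ T := by exact_mod_cast hT
  have hT2 : (T : ℝ) ≤ 2 ^ T := by exact_mod_cast (Nat.lt_two_pow_self (n := T)).le
  choose y hy using fun (j : Fin N) (n : Fin T) (i : Fin T) (l : Fin (2 * N)) =>
    hurwitz (D j) i l n
  have hyb : ∀ j n i l, house (algebraMap (𝓞 K) K (y j n i l)) ≤
      (T : ℝ) ^ T * C₃ ^ (2 * T + 2 * N) := by
    intro j n i l
    have e : algebraMap (𝓞 K) K (y j n i l) =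
      ((n : ℕ).factorial : K) * PowerSeries.coeff (n : ℕ) (mono (D j) i l) := hy j n i l
    rw [e, house_nat_mul]
    have h1 : ((n : ℕ).factorial : ℝ) ≤ (T : ℝ) ^ T := by
      calc ((n : ℕ).factorial : ℝ) ≤ (T.factorial : ℝ) := by
            exact_mod_cast Nat.factorial_le n.2.le
        _ ≤ (T : ℝ) ^ T := by exact_mod_cast Nat.factorial_le_pow T
    have h2 : house (PowerSeries.coeff (n : ℕ) (mono (D j) i l)) ≤ C₃ ^ (2 * T + 2 * N) := by
      calc house (PowerSeries.coeff (n : ℕ) (mono (D j) i l))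
          ≤ C₂ j ^ ((i : ℕ) + l + n) := hC₂ j i l n
        _ ≤ C₃ ^ ((i : ℕ) + l + n) :=
            pow_le_pow_left₀ (zero_le_one.trans (hC₂1 j)) (hC₃j j) _
        _ ≤ C₃ ^ (2 * T + 2 * N) := by
            refine pow_le_pow_right₀ hC₃1 ?_
            have := i.2; have := l.2; have := n.2
            omega
    exact mul_le_mul h1 h2 (house_nonneg _) (by positivity)
  have hfacne : ∀ n : ℕ, (n.factorial : K) ≠ 0 := fun n => by exact_mod_cast n.factorial_ne_zero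
  let a : Matrix (Fin N × Fin T) (Fin T × Fin (2 * N)) (𝓞 K) := fun r s => y r.1 r.2 s.1 s.2
  by_cases ha : a = 0
  · refine ⟨fun _ _ => 1, ?_, ?_, ?_⟩
    · intro e
      have := congrFun (congrFun e ⟨0, hT⟩) ⟨0, by omega⟩
      simp at this
    · intro j n hn
      rw [gam]
      refine Finset.sum_eq_zero fun i _ => Finset.sum_eq_zero fun l _ => ?_
      have h1 : y j ⟨n, hn⟩ i l = 0 := congrFun (congrFun ha (j, ⟨n, hn⟩)) (i, l)
      have h2 := hy j ⟨n, hn⟩ i l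
      rw [h1] at h2
      have h3 : (n.factorial : K) * PowerSeries.coeff n (mono (D j) i l) = 0 := by
        rw [← h2]; exact map_zero (algebraMap (𝓞 K) K)
      rw [(mul_eq_zero.mp h3).resolve_left (hfacne n), mul_zero]
    · intro i l
      have h1 : house (((1 : 𝓞 K)) : K) = 1 := by
        have h2 := house_intCast (K := K) 1
        simpa using h2
      refine h1.le.trans (one_le_pow₀ (one_le_mul_of_one_le_of_one_le hC1 hTR))
  · obtain ⟨ξ, h3, h4, h5⟩ := hc₁ N T hN hT a ha _ (fun k l => hyb k.1 k.2 l.1 l.2)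
    refine ⟨fun i l => ξ (i, l), ?_, ?_, ?_⟩
    · intro e
      apply h3
      funext p
      exact congrFun (congrFun e p.1) p.2
    · intro j n hn
      have h6 : (a *ᵥ ξ) (j, ⟨n, hn⟩) = 0 := by rw [h4]; rfl
      simp only [Matrix.mulVec, dotProduct, Fintype.sum_prod_type] at h6
      have h7 : (n.factorial : K) * gam (D j) (fun i l => ξ (i, l)) n = 0 := by
        have h8 := congrArg (algebraMap (𝓞 K) K) h6
        rw [map_zero, map_sum] at h8
        rw [← h8, gam, Finset.mul_sum]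
        refine Finset.sum_congr rfl fun i _ => ?_
        rw [map_sum, Finset.mul_sum]
        refine Finset.sum_congr rfl fun l _ => ?_
        rw [map_mul]
        have h9 : algebraMap (𝓞 K) K (a (j, ⟨n, hn⟩) (i, l)) =
          (n.factorial : K) * PowerSeries.coeff n (mono (D j) i l) := hy j ⟨n, hn⟩ i l
        rw [h9]
        ring
      exact (mul_eq_zero.mp h7).resolve_left (hfacne n)
    · intro i l
      refine (h5 (i, l)).trans ?_
      have hX : (0 : ℝ) ≤ ((2 * N * T : ℕ) : ℝ) * ((T : ℝ) ^ T * C₃ ^ (2 * T + 2 * N)) := by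
        positivity
      have hCpow : C₃ ^ (2 * T + 2 * N) ≤ (C₃ ^ (2 + 2 * N)) ^ T := by
        rw [← pow_mul]
        refine pow_le_pow_right₀ hC₃1 ?_
        nlinarith
      have hself : ∀ x : ℝ, 1 ≤ x → x ≤ x ^ T := fun x hx => by
        calc x = x ^ 1 := (pow_one x).symm
          _ ≤ x ^ T := pow_le_pow_right₀ hx hT
      calc c₁ * (c₁ * ((2 * N * T : ℕ) : ℝ) * ((T : ℝ) ^ T * C₃ ^ (2 * T + 2 * N)))
          = c₁ ^ 2 * (((2 * N * T : ℕ) : ℝ) * ((T : ℝ) ^ T * C₃ ^ (2 * T + 2 * N))) := by ring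
        _ ≤ E * (((2 * N * T : ℕ) : ℝ) * ((T : ℝ) ^ T * C₃ ^ (2 * T + 2 * N))) :=
            mul_le_mul_of_nonneg_right hcE hX
        _ = E * ((2 * N) * (T * (T ^ T * C₃ ^ (2 * T + 2 * N)))) := by push_cast; ring
        _ ≤ E ^ T * ((2 * N) ^ T * (2 ^ T * (T ^ T * (C₃ ^ (2 + 2 * N)) ^ T))) := by
            have h2N : (1 : ℝ) ≤ 2 * N := by linarith
            have := hself E hE1
            have := hself (2 * N) h2N
            gcongr
        _ = (C * T) ^ T := by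
            rw [hC, ← mul_pow, ← mul_pow, ← mul_pow, ← mul_pow]
            congr 1
            ring

end Pool.Agent.Schn
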