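import Pool.Agent.Schn.Upper
import Pool.Agent.Schn.Lower
import Pool.Agent.Schn.SiegelC

/-!
# Schneider's theorem, module Core: the contradiction

A number field `K` of degree `d` cannot contain the data of `N = 8 d + 2` distinct points.

Proof. `d ≥ 1` (`Module.finrank_pos`). `C₁` from `siegel_c`; `C_U, s₀` from `upper`, `C_L` the maximum
(or the product, or the sum) over `j` of the constants of `lower φ (D j) (2 N)` (the bound of `lower`
is monotone in `C`). Choose a natural `T ≥ 1`, `T ≥ s₀`, `T > (C_U C_L)⁴`, `c` from `siegel_c`. By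
`exists_gam_ne_zero` (at `z_0`) some `gam (D 0) c n ≠ 0`; let `s` be the least natural number with
`gam (D j) c s ≠ 0` for some `j` (`Nat.find`); then `s ≥ T` and `gam (D j) c n = 0` for all `j`,
`n < s`. Let `R = √√s`, `R⁴ = s ≥ 1`, so `R ≥ 1`. `lower`:
`1 ≤ ‖φ γ‖ (C_L R^(4 (2 d - 1)))^s`, `γ = gam (D j) c s`; `upper`: `‖φ γ‖ R^(N s) ≤ (C_U R⁵)^s`. So
`R^(N s) ≤ (C_U R⁵)^s (C_L R^(8 d - 4))^s = (C_U C_L R^(8 d + 1))^s`, hence
`R^(8 d + 2) ≤ C_U C_L R^(8 d + 1)` (`s ≥ 1`, `pow_le_pow_left_iff`), `R ≤ C_U C_L`,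
`s = R⁴ ≤ (C_U C_L)⁴ < T ≤ s`: contradiction.
-/

namespace Pool.Agent.Schn

open Pool.Agent.EllSch NumberField

/-- the final numerical contradiction -/
private theorem core_num {s d : ℕ} (hs : 1 ≤ s) (hd : 1 ≤ d) {R x CU CL : ℝ} (hR : 1 ≤ R)
    (hR4 : R ^ 4 = s) (hCU : 1 ≤ CU) (hCL : 1 ≤ CL)
    (hU : x * R ^ ((8 * d + 2) * s) ≤ (CU * R ^ 5) ^ s)
    (hL : 1 ≤ x * (CL * (s : ℝ) ^ (2 * d - 1)) ^ s) : (s : ℝ) ≤ (CU * CL) ^ 4 := by
  have hR0 : 0 < R := by linarith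
  have hCU0 : 0 < CU := by linarith
  have hCL0 : 0 < CL := by linarith
  have h1 : (s : ℝ) ^ (2 * d - 1) = R ^ (8 * d - 4) := by
    rw [← hR4, ← pow_mul]; congr 1; omega
  rw [h1] at hL
  have h2 : (R ^ (8 * d + 2)) ^ s ≤ (CU * CL * R ^ (8 * d + 1)) ^ s := by
    calc (R ^ (8 * d + 2)) ^ s = 1 * R ^ ((8 * d + 2) * s) := by rw [one_mul, pow_mul]
      _ ≤ (x * (CL * R ^ (8 * d - 4)) ^ s) * R ^ ((8 * d + 2) * s) :=
          mul_le_mul_of_nonneg_right hL (by positivity)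
      _ = (x * R ^ ((8 * d + 2) * s)) * (CL * R ^ (8 * d - 4)) ^ s := by ring
      _ ≤ (CU * R ^ 5) ^ s * (CL * R ^ (8 * d - 4)) ^ s :=
          mul_le_mul_of_nonneg_right hU (by positivity)
      _ = (CU * CL * R ^ (8 * d + 1)) ^ s := by
          rw [← mul_pow]; congr 1
          have : R ^ (8 * d + 1) = R ^ 5 * R ^ (8 * d - 4) := by
            rw [← pow_add]; congr 1; omega
          rw [this]; ring
  have h3 : R ^ (8 * d + 2) ≤ CU * CL * R ^ (8 * d + 1) :=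
    (pow_le_pow_iff_left₀ (by positivity) (by positivity) (by omega)).1 h2
  have h4 : R ≤ CU * CL := by
    have h5 : R * R ^ (8 * d + 1) ≤ CU * CL * R ^ (8 * d + 1) := by
      calc R * R ^ (8 * d + 1) = R ^ (8 * d + 2) := by ring
        _ ≤ _ := h3
    exact le_of_mul_le_mul_right h5 (by positivity)
  rw [← hR4]
  exact pow_le_pow_left₀ hR0.le h4 4

/-- `core` with the number `N` of points and the degree `d` kept apart -/
private theorem core_aux {K : Type*} [Field K] [NumberField K] (φ : K →+* ℂ) {a b δ : ℂ}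
    (h : Ind a b) (hδ : 1 ≤ ‖δ‖) {d N : ℕ} (hdK : Module.finrank ℚ K = d) (hd : 1 ≤ d)
    (hNd : N = 8 * d + 2) (hN : 0 < N) (z : Fin N → ℂ)
    (hz : Function.Injective z) (hoff : ∀ j, Off a b (z j)) (D : Fin N → Dat K)
    (hD : ∀ j, IsDat a b δ φ (D j) (z j)) : False := by
  have hδ0 : δ ≠ 0 := by
    intro h0
    rw [h0, norm_zero] at hδ
    linarith
  obtain ⟨C₁, hC₁, hS⟩ := siegel_c hN D
  obtain ⟨CU, hCU, s₀, hU⟩ := upper φ h hδ hN z hz hoff D hD hC₁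
  choose CLf hCLf hL using fun j => lower φ (D j) (2 * N) hC₁
  -- the common lower constant
  obtain ⟨CL, hCLj⟩ : ∃ CL : ℝ, ∀ j, CLf j ≤ CL := ⟨∑ j, CLf j, fun j =>
    Finset.single_le_sum (f := CLf) (fun i _ => by linarith [hCLf i]) (Finset.mem_univ j)⟩
  have hCL : 1 ≤ CL := (hCLf ⟨0, hN⟩).trans (hCLj ⟨0, hN⟩)
  -- the choice of `T`
  obtain ⟨T, hT1, hTs, hTT⟩ : ∃ T : ℕ, 1 ≤ T ∧ s₀ ≤ T ∧ (CU * CL) ^ 4 < (T : ℝ) := by
    obtain ⟨T₀, hT₀⟩ := exists_nat_gt ((CU * CL) ^ 4)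
    refine ⟨T₀ + s₀ + 1, by omega, by omega, hT₀.trans_le ?_⟩
    exact_mod_cast (by omega : T₀ ≤ T₀ + s₀ + 1)
  obtain ⟨c, hc, hc0, hcb⟩ := hS T hT1
  have hex : ∃ n, ∃ j, gam (D j) c n ≠ 0 := by
    obtain ⟨n, hn⟩ := exists_gam_ne_zero φ h hδ0 (hoff ⟨0, hN⟩) (hD ⟨0, hN⟩) c hc
    exact ⟨n, _, hn⟩
  obtain ⟨s, ⟨j, hj⟩, hmin⟩ : ∃ s, (∃ j, gam (D j) c s ≠ 0) ∧
      ∀ j, ∀ n < s, gam (D j) c n = 0 := by
    classical
    refine ⟨Nat.find hex, Nat.find_spec hex, fun j n hn => ?_⟩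
    by_contra hne
    exact Nat.find_min hex hn ⟨j, hne⟩
  have hsT : T ≤ s := by
    by_contra hlt
    exact hj (hc0 j s (not_le.1 hlt))
  have hs1 : 1 ≤ s := hT1.trans hsT
  have hs1' : (1 : ℝ) ≤ s := by exact_mod_cast hs1
  -- the radius
  obtain ⟨R, hR1, hR4⟩ : ∃ R : ℝ, 1 ≤ R ∧ R ^ 4 = s := by
    refine ⟨Real.sqrt (Real.sqrt s), ?_, ?_⟩
    · rw [Real.one_le_sqrt, Real.one_le_sqrt]
      exact hs1'
    · have h1 : Real.sqrt (Real.sqrt s) ^ 2 = Real.sqrt s := Real.sq_sqrt (Real.sqrt_nonneg _)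
      have h2 : Real.sqrt s ^ 2 = (s : ℝ) := Real.sq_sqrt (by linarith)
      calc Real.sqrt (Real.sqrt s) ^ 4 = (Real.sqrt (Real.sqrt s) ^ 2) ^ 2 := by ring
        _ = (s : ℝ) := by rw [h1, h2]
  have hup := hU T hT1 c hcb s hsT (hTs.trans hsT) hmin R (by linarith) hR4 j
  have hlo := hL j T hT1 c hcb s hsT hj
  rw [hdK] at hlo
  have hlo' : 1 ≤ ‖φ (gam (D j) c s)‖ * (CL * (s : ℝ) ^ (2 * d - 1)) ^ s := by
    refine hlo.trans ?_
    refine mul_le_mul_of_nonneg_left ?_ (norm_nonneg _)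
    refine pow_le_pow_left₀ ?_ ?_ s
    · have := hCLf j
      positivity
    · exact mul_le_mul_of_nonneg_right (hCLj j) (by positivity)
  have hNs : N * s = (8 * d + 2) * s := by rw [hNd]
  rw [hNs] at hup
  have hfin := core_num hs1 hd hR1 hR4 hCU hCL hup hlo'
  have hTs' : (T : ℝ) ≤ s := by exact_mod_cast hsT
  linarith

theorem core {K : Type*} [Field K] [NumberField K] (φ : K →+* ℂ) {a b δ : ℂ} (h : Ind a b)
    (hδ : 1 ≤ ‖δ‖) (z : Fin (8 * Module.finrank ℚ K + 2) → ℂ) (hz : Function.Injective z)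
    (hoff : ∀ j, Off a b (z j)) (D : Fin (8 * Module.finrank ℚ K + 2) → Dat K)
    (hD : ∀ j, IsDat a b δ φ (D j) (z j)) : False :=
  core_aux φ h hδ rfl Module.finrank_pos rfl (by omega) z hz hoff D hD

end Pool.Agent.Schn
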