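import Pool.Agent.EllSch.Add
import Pool.Agent.EllSch.Basic

/-!
# Schneider's theorem on elliptic functions: definitions

Goal of the folder `Pool/Agent/Schn` (used for MP_2ad15a_nt): if the invariants `g₂, g₃` of a
lattice are algebraic and `p` is off the lattice, then `p` and `℘ (p)` are not both algebraic.

Everything is expressed through Taylor coefficients at the points `z` of a finite set, in the
local parameter `t = (w - z) / δ`, where `δ` is a positive integer which clears denominators: the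
function `δ² ℘ (z + δ t)` of `t` satisfies `X'' = 6 X² - δ⁴ g₂ / 2`, so its derivatives at `t = 0`
are algebraic integers as soon as `δ² ℘ (z)`, `δ³ ℘' (z)`, `δ⁴ g₂ / 2` are; and
`δ (z + δ t) = δ z + δ² t`.
-/

namespace Pool.Agent.Schn

open NumberField Pool.Agent.EllSch

noncomputable section

/-- The integral data at a point `z`: `X0 = δ² ℘ (z)`, `X1 = δ³ ℘' (z)`, `U0 = δ z`, `V = δ²`,
`G = δ⁴ g₂ / 2`. -/
structure Dat (K : Type*) [Field K] where
  X0 : 𝓞 K
  X1 : 𝓞 K
  U0 : 𝓞 K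
  V : 𝓞 K
  G : 𝓞 K

variable {K : Type*} [Field K]

/-- the derivatives at `t = 0` of the solution of `X'' = 6 X² - G`, `X (0) = X0`, `X' (0) = X1`,
computed by recursion -/
def seq (D : Dat K) : ℕ → 𝓞 K
  | 0 => D.X0
  | 1 => D.X1
  | (m + 2) => 6 * ∑ i : Fin (m + 1), (m.choose i : 𝓞 K) * seq D i * seq D (m - i)
      - if m = 0 then D.G else 0
termination_by m => m
decreasing_by all_goals omega

theorem seq_zero (D : Dat K) : seq D 0 = D.X0 := by rw [seq]

theorem seq_one (D : Dat K) : seq D 1 = D.X1 := by rw [seq]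

theorem seq_add_two (D : Dat K) (m : ℕ) : seq D (m + 2) =
    6 * ∑ i ∈ Finset.range (m + 1), (m.choose i : 𝓞 K) * seq D i * seq D (m - i)
      - if m = 0 then D.G else 0 := by
  rw [seq, Finset.sum_range]

/-- the Taylor series of `δ² ℘ (z + δ t)` -/
def xs (D : Dat K) : PowerSeries K :=
  PowerSeries.mk fun m => (seq D m : K) / (m.factorial : K)

/-- the Taylor series of `δ (z + δ t)` -/
def us (D : Dat K) : PowerSeries K :=
  PowerSeries.C (D.U0 : K) + PowerSeries.C (D.V : K) * PowerSeries.X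

/-- the Taylor series of `(δ w) ^ a * (δ² ℘ (w)) ^ b`, `w = z + δ t` -/
def mono (D : Dat K) (a b : ℕ) : PowerSeries K := us D ^ a * xs D ^ b

/-- the `n`-th Taylor coefficient of the auxiliary function with coefficients `c` -/
def gam (D : Dat K) {T L : ℕ} (c : Fin T → Fin L → 𝓞 K) (n : ℕ) : K :=
  ∑ i, ∑ j, (c i j : K) * PowerSeries.coeff n (mono D i j)

/-- the auxiliary function `∑ c_{i j} (δ w) ^ i (δ² ℘ (w)) ^ j` -/
def Fn (a b δ : ℂ) {T L : ℕ} (c : Fin T → Fin L → ℂ) (w : ℂ) : ℂ :=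
  ∑ i, ∑ j, c i j * (δ * w) ^ (i : ℕ) * (δ ^ 2 * wp a b w) ^ (j : ℕ)

/-- the Taylor series at `0` of a function -/
def tay (f : ℂ → ℂ) : PowerSeries ℂ :=
  PowerSeries.mk fun n => iteratedDeriv n f 0 / (n.factorial : ℂ)

/-- `D` is the data of the point `z` of `ℂ` for the lattice `ℤ a + ℤ b` and the scaling `δ` -/
structure IsDat (a b δ : ℂ) (φ : K →+* ℂ) (D : Dat K) (z : ℂ) : Prop where
  X0 : φ D.X0 = δ ^ 2 * wp a b z
  X1 : φ D.X1 = δ ^ 3 * wq a b z
  U0 : φ D.U0 = δ * z
  V : φ D.V = δ ^ 2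
  G : φ D.G = δ ^ 4 * G2 a b / 2

end

end Pool.Agent.Schn
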