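import Pool.Agent.Schn.Tail

/-!
# Schneider's theorem, module Den: a denominator of `℘` in a disc

There is `C ≥ 1` such that for every `R ≥ 1` there are an entire function `E` and a function `Q`
holomorphic on the ball of radius `2 R` with `Q = E² ℘` there off the lattice, `‖E‖, ‖Q‖ ≤ exp (C R³)`
for `‖w‖ ≤ R`, and `‖E (z_j)‖ ≥ exp (- C R³)` at the given finitely many points `z_j` off the
lattice.

Proof. Let `S` be the set of the `x` with `‖lat x‖ ≤ 2 R`, `card S ≤ C' R²` (`lat_count`), `g` from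
`tail`. `E (w) = ∏_{x ∈ S} (w - lat x)`,
`Q (w) = E (w)² g (w) + ∑_{x ∈ S} ∏_{y ∈ S \ {x}} (w - lat y)²`.
For `w` off the lattice `E (w)² / (w - lat x)² = ∏_{y ≠ x} (w - lat y)²`, so `Q = E² ℘`.
For `‖w‖ ≤ R`: `‖w - lat x‖ ≤ 3 R`, `3 R ≥ 1`, so `‖E (w)‖ ≤ (3 R)^(card S) ≤ exp (3 R C' R²)`
(`3 R ≤ exp (3 R)`), and `‖Q (w)‖ ≤ (3 R)^(2 card S) (C'' R² + card S) ≤ exp (C''' R³)`
(use `x ≤ exp x`, `R² ≤ R³`, and `exp` of sums).
Lower bound: let `0 < κ ≤ 1` be a lower bound of all `‖z_j - lat x‖`, `j`, `x` arbitrary: the lattice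
is closed (`isOpen_off`: a ball around `z_j` is off the lattice), there are finitely many `j`.
Then `‖E (z_j)‖ ≥ κ^(card S) ≥ κ^(C' R²) = exp (- C' R² log (1 / κ)) ≥ exp (- C R³)`
if `C ≥ C' log (1 / κ)`.
Take for `C` the maximum (or the sum plus one) of all the constants needed.
-/

namespace Pool.Agent.Schn

open Pool.Agent.EllSch

namespace Den

theorem exists_kappa {a b : ℂ} (h : Ind a b) {N : ℕ} (z : Fin N → ℂ) (hz : ∀ j, Off a b (z j)) :
    ∃ l : ℝ, 0 ≤ l ∧ ∀ j x, Real.exp (-l) ≤ ‖z j - lat a b x‖ := by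
  have h1 : ∀ j, ∃ e : ℝ, 0 < e ∧ ∀ x, e ≤ ‖z j - lat a b x‖ := by
    intro j
    have ho : IsOpen {u : ℂ | Off a b u} := isOpen_off h
    obtain ⟨e, he, hb⟩ := Metric.isOpen_iff.1 ho (z j) (hz j)
    refine ⟨e, he, fun x => ?_⟩
    by_contra hlt
    push Not at hlt
    have hm : lat a b x ∈ Metric.ball (z j) e := by
      rw [Metric.mem_ball, dist_comm, dist_eq_norm]
      exact hlt
    exact (hb hm) x rfl
  choose e he hb using h1
  refine ⟨∑ j, |Real.log (e j)|, Finset.sum_nonneg fun j _ => abs_nonneg _, fun j x => ?_⟩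
  refine le_trans ?_ (hb j x)
  rw [← Real.exp_log (he j)]
  apply Real.exp_le_exp.2
  have h2 : |Real.log (e j)| ≤ ∑ j, |Real.log (e j)| :=
    Finset.single_le_sum (f := fun j => |Real.log (e j)|) (fun j _ => abs_nonneg _)
      (Finset.mem_univ j)
  have h3 := neg_abs_le (Real.log (e j))
  linarith

end Den

open Den

theorem den {a b : ℂ} (h : Ind a b) {N : ℕ} (z : Fin N → ℂ) (hz : ∀ j, Off a b (z j)) :
    ∃ C : ℝ, 1 ≤ C ∧ ∀ R : ℝ, 1 ≤ R → ∃ E Q : ℂ → ℂ,
      Differentiable ℂ E ∧ DifferentiableOn ℂ Q (Metric.ball 0 (2 * R)) ∧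
      (∀ w ∈ Metric.ball (0 : ℂ) (2 * R), Off a b w → Q w = E w ^ 2 * wp a b w) ∧
      (∀ w ∈ Metric.closedBall (0 : ℂ) R,
        ‖E w‖ ≤ Real.exp (C * R ^ 3) ∧ ‖Q w‖ ≤ Real.exp (C * R ^ 3)) ∧
      ∀ j, Real.exp (-(C * R ^ 3)) ≤ ‖E (z j)‖ := by
  obtain ⟨C1, hC1, hS⟩ := lat_count h
  obtain ⟨C2, hC2, hT⟩ := tail h
  obtain ⟨l, hl, hlb⟩ := exists_kappa h z hz
  refine ⟨7 * C1 + C2 + l * C1, by nlinarith [mul_nonneg hl (by linarith : (0 : ℝ) ≤ C1)],
    fun R hR => ?_⟩
  obtain ⟨S, hSm, hSc⟩ := hS R hR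
  obtain ⟨g, hg, hgw, hgb⟩ := hT R hR S hSm
  have hR0 : 0 ≤ R := by linarith
  have hR23 : R ^ 2 ≤ R ^ 3 := pow_le_pow_right₀ hR (by norm_num)
  have hR3 : 0 ≤ R ^ 3 := by positivity
  have hlC : 0 ≤ l * C1 := mul_nonneg hl (by linarith)
  set E : ℂ → ℂ := fun w => ∏ x ∈ S, (w - lat a b x) with hE
  set Q : ℂ → ℂ := fun w => E w ^ 2 * g w + ∑ x ∈ S, ∏ y ∈ S.erase x, (w - lat a b y) ^ 2 with hQ
  have hcard : (S.card : ℝ) ≤ C1 * R ^ 3 :=
    hSc.trans (mul_le_mul_of_nonneg_left hR23 (by linarith))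
  have hEd : Differentiable ℂ E := by
    intro w
    rw [hE]
    fun_prop
  have h3R : 1 ≤ 3 * R := by linarith
  have hexp3 : 3 * R ≤ Real.exp (3 * R) := by
    have := Real.add_one_le_exp (3 * R)
    linarith
  have hpow : ∀ k : ℕ, (3 * R) ^ (k * S.card) ≤ Real.exp ((3 * k * C1) * R ^ 3) := by
    intro k
    calc (3 * R) ^ (k * S.card) ≤ (Real.exp (3 * R)) ^ (k * S.card) :=
          pow_le_pow_left₀ (by positivity) hexp3 _
      _ = Real.exp ((k * S.card : ℕ) * (3 * R)) := by rw [← Real.exp_nat_mul]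
      _ ≤ Real.exp ((3 * k * C1) * R ^ 3) := by
          apply Real.exp_le_exp.2
          push_cast
          have h1 : (k : ℝ) * S.card * (3 * R) = 3 * k * (S.card * R) := by ring
          have h2 : (3 * k * C1) * R ^ 3 = 3 * k * (C1 * R ^ 2 * R) := by ring
          rw [h1, h2]
          exact mul_le_mul_of_nonneg_left (mul_le_mul_of_nonneg_right hSc hR0) (by positivity)
  have hfac : ∀ w ∈ Metric.closedBall (0 : ℂ) R, ∀ x ∈ S, ‖w - lat a b x‖ ≤ 3 * R := by
    intro w hw x hx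
    rw [mem_closedBall_zero_iff] at hw
    have h1 := (hSm x).1 hx
    calc ‖w - lat a b x‖ ≤ ‖w‖ + ‖lat a b x‖ := norm_sub_le _ _
      _ ≤ 3 * R := by linarith
  have hEb : ∀ w ∈ Metric.closedBall (0 : ℂ) R, ‖E w‖ ≤ (3 * R) ^ S.card := by
    intro w hw
    simp only [hE]
    rw [norm_prod]
    rw [← Finset.prod_const]
    exact Finset.prod_le_prod (fun _ _ => norm_nonneg _) (fun x hx => hfac w hw x hx)
  refine ⟨E, Q, hEd, ?_, ?_, ?_, ?_⟩
  · intro w hw
    have h1 : DifferentiableWithinAt ℂ (fun w => E w ^ 2 * g w) (Metric.ball 0 (2 * R)) w :=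
      ((hEd w).differentiableWithinAt.pow 2).mul (hg w hw)
    have h2 : DifferentiableAt ℂ
        (fun w => ∑ x ∈ S, ∏ y ∈ S.erase x, (w - lat a b y) ^ 2) w := by
      fun_prop
    exact h1.add h2.differentiableWithinAt
  · intro w hw ho
    have h1 := hgw w hw ho
    simp only [hQ]
    rw [h1, mul_add, Finset.mul_sum]
    congr 1
    refine Finset.sum_congr rfl fun x hx => ?_
    have hne : w - lat a b x ≠ 0 := sub_ne_zero.2 (ho x)
    have h2 : E w = (w - lat a b x) * ∏ y ∈ S.erase x, (w - lat a b y) := by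
      simp only [hE]
      exact (Finset.mul_prod_erase S (fun y => w - lat a b y) hx).symm
    rw [h2, Finset.prod_pow]
    field_simp
  · intro w hw
    constructor
    · refine (hEb w hw).trans ?_
      have h1 := hpow 1
      rw [one_mul] at h1
      refine h1.trans (Real.exp_le_exp.2 ?_)
      apply mul_le_mul_of_nonneg_right _ hR3
      push_cast
      nlinarith
    · have h1 : ‖E w ^ 2 * g w‖ ≤ (3 * R) ^ (2 * S.card) * (C2 * R ^ 2) := by
        rw [norm_mul, norm_pow, mul_comm 2 S.card, pow_mul]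
        exact mul_le_mul (pow_le_pow_left₀ (norm_nonneg _) (hEb w hw) 2) (hgb w hw)
          (norm_nonneg _) (by positivity)
      have h2 : ‖∑ x ∈ S, ∏ y ∈ S.erase x, (w - lat a b y) ^ 2‖ ≤
          (3 * R) ^ (2 * S.card) * S.card := by
        refine (norm_sum_le _ _).trans ?_
        have h3 : ∀ x ∈ S, ‖∏ y ∈ S.erase x, (w - lat a b y) ^ 2‖ ≤ (3 * R) ^ (2 * S.card) := by
          intro x hx
          rw [norm_prod]
          have h4 : ∏ y ∈ S.erase x, ‖(w - lat a b y) ^ 2‖ ≤ ((3 * R) ^ 2) ^ (S.erase x).card := by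
            rw [← Finset.prod_const]
            refine Finset.prod_le_prod (fun _ _ => norm_nonneg _) (fun y hy => ?_)
            rw [norm_pow]
            exact pow_le_pow_left₀ (norm_nonneg _) (hfac w hw y (Finset.mem_of_mem_erase hy)) 2
          refine h4.trans ?_
          rw [← pow_mul]
          apply pow_le_pow_right₀ h3R
          have := Finset.card_erase_le (s := S) (a := x)
          omega
        refine (Finset.sum_le_card_nsmul S _ _ h3).trans ?_
        rw [nsmul_eq_mul, mul_comm]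
      have h5 : ‖Q w‖ ≤ (3 * R) ^ (2 * S.card) * ((C1 + C2) * R ^ 3) := by
        simp only [hQ]
        refine (norm_add_le _ _).trans ((add_le_add h1 h2).trans ?_)
        rw [← mul_add]
        apply mul_le_mul_of_nonneg_left _ (by positivity)
        have h6 : C2 * R ^ 2 ≤ C2 * R ^ 3 := mul_le_mul_of_nonneg_left hR23 (by linarith)
        nlinarith
      have h7 : (C1 + C2) * R ^ 3 ≤ Real.exp ((C1 + C2) * R ^ 3) := by
        have := Real.add_one_le_exp ((C1 + C2) * R ^ 3)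
        linarith
      have h8 := hpow 2
      calc ‖Q w‖ ≤ (3 * R) ^ (2 * S.card) * ((C1 + C2) * R ^ 3) := h5
        _ ≤ Real.exp ((3 * (2 : ℕ) * C1) * R ^ 3) * Real.exp ((C1 + C2) * R ^ 3) :=
            mul_le_mul h8 h7 (by positivity) (Real.exp_nonneg _)
        _ = Real.exp ((7 * C1 + C2) * R ^ 3) := by
            rw [← Real.exp_add]
            congr 1
            push_cast
            ring
        _ ≤ Real.exp ((7 * C1 + C2 + l * C1) * R ^ 3) := by
            apply Real.exp_le_exp.2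
            apply mul_le_mul_of_nonneg_right _ hR3
            linarith
  · intro j
    have h1 : Real.exp (-l) ^ S.card ≤ ‖E (z j)‖ := by
      simp only [hE]
      rw [norm_prod, ← Finset.prod_const]
      exact Finset.prod_le_prod (fun _ _ => Real.exp_nonneg _) (fun x _ => hlb j x)
    refine le_trans ?_ h1
    rw [← Real.exp_nat_mul]
    apply Real.exp_le_exp.2
    have h2 : l * S.card ≤ l * (C1 * R ^ 3) := mul_le_mul_of_nonneg_left hcard hl
    nlinarith [mul_nonneg (by linarith : (0 : ℝ) ≤ 7 * C1 + C2) hR3]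

end Pool.Agent.Schn
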