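import Mathlib

/-!
# Dimension count: points with many relations modulo a field

`R ⊆ E ⊆ ℂ`, `R` a subring, `E` a subfield. If `q₁, …, qₘ ∈ E` are linearly independent over `R` and
rational combinations of `P₁, …, Pₙ` with coefficients in `R`, then `1, P₁, …, Pₙ` span over `E` a
space of dimension at most `n - m + 1`.
-/

namespace Pool.Agent.Schn

open Module

theorem dim_le {E : Subfield ℂ} (R : Subring ℂ) (hRE : ∀ x ∈ R, x ∈ E) {n m : ℕ}
    (P : Fin n → ℂ) (q : Fin m → ℂ) (hq : ∀ j, q j ∈ E)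
    (hqi : ∀ α : Fin m → ℂ, (∀ i, α i ∈ R) → ∑ i, α i * q i = 0 → ∀ i, α i = 0)
    (hrel : ∀ j, ∃ (l : ℕ) (α : Fin n → ℂ), 1 ≤ l ∧ (∀ i, α i ∈ R) ∧
      (l : ℂ) * q j = ∑ i, α i * P i) :
    finrank E (Submodule.span E (insert 1 (Set.range P))) + m ≤ n + 1 := by
  classical
  let k : Subfield ℂ := Subfield.closure (R : Set ℂ)
  have hkE : k ≤ E := Subfield.closure_le.2 fun x hx => hRE x hx
  have hRk : ∀ x ∈ R, x ∈ k := fun x hx => Subfield.subset_closure hx
  have hkfrac : ∀ x ∈ k, ∃ y ∈ R, ∃ z ∈ R, z ≠ 0 ∧ z * x = y := by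
    intro x hx
    rw [Subfield.mem_closure_iff, Subring.closure_eq] at hx
    obtain ⟨y, hy, z, hz, rfl⟩ := hx
    by_cases hz0 : z = 0
    · exact ⟨0, R.zero_mem, 1, R.one_mem, one_ne_zero, by simp [hz0]⟩
    · exact ⟨y, hy, z, hz, hz0, by field_simp⟩
  -- `q` is linearly independent over `k`
  have hqk : LinearIndependent k q := by
    rw [Fintype.linearIndependent_iff]
    intro g hg
    have h1 : ∀ i, ∃ y ∈ R, ∃ z ∈ R, z ≠ 0 ∧ z * (g i : ℂ) = y := fun i => hkfrac _ (g i).2
    choose y hy z hz hz0 hzy using h1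
    have h2 := hqi (fun i => (∏ j, z j) * (g i : ℂ)) (fun i => by
      rw [← Finset.mul_prod_erase _ _ (Finset.mem_univ i), mul_assoc, mul_comm _ (g i : ℂ),
        ← mul_assoc, hzy]
      exact R.mul_mem (hy i) (R.prod_mem fun j _ => hz j)) (by
      have h3 : ∑ i, (g i : ℂ) * q i = 0 := by
        simpa [Subfield.smul_def] using hg
      calc ∑ i, (∏ j, z j) * (g i : ℂ) * q i = (∏ j, z j) * ∑ i, (g i : ℂ) * q i := by
            rw [Finset.mul_sum]
            exact Finset.sum_congr rfl fun i _ => by ring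
        _ = 0 := by rw [h3, mul_zero])
    intro i
    have h4 := h2 i
    rcases mul_eq_zero.1 h4 with h5 | h5
    · exact absurd h5 (Finset.prod_ne_zero_iff.2 fun j _ => hz0 j)
    · exact Subtype.ext h5
  let X : Submodule k ℂ := Submodule.span k (Set.range P)
  have : FiniteDimensional k X := FiniteDimensional.span_of_finite k (Set.finite_range P)
  have hXn : finrank k X ≤ n := by
    have := finrank_range_le_card (R := k) P
    simpa [Set.finrank] using this
  let N : Submodule k ℂ :=
    { carrier := E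
      add_mem' := fun ha hb => E.add_mem ha hb
      zero_mem' := E.zero_mem
      smul_mem' := fun c x hx => by
        rw [Subfield.smul_def]
        exact E.mul_mem (hkE c.2) hx }
  let N' : Submodule k X := N.comap X.subtype
  have hqX : ∀ j, q j ∈ X := by
    intro j
    obtain ⟨l, α, hl, hα, h⟩ := hrel j
    have hl0 : (l : ℂ) ≠ 0 := by exact_mod_cast (by omega : l ≠ 0)
    have h1 : q j = ∑ i, ((⟨(l : ℂ), natCast_mem k l⟩ : k)⁻¹ * ⟨α i, hRk _ (hα i)⟩ : k) • P i := by
      simp only [Subfield.smul_def, Subfield.coe_mul, Subfield.coe_inv, smul_eq_mul, mul_assoc]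
      rw [← Finset.mul_sum, ← h]
      field_simp
    rw [h1]
    exact Submodule.sum_mem _ fun i _ => Submodule.smul_mem _ _
      (Submodule.subset_span ⟨i, rfl⟩)
  have hN' : m ≤ finrank k N' := by
    have h1 : LinearIndependent k (fun j => (⟨⟨q j, hqX j⟩, hq j⟩ : N')) := by
      refine LinearIndependent.of_comp (X.subtype ∘ₗ N'.subtype) ?_
      exact hqk
    simpa using h1.fintype_card_le_finrank
  obtain ⟨C, hC⟩ := Submodule.exists_isCompl N'
  have hCdim := Submodule.finrank_add_eq_of_isCompl hC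
  let d := finrank k C
  let bC : Basis (Fin d) k C := Module.finBasis k C
  let u : Fin d → ℂ := fun i => ((bC i : X) : ℂ)
  have hsub : ∀ x ∈ X, x ∈ Submodule.span E (Set.range (Fin.cons 1 u : Fin (d + 1) → ℂ)) := by
    intro x hx
    have h1 : (⟨x, hx⟩ : X) ∈ N' ⊔ C := by
      rw [hC.sup_eq_top]
      trivial
    obtain ⟨y, hy, z, hz, hyz⟩ := Submodule.mem_sup.1 h1
    have h2 : x = (y : ℂ) + (z : ℂ) := by
      have := congrArg (fun w : X => (w : ℂ)) hyz
      simpa using this.symm
    rw [h2]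
    refine Submodule.add_mem _ ?_ ?_
    · have hyE : (y : ℂ) ∈ E := hy
      have h3 : (y : ℂ) = (⟨(y : ℂ), hyE⟩ : E) • (1 : ℂ) := by
        rw [Subfield.smul_def]
        simp
      rw [h3]
      exact Submodule.smul_mem _ _ (Submodule.subset_span ⟨0, by simp⟩)
    · have h3 := bC.sum_repr ⟨z, hz⟩
      have h4 : (z : ℂ) = ∑ i, ((bC.repr ⟨z, hz⟩ i : k) : ℂ) * u i := by
        have := congrArg (fun w : C => ((w : X) : ℂ)) h3
        simp only [Submodule.coe_sum, Submodule.coe_smul, Subfield.smul_def, smul_eq_mul] at this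
        exact this.symm
      rw [h4]
      refine Submodule.sum_mem _ fun i _ => ?_
      have h5 : ((bC.repr ⟨z, hz⟩ i : k) : ℂ) * u i =
          (⟨_, hkE (bC.repr ⟨z, hz⟩ i).2⟩ : E) • u i := by
        rw [Subfield.smul_def]
        rfl
      rw [h5]
      exact Submodule.smul_mem _ _ (Submodule.subset_span ⟨i.succ, by simp⟩)
  have hle : Submodule.span E (insert 1 (Set.range P)) ≤
      Submodule.span E (Set.range (Fin.cons 1 u : Fin (d + 1) → ℂ)) := by
    rw [Submodule.span_le]
    rintro x (rfl | ⟨i, rfl⟩)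
    · exact Submodule.subset_span ⟨0, by simp⟩
    · exact hsub _ (Submodule.subset_span ⟨i, rfl⟩)
  have : FiniteDimensional E (Submodule.span E (Set.range (Fin.cons 1 u : Fin (d + 1) → ℂ))) :=
    FiniteDimensional.span_of_finite E (Set.finite_range _)
  have h6 := Submodule.finrank_mono hle
  have h7 : finrank E (Submodule.span E (Set.range (Fin.cons 1 u : Fin (d + 1) → ℂ))) ≤ d + 1 := by
    have := finrank_range_le_card (R := E) (Fin.cons 1 u : Fin (d + 1) → ℂ)
    simpa [Set.finrank] using this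
  change finrank k N' + d = finrank k X at hCdim
  omega

end Pool.Agent.Schn
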