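import Pool.Agent.Schn.Defs

/-!
# Schneider's theorem, module HFun: the auxiliary function without its poles

Let `E` be entire, `Q` holomorphic on the ball of radius `2 R`, `Q = E² ℘` there off the lattice.
Then `H (w) = ∑_{i<T, j<L} c_{ij} (δ w)^i (δ² Q (w))^j E (w)^(2 (L - j))` is holomorphic on the ball,
equals `E^(2 L) Fn` off the lattice, and if `‖c_{ij}‖ ≤ A`, `‖E‖, ‖Q‖ ≤ Y` on `‖w‖ ≤ R`, `Y ≥ 1`,
`‖δ‖ ≥ 1`, `R ≥ 1`, then on `‖w‖ = R`: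
`‖H (w)‖ ≤ T L A (‖δ‖ R)^T ‖δ‖^(2 L) Y^(2 L)`.

Proof. `(δ² Q)^j E^(2 (L - j)) = (δ² ℘)^j E^(2 j) E^(2 (L - j)) = E^(2 L) (δ² ℘)^j` (`j < L`). Bound:
`‖δ w‖^i ≤ (‖δ‖ R)^T` (as `‖δ‖ R ≥ 1`, `i ≤ T`), `‖δ² Q‖^j ≤ ‖δ‖^(2 L) Y^j`,
`‖E‖^(2 (L - j)) ≤ Y^(2 (L - j))` and `j + 2 (L - j) ≤ 2 L`; there are `T L` terms, and `A ≥ 0` if
there is at least one term (and otherwise both sides are `0`).
-/

namespace Pool.Agent.Schn

open Pool.Agent.EllSch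

theorem hfun {a b δ : ℂ} (hδ : 1 ≤ ‖δ‖) {T L : ℕ} (c : Fin T → Fin L → ℂ) {R Y A : ℝ}
    (hR : 1 ≤ R) (hY : 1 ≤ Y) (hc : ∀ i j, ‖c i j‖ ≤ A) (E Q : ℂ → ℂ)
    (hE : Differentiable ℂ E) (hQ : DifferentiableOn ℂ Q (Metric.ball 0 (2 * R)))
    (hEQ : ∀ w ∈ Metric.ball (0 : ℂ) (2 * R), Off a b w → Q w = E w ^ 2 * wp a b w)
    (hB : ∀ w ∈ Metric.closedBall (0 : ℂ) R, ‖E w‖ ≤ Y ∧ ‖Q w‖ ≤ Y) :
    ∃ H : ℂ → ℂ, DifferentiableOn ℂ H (Metric.ball 0 (2 * R)) ∧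
      (∀ w ∈ Metric.ball (0 : ℂ) (2 * R), Off a b w → H w = E w ^ (2 * L) * Fn a b δ c w) ∧
      ∀ w, ‖w‖ = R → ‖H w‖ ≤ T * L * A * (‖δ‖ * R) ^ T * ‖δ‖ ^ (2 * L) * Y ^ (2 * L) := by
  refine ⟨fun w => ∑ i, ∑ j, c i j * (δ * w) ^ (i : ℕ) * (δ ^ 2 * Q w) ^ (j : ℕ) *
    E w ^ (2 * (L - (j : ℕ))), ?_, ?_, ?_⟩
  · have hE' : DifferentiableOn ℂ E (Metric.ball 0 (2 * R)) := hE.differentiableOn
    refine DifferentiableOn.fun_sum fun i _ => DifferentiableOn.fun_sum fun j _ => ?_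
    exact (((differentiableOn_const _).mul ((differentiableOn_id.const_mul δ).pow _)).mul
      ((hQ.const_mul _).pow _)).mul (hE'.pow _)
  · intro w hw hoff
    rw [Fn, Finset.mul_sum]
    apply Finset.sum_congr rfl
    intro i _
    rw [Finset.mul_sum]
    apply Finset.sum_congr rfl
    intro j _
    have hj : 2 * L = 2 * (j : ℕ) + 2 * (L - (j : ℕ)) := by
      have := j.2
      omega
    rw [hEQ w hw hoff, hj, pow_add, pow_mul (E w) 2 (j : ℕ), mul_pow, mul_pow, mul_pow]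
    rw [mul_pow (δ ^ 2) (wp a b w)]
    ring
  · intro w hw
    have hwB : w ∈ Metric.closedBall (0 : ℂ) R := by
      rw [Metric.mem_closedBall, dist_zero_right, hw]
    obtain ⟨h1, h2⟩ := hB w hwB
    have hδ0 : (0 : ℝ) ≤ ‖δ‖ := norm_nonneg _
    have hδR : (1 : ℝ) ≤ ‖δ‖ * R := one_le_mul_of_one_le_of_one_le hδ hR
    have hY0 : (0 : ℝ) ≤ Y := by linarith
    have key : ∀ (i : Fin T) (j : Fin L), ‖c i j * (δ * w) ^ (i : ℕ) * (δ ^ 2 * Q w) ^ (j : ℕ) *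
        E w ^ (2 * (L - (j : ℕ)))‖ ≤ A * (‖δ‖ * R) ^ T * ‖δ‖ ^ (2 * L) * Y ^ (2 * L) := by
      intro i j
      have hA : 0 ≤ A := (norm_nonneg _).trans (hc i j)
      have a1 : ‖(δ * w) ^ (i : ℕ)‖ ≤ (‖δ‖ * R) ^ T := by
        rw [norm_pow, norm_mul, hw]
        exact pow_le_pow_right₀ hδR i.2.le
      have a2 : ‖(δ ^ 2 * Q w) ^ (j : ℕ)‖ ≤ ‖δ‖ ^ (2 * L) * Y ^ (j : ℕ) := by
        rw [norm_pow, norm_mul, norm_pow, mul_pow, ← pow_mul]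
        have hj : 2 * (j : ℕ) ≤ 2 * L := by
          have := j.2
          omega
        exact mul_le_mul (pow_le_pow_right₀ hδ hj) (pow_le_pow_left₀ (norm_nonneg _) h2 _)
          (pow_nonneg (norm_nonneg _) _) (pow_nonneg hδ0 _)
      have a3 : ‖E w ^ (2 * (L - (j : ℕ)))‖ ≤ Y ^ (2 * (L - (j : ℕ))) := by
        rw [norm_pow]
        exact pow_le_pow_left₀ (norm_nonneg _) h1 _
      rw [norm_mul, norm_mul, norm_mul]
      have b1 : ‖c i j‖ * ‖(δ * w) ^ (i : ℕ)‖ ≤ A * (‖δ‖ * R) ^ T :=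
        mul_le_mul (hc i j) a1 (norm_nonneg _) hA
      have b2 : ‖(δ ^ 2 * Q w) ^ (j : ℕ)‖ * ‖E w ^ (2 * (L - (j : ℕ)))‖ ≤
          ‖δ‖ ^ (2 * L) * Y ^ (2 * L) := by
        refine (mul_le_mul a2 a3 (norm_nonneg _)
          (mul_nonneg (pow_nonneg hδ0 _) (pow_nonneg hY0 _))).trans ?_
        rw [mul_assoc, ← pow_add]
        apply mul_le_mul_of_nonneg_left _ (pow_nonneg hδ0 _)
        apply pow_le_pow_right₀ hY
        have := j.2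
        omega
      rw [mul_assoc, mul_assoc (A * (‖δ‖ * R) ^ T)]
      exact mul_le_mul b1 b2 (mul_nonneg (norm_nonneg _) (norm_nonneg _))
        (mul_nonneg hA (pow_nonneg (by linarith) _))
    refine (norm_sum_le _ _).trans ?_
    refine (Finset.sum_le_sum (g := fun _ => (L : ℝ) *
      (A * (‖δ‖ * R) ^ T * ‖δ‖ ^ (2 * L) * Y ^ (2 * L))) fun i _ => ?_).trans ?_
    · refine (norm_sum_le _ _).trans ?_
      refine (Finset.sum_le_sum fun j _ => key i j).trans ?_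
      rw [Finset.sum_const, Finset.card_univ, Fintype.card_fin, nsmul_eq_mul]
    · rw [Finset.sum_const, Finset.card_univ, Fintype.card_fin, nsmul_eq_mul]
      apply le_of_eq
      ring

end Pool.Agent.Schn
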