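import Pool.Agent.Schn.Defs

/-!
# Schneider's theorem, module LatCount: the lattice points of a disc

There is `C ≥ 1` such that for every `R ≥ 1` the set of `x` with `‖lat a b x‖ ≤ 2 R` is finite with at
most `C R²` elements.

Proof. Let `Δ = a.re b.im - a.im b.re ≠ 0` (`Ind a b`). If `w = m a + n b` then
`m Δ = w.re b.im - w.im b.re`, `n Δ = a.re w.im - a.im w.re`, so
`|m|, |n| ≤ 2 ‖w‖ (‖a‖ + ‖b‖) / |Δ| ≤ c R` for `‖w‖ ≤ 2 R`, `c = 4 (‖a‖ + ‖b‖) / |Δ|`. With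
`M = ⌈c R⌉₊` (natural), the set is contained in `[-M, M] × [-M, M]`, which has
`(2 M + 1)² ≤ (2 c R + 3)² ≤ ((2 c + 3) R)²` elements. Take `C = (2 c + 3)²` and
`S = ((Finset.Icc (-M) M) ×ˢ (Finset.Icc (-M) M)).filter (‖lat a b ·‖ ≤ 2 R)`.
-/

namespace Pool.Agent.Schn

open Pool.Agent.EllSch

private theorem lc_bound {a b : ℂ} (h : Ind a b) {R : ℝ} (x : ℤ × ℤ)
    (hx : ‖lat a b x‖ ≤ 2 * R) :
    |(x.1 : ℝ)| ≤ 4 * (‖a‖ + ‖b‖) / |a.re * b.im - a.im * b.re| * R ∧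
      |(x.2 : ℝ)| ≤ 4 * (‖a‖ + ‖b‖) / |a.re * b.im - a.im * b.re| * R := by
  have hD : 0 < |a.re * b.im - a.im * b.re| := abs_pos.2 h
  have hre : (lat a b x).re = x.1 * a.re + x.2 * b.re := by simp [lat]
  have him : (lat a b x).im = x.1 * a.im + x.2 * b.im := by simp [lat]
  have hwr : |(lat a b x).re| ≤ 2 * R := (Complex.abs_re_le_norm _).trans hx
  have hwi : |(lat a b x).im| ≤ 2 * R := (Complex.abs_im_le_norm _).trans hx
  have har := Complex.abs_re_le_norm a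
  have hai := Complex.abs_im_le_norm a
  have hbr := Complex.abs_re_le_norm b
  have hbi := Complex.abs_im_le_norm b
  have hR : 0 ≤ 2 * R := (norm_nonneg _).trans hx
  have h1 : (x.1 : ℝ) * (a.re * b.im - a.im * b.re) =
      (lat a b x).re * b.im - (lat a b x).im * b.re := by
    rw [hre, him]; ring
  have h2 : (x.2 : ℝ) * (a.re * b.im - a.im * b.re) =
      a.re * (lat a b x).im - a.im * (lat a b x).re := by
    rw [hre, him]; ring
  have key : ∀ (m p q u v s : ℝ), m * (a.re * b.im - a.im * b.re) = p * u - q * v →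
      |p| ≤ 2 * R → |q| ≤ 2 * R → |u| ≤ s → |v| ≤ s → s ≤ ‖a‖ + ‖b‖ →
      |m| ≤ 4 * (‖a‖ + ‖b‖) / |a.re * b.im - a.im * b.re| * R := by
    intro m p q u v s e hp hq hu hv hs
    have hs0 : 0 ≤ s := (abs_nonneg _).trans hu
    have h3 : |m| * |a.re * b.im - a.im * b.re| ≤ 4 * (‖a‖ + ‖b‖) * R := by
      rw [← abs_mul, e]
      have h4 : |p * u| ≤ 2 * R * s := by
        rw [abs_mul]
        exact mul_le_mul hp hu (abs_nonneg _) hR
      have h5 : |q * v| ≤ 2 * R * s := by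
        rw [abs_mul]
        exact mul_le_mul hq hv (abs_nonneg _) hR
      have h6 : |p * u - q * v| ≤ |p * u| + |q * v| := abs_sub _ _
      have h7 : 2 * R * s ≤ 2 * R * (‖a‖ + ‖b‖) := mul_le_mul_of_nonneg_left hs hR
      linarith
    rw [div_mul_eq_mul_div, le_div_iff₀ hD]
    exact h3
  constructor
  · exact key _ _ _ _ _ ‖b‖ h1 hwr hwi hbi hbr (le_add_of_nonneg_left (norm_nonneg a))
  · refine key _ _ _ _ _ ‖a‖ ?_ hwi hwr har hai (le_add_of_nonneg_right (norm_nonneg b))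
    rw [h2]; ring

theorem lat_count {a b : ℂ} (h : Ind a b) :
    ∃ C : ℝ, 1 ≤ C ∧ ∀ R : ℝ, 1 ≤ R → ∃ S : Finset (ℤ × ℤ),
      (∀ x, x ∈ S ↔ ‖lat a b x‖ ≤ 2 * R) ∧ (S.card : ℝ) ≤ C * R ^ 2 := by
  classical
  set c : ℝ := 4 * (‖a‖ + ‖b‖) / |a.re * b.im - a.im * b.re| with hc
  have hc0 : 0 ≤ c := by positivity
  refine ⟨(2 * c + 3) ^ 2, by nlinarith, fun R hR => ?_⟩
  set M : ℕ := ⌈c * R⌉₊ with hM
  have hM1 : c * R ≤ M := Nat.le_ceil _
  have hM2 : (M : ℝ) < c * R + 1 := Nat.ceil_lt_add_one (by positivity)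
  refine ⟨((Finset.Icc (-(M : ℤ)) M) ×ˢ (Finset.Icc (-(M : ℤ)) M)).filter
    (fun x => ‖lat a b x‖ ≤ 2 * R), ?_, ?_⟩
  · intro x
    rw [Finset.mem_filter, Finset.mem_product, Finset.mem_Icc, Finset.mem_Icc]
    refine ⟨fun hx => hx.2, fun hx => ⟨?_, hx⟩⟩
    obtain ⟨h1, h2⟩ := lc_bound h x hx
    rw [← hc] at h1 h2
    have h3 : |(x.1 : ℝ)| ≤ M := h1.trans hM1
    have h4 : |(x.2 : ℝ)| ≤ M := h2.trans hM1
    have h3' : |x.1| ≤ (M : ℤ) := by exact_mod_cast h3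
    have h4' : |x.2| ≤ (M : ℤ) := by exact_mod_cast h4
    exact ⟨abs_le.1 h3', abs_le.1 h4'⟩
  · have h1 : (((Finset.Icc (-(M : ℤ)) M) ×ˢ (Finset.Icc (-(M : ℤ)) M)).filter
        (fun x => ‖lat a b x‖ ≤ 2 * R)).card ≤ (2 * M + 1) * (2 * M + 1) := by
      refine (Finset.card_filter_le _ _).trans ?_
      rw [Finset.card_product, Int.card_Icc]
      have h2 : ((M : ℤ) + 1 - -(M : ℤ)).toNat = 2 * M + 1 := by omega
      rw [h2]
    have h2 : ((((Finset.Icc (-(M : ℤ)) M) ×ˢ (Finset.Icc (-(M : ℤ)) M)).filter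
        (fun x => ‖lat a b x‖ ≤ 2 * R)).card : ℝ) ≤ (2 * M + 1) * (2 * M + 1) := by
      exact_mod_cast h1
    refine h2.trans ?_
    have h3 : (2 * (M : ℝ) + 1) ≤ (2 * c + 3) * R := by nlinarith
    have h4 : (0 : ℝ) ≤ 2 * (M : ℝ) + 1 := by positivity
    calc (2 * (M : ℝ) + 1) * (2 * M + 1) ≤ ((2 * c + 3) * R) * ((2 * c + 3) * R) :=
          mul_le_mul h3 h3 h4 (h4.trans h3)
      _ = (2 * c + 3) ^ 2 * R ^ 2 := by ring

end Pool.Agent.Schn
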