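import Pool.Agent.Schn.Defs

/-!
# Schneider's theorem, module NonVanish: `w` and `℘ (w)` are algebraically independent

If `c ≠ 0` and `δ ≠ 0` then `Fn a b δ c w = ∑ c_{ij} (δ w)^i (δ² ℘ (w))^j` does not vanish on a
neighbourhood of any point off the lattice.

Proof. Suppose it vanishes near `z`. `Fn a b δ c` is analytic on the open preconnected set of the
points off the lattice (`analyticOnNhd_wp`, `isPreconnected_off`), so it vanishes on this whole set
(`AnalyticOnNhd.eqOn_zero_of_preconnected_of_eventuallyEq_zero`). Fix `w` off the lattice and, for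
`i < T`, let `P_i (w) = ∑_j c_{ij} (δ² ℘ (w))^j`. For every natural `m`, `w + m a` is off the lattice
(`off_add_lat`, `lat a b (m, 0) = m a`) and `℘ (w + m a) = ℘ (w)` (`wp_add_lat`), so
`0 = ∑_i P_i (w) (δ (w + m a))^i`. The numbers `δ (w + m a)`, `m ∈ ℕ`, are pairwise distinct
(`a ≠ 0` since `Ind a b`, `δ ≠ 0`), so the polynomial `∑_i P_i (w) X^i` has infinitely many roots and
is `0` (`Polynomial.eq_zero_of_infinite_isRoot`), i.e. `P_i (w) = 0` for all `i`, for all `w` off
the lattice. Now `‖℘ (w)‖ → ∞` when `w → 0`, `w ≠ 0` (`tendsto_norm_wp`), and the points `w ≠ 0` near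
`0` are off the lattice (`eventually_off`), so `δ² ℘ (w)` takes infinitely many values `w` off the
lattice (a finite set is bounded), and the polynomials `∑_j c_{ij} X^j` are `0`: all `c_{ij} = 0`.
-/

namespace Pool.Agent.Schn

open Pool.Agent.EllSch Filter Topology

/-- `Fn` is analytic off the lattice. -/
theorem analyticOnNhd_Fn {a b δ : ℂ} (h : Ind a b) {T L : ℕ} (c : Fin T → Fin L → ℂ) :
    AnalyticOnNhd ℂ (Fn a b δ c) {w | Off a b w} := by
  intro w hw
  unfold Fn
  refine Finset.analyticAt_fun_sum _ fun i _ => Finset.analyticAt_fun_sum _ fun j _ => ?_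
  exact (analyticAt_const.mul ((analyticAt_const.mul analyticAt_id).pow _)).mul
    ((analyticAt_const.mul (analyticOnNhd_wp h w hw)).pow _)

theorem nonvanish {a b δ z : ℂ} (h : Ind a b) (hδ : δ ≠ 0) (hz : Off a b z) {T L : ℕ}
    (c : Fin T → Fin L → ℂ) (hc : c ≠ 0) : ¬ ∀ᶠ w in 𝓝 z, Fn a b δ c w = 0 := by
  intro hev
  apply hc
  have ha : a ≠ 0 := by
    rintro rfl
    exact h (by simp)
  -- `Fn` vanishes off the lattice
  have hF : ∀ w, Off a b w → Fn a b δ c w = 0 := by
    intro w hw
    exact (analyticOnNhd_Fn h c).eqOn_zero_of_preconnected_of_eventuallyEq_zero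
      (isPreconnected_off h) hz hev hw
  -- the coefficients `P_i (w)` vanish
  have hP : ∀ w, Off a b w → ∀ i : Fin T, ∑ j : Fin L, c i j * (δ ^ 2 * wp a b w) ^ (j : ℕ) = 0 := by
    intro w hw
    set P : Polynomial ℂ := ∑ i : Fin T,
      Polynomial.monomial (i : ℕ) (∑ j : Fin L, c i j * (δ ^ 2 * wp a b w) ^ (j : ℕ)) with hPdef
    have hroot : ∀ m : ℕ, P.IsRoot (δ * (w + m * a)) := by
      intro m
      have hlat : lat a b ((m : ℤ), 0) = m * a := by simp [lat]
      have h1 : Off a b (w + m * a) := by
        rw [← hlat]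
        exact (off_add_lat _).2 hw
      have h2 : wp a b (w + m * a) = wp a b w := by
        rw [← hlat]
        exact wp_add_lat h w _
      have h3 := hF _ h1
      unfold Fn at h3
      rw [h2] at h3
      rw [Polynomial.IsRoot, hPdef, Polynomial.eval_finsetSum]
      rw [← h3]
      refine Finset.sum_congr rfl fun i _ => ?_
      rw [Polynomial.eval_monomial, Finset.sum_mul]
      refine Finset.sum_congr rfl fun j _ => ?_
      ring
    have hP0 : P = 0 := by
      refine Polynomial.eq_zero_of_infinite_isRoot P ?_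
      refine Set.Infinite.mono (s := Set.range fun m : ℕ => δ * (w + m * a)) ?_ ?_
      · rintro _ ⟨m, rfl⟩
        exact hroot m
      · refine Set.infinite_range_of_injective ?_
        intro m n hmn
        have h4 : δ * (w + m * a) = δ * (w + n * a) := hmn
        have h5 := mul_left_cancel₀ hδ h4
        have h6 := add_left_cancel h5
        have h7 := mul_right_cancel₀ ha h6
        exact_mod_cast h7
    intro i
    have h8 : P.coeff i = 0 := by rw [hP0]; simp
    rw [hPdef, Polynomial.finsetSum_coeff] at h8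
    rw [Finset.sum_eq_single i] at h8
    · simpa [Polynomial.coeff_monomial] using h8
    · intro k _ hk
      rw [Polynomial.coeff_monomial, if_neg]
      exact fun hh => hk (Fin.ext hh)
    · intro hi
      exact absurd (Finset.mem_univ i) hi
  -- the polynomials `∑ c_ij X^j` vanish
  have hQ : ∀ i : Fin T, ∑ j : Fin L, Polynomial.monomial (j : ℕ) (c i j) = 0 := by
    intro i
    refine Polynomial.eq_zero_of_infinite_isRoot _ ?_
    intro hfin
    -- the image of `Off` is contained in the finite set of the roots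
    have hsub : ∀ w, Off a b w → (δ ^ 2 * wp a b w) ∈
        {x | (∑ j : Fin L, Polynomial.monomial (j : ℕ) (c i j)).IsRoot x} := by
      intro w hw
      rw [Set.mem_ofPred_eq, Polynomial.IsRoot, Polynomial.eval_finsetSum]
      rw [← hP w hw i]
      refine Finset.sum_congr rfl fun j _ => ?_
      rw [Polynomial.eval_monomial]
    obtain ⟨M, hM⟩ := hfin.isBounded.exists_norm_le
    have h9 : ∀ᶠ w in 𝓝[≠] (0 : ℂ), M < ‖δ ^ 2 * wp a b w‖ := by
      have h10 : Tendsto (fun w => ‖δ ^ 2 * wp a b w‖) (𝓝[≠] 0) atTop := by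
        have h11 := (Basic.tendsto_norm_wp h).const_mul_atTop (r := ‖δ ^ 2‖) (norm_pos_iff.2 (pow_ne_zero 2 hδ))
        refine h11.congr fun w => ?_
        rw [norm_mul]
      exact h10.eventually_gt_atTop M
    obtain ⟨w, hw1, hw2⟩ := (h9.and (Basic.eventually_off h 0)).exists
    exact absurd (hM _ (hsub w hw2)) (not_le.2 hw1)
  funext i j
  have h12 := congrArg (fun p : Polynomial ℂ => p.coeff (j : ℕ)) (hQ i)
  simp only [Polynomial.finsetSum_coeff, Polynomial.coeff_zero] at h12
  rw [Finset.sum_eq_single j] at h12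
  · simpa [Polynomial.coeff_monomial] using h12
  · intro k _ hk
    rw [Polynomial.coeff_monomial, if_neg]
    exact fun hh => hk (Fin.ext hh)
  · intro hj
    exact absurd (Finset.mem_univ j) hj

end Pool.Agent.Schn
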