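import Pool.Agent.Schn.TayFn
import Pool.Agent.Schn.TayFactor
import Pool.Agent.Schn.NonVanish

/-!
# Schneider's theorem, module LocalZero: the auxiliary function near a point

`z` off the lattice with data `D`, `δ ≠ 0`, `F = Fn a b δ (φ ∘ c)`.
(1) If `gam D c n = 0` for `n < s` then near `z`, `F (w) = (w - z)^s g (w)` with `g` continuous at `z`
and `g (z) δ^s = φ (gam D c s)`.
(2) If `c ≠ 0` then some `gam D c n` is nonzero.

Proof. (1) The function `f (t) = F (z + δ t)` is analytic at `0` (`analyticAt_Fn`) with the Taylor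
coefficients `φ (gam D c n)` (`tay_Fn`); `tay_factor` gives `f (t) = t^s g₀ (t)` near `0`,
`g₀ (0) = φ (gam D c s)`. With `t = (w - z) / δ`: `F (w) = ((w - z) / δ)^s g₀ ((w - z) / δ)`;
`g (w) = g₀ ((w - z) / δ) / δ^s`.
(2) Otherwise all Taylor coefficients of `f` vanish, `f = 0` near `0` (`tay_zero`), `F = 0` near `z`,
so by `nonvanish` all `φ (c i j) = 0`, so `c = 0` (`φ` and `𝓞 K → K` are injective).
-/

namespace Pool.Agent.Schn

open Pool.Agent.EllSch Filter Topology NumberField

theorem local_zero {K : Type*} [Field K] (φ : K →+* ℂ) {a b δ z : ℂ} (h : Ind a b)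
    (hδ : δ ≠ 0) (hz : Off a b z) {D : Dat K} (hD : IsDat a b δ φ D z) {T L : ℕ}
    (c : Fin T → Fin L → 𝓞 K) (s : ℕ) (h0 : ∀ n < s, gam D c n = 0) :
    ∃ g : ℂ → ℂ, ContinuousAt g z ∧ g z * δ ^ s = φ (gam D c s) ∧
      ∀ᶠ w in 𝓝 z, Fn a b δ (fun i j => φ (c i j)) w = (w - z) ^ s * g w := by
  obtain ⟨g, hg, hg0, hgf⟩ := tay_factor
    (analyticAt_Fn (δ := δ) h hz (fun i j => φ (c i j))) s (by
      intro n hn
      rw [tay_Fn φ h hz hD c n, h0 n hn, map_zero])
  rw [tay_Fn φ h hz hD c s] at hg0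
  have hcont : ContinuousAt (fun w => (w - z) / δ) z := by fun_prop
  have hz0 : (z - z) / δ = 0 := by simp
  refine ⟨fun w => g ((w - z) / δ) / δ ^ s, ?_, ?_, ?_⟩
  · refine ContinuousAt.div_const ?_ _
    refine ContinuousAt.comp (g := g) (f := fun w => (w - z) / δ) ?_ hcont
    rw [hz0]
    exact hg.continuousAt
  · show g ((z - z) / δ) / δ ^ s * δ ^ s = _
    rw [hz0, hg0, div_mul_cancel₀ _ (pow_ne_zero _ hδ)]
  · have htend : Tendsto (fun w => (w - z) / δ) (𝓝 z) (𝓝 0) := by
      have := hcont.tendsto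
      rwa [hz0] at this
    filter_upwards [htend.eventually hgf] with w hw
    have e : z + δ * ((w - z) / δ) = w := by
      field_simp
      ring
    rw [e] at hw
    rw [hw, div_pow]
    field_simp

theorem exists_gam_ne_zero {K : Type*} [Field K] (φ : K →+* ℂ) {a b δ z : ℂ} (h : Ind a b)
    (hδ : δ ≠ 0) (hz : Off a b z) {D : Dat K} (hD : IsDat a b δ φ D z) {T L : ℕ}
    (c : Fin T → Fin L → 𝓞 K) (hc : c ≠ 0) : ∃ n, gam D c n ≠ 0 := by
  by_contra hcon
  push Not at hcon
  have h1 := tay_zero (analyticAt_Fn (δ := δ) h hz (fun i j => φ (c i j))) (by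
    intro n
    rw [tay_Fn φ h hz hD c n, hcon n, map_zero])
  have hc' : (fun i j => φ (c i j)) ≠ (0 : Fin T → Fin L → ℂ) := by
    intro hh
    apply hc
    funext i j
    have h2 : φ (c i j) = 0 := congrFun (congrFun hh i) j
    have h3 : ((c i j : 𝓞 K) : K) = 0 := (map_eq_zero φ).1 h2
    exact_mod_cast h3
  refine nonvanish h hδ hz _ hc' ?_
  have hcont : ContinuousAt (fun w => (w - z) / δ) z := by fun_prop
  have htend : Tendsto (fun w => (w - z) / δ) (𝓝 z) (𝓝 0) := by
    have := hcont.tendsto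
    simpa using this
  filter_upwards [htend.eventually h1] with w hw
  have e : z + δ * ((w - z) / δ) = w := by
    field_simp
    ring
  rwa [e] at hw

end Pool.Agent.Schn
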