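import Pool.Agent.Schn.Defs

/-!
# Schneider's theorem, module MulPts: the values at the multiples of a point

Let `K` be a subfield of `ℂ` containing `g₂`, `℘ (p)`, `℘' (p)`, `p` off the lattice. Then for every
`m` with `m p` off the lattice, `℘ (m p)` and `℘' (m p)` lie in `K`.

Proof (induction on `m`). `m = 0`: `0 * p = 0 = lat a b 0` is not off the lattice
(`lat_zero`), nothing to prove. Step `m → m + 1`, `q := m p`, assume `q + p` is off the lattice.
* If `q` is not off the lattice then `q = lat a b x` for some `x` (`not_off_iff`), so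
  `q + p = p + lat a b x` and `wp_add_lat`, `wq_add_lat` give `℘ (q + p) = ℘ (p)`,
  `℘' (q + p) = ℘' (p)`.
* If `q` is off the lattice and `℘ (q) ≠ ℘ (p)`: the addition formulas `wp_add`, `wq_add`
  express `℘ (q + p)`, `℘' (q + p)` rationally in `℘ (q), ℘' (q), ℘ (p), ℘' (p)` which are in `K` by
  induction.
* If `q` is off the lattice and `℘ (q) = ℘ (p)`: by the equation (`ode`) `℘' (q)² = ℘' (p)²`, so
  `℘' (q) = ± ℘' (p)`. If `℘' (q) = ℘' (p)` then `q = p + lat a b x` (`exists_lat_of_eq`), hence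
  `q + p = 2 p + lat a b x`, `2 p` is off the lattice (`off_add_lat`), and
  `wp_two_mul`, `wq_two_mul`, `wp_add_lat`, `wq_add_lat` give the claim. If `℘' (q) = - ℘' (p)`, then
  `℘ (q) = ℘ (- p)`, `℘' (q) = ℘' (-p)` (`wp_neg`, `wq_neg`), `q = - p + lat a b x`
  (`exists_lat_of_eq`, `off_neg`), so `q + p = lat a b x` is not off the lattice: contradiction.
-/

namespace Pool.Agent.Schn

open Pool.Agent.EllSch

lemma mulPts_step {a b p q : ℂ} (h : Ind a b) (hp : Off a b p) (hq : Off a b q) (K : Subfield ℂ)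
    (hG : G2 a b ∈ K) (h1 : wp a b p ∈ K) (h2 : wq a b p ∈ K) (h3 : wp a b q ∈ K)
    (h4 : wq a b q ∈ K) (hm : Off a b (q + p)) : wp a b (q + p) ∈ K ∧ wq a b (q + p) ∈ K := by
  by_cases hne : wp a b q = wp a b p
  · have e1 := ode h hq
    have e2 := ode h hp
    rw [hne, ← e2, sq_eq_sq_iff_eq_or_eq_neg] at e1
    rcases e1 with e1 | e1
    · obtain ⟨x, hx⟩ := exists_lat_of_eq h hq hp hne e1
      have h5 : q + p = 2 * p + lat a b x := by
        rw [hx]
        ring
      have h2p : Off a b (2 * p) := by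
        rw [h5, off_add_lat] at hm
        exact hm
      have h6 : wp a b (2 * p) ∈ K := by
        rw [wp_two_mul h hp h2p]
        exact K.sub_mem (K.div_mem (K.pow_mem (K.div_mem (K.sub_mem (K.mul_mem (ofNat_mem K 6)
          (K.pow_mem h1 2)) (K.div_mem hG (ofNat_mem K 2))) h2) 2) (ofNat_mem K 4))
          (K.mul_mem (ofNat_mem K 2) h1)
      have h7 : wq a b (2 * p) ∈ K := by
        rw [wq_two_mul h hp h2p]
        exact K.neg_mem (K.add_mem h2 (K.mul_mem (K.div_mem (K.sub_mem (K.mul_mem (ofNat_mem K 6)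
          (K.pow_mem h1 2)) (K.div_mem hG (ofNat_mem K 2))) h2) (K.sub_mem h6 h1)))
      rw [h5, wp_add_lat h, wq_add_lat h]
      exact ⟨h6, h7⟩
    · obtain ⟨x, hx⟩ := exists_lat_of_eq h hq (off_neg.2 hp) (by rw [wp_neg h, hne])
        (by rw [wq_neg h, e1])
      have h5 : q + p = lat a b x := by
        rw [hx]
        ring
      exact absurd h5 (hm x)
  · have h6 : wp a b (q + p) ∈ K := by
      rw [wp_add h hq hp hm hne]
      exact K.sub_mem (K.sub_mem (K.div_mem (K.pow_mem (K.div_mem (K.sub_mem h4 h2)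
        (K.sub_mem h3 h1)) 2) (ofNat_mem K 4)) h3) h1
    refine ⟨h6, ?_⟩
    rw [wq_add h hq hp hm hne]
    exact K.neg_mem (K.add_mem h4 (K.mul_mem (K.div_mem (K.sub_mem h4 h2)
        (K.sub_mem h3 h1)) (K.sub_mem h6 h3)))

theorem mul_pts {a b p : ℂ} (h : Ind a b) (hp : Off a b p) (K : Subfield ℂ)
    (hG : G2 a b ∈ K) (h1 : wp a b p ∈ K) (h2 : wq a b p ∈ K) (m : ℕ)
    (hm : Off a b (m * p)) : wp a b (m * p) ∈ K ∧ wq a b (m * p) ∈ K := by
  induction m with
  | zero =>
    rw [Nat.cast_zero, zero_mul] at hm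
    exact absurd (lat_zero a b).symm (hm (0, 0))
  | succ m ih =>
    have e : ((m + 1 : ℕ) : ℂ) * p = m * p + p := by
      push_cast
      ring
    rw [e] at hm ⊢
    by_cases hq : Off a b (m * p)
    · exact mulPts_step h hp hq K hG h1 h2 (ih hq).1 (ih hq).2 hm
    · obtain ⟨x, hx⟩ := (Basic.not_off_iff a b _).1 hq
      rw [hx, add_comm, wp_add_lat h, wq_add_lat h]
      exact ⟨h1, h2⟩

end Pool.Agent.Schn
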