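import Pool.Agent.Schn.Defs

/-!
# Schneider's theorem, module SeqBound: growth of the derivatives

`e_m = seq D m`, `e_{m+2} = 6 ∑_{i ≤ m} C(m, i) e_i e_{m-i} - [m = 0] G`. For every embedding `σ` and
every `B ≥ 2` with `‖σ X0‖, ‖σ X1‖, ‖σ G‖ ≤ B`: `‖σ e_m‖ ≤ m! (m + 1) B ^ (m + 2)`.

Proof: strong induction. `m = 0`: `‖σ X0‖ ≤ B ≤ B²`. `m = 1`: `‖σ X1‖ ≤ B ≤ 2 B³`.
`m = 2`: `‖σ e_2‖ ≤ 6 B² + B ≤ 6.5 B² ≤ 6 B⁴` (here directly `‖σ e_0‖ ≤ B`), and `2! * 3 * B⁴ = 6 B⁴`
(as `B² ≥ 4`).
`m + 2` with `m ≥ 1`: `‖σ e_{m+2}‖ ≤ 6 ∑_{i ≤ m} C(m, i) i! (i + 1) B^{i+2} (m-i)! (m - i + 1) B^{m-i+2}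
= 6 m! B^{m+4} ∑_{i ≤ m} (i + 1) (m - i + 1)` (`C(m, i) i! (m - i)! = m!`:
`Nat.choose_mul_factorial_mul_factorial`) and
`∑_{i ≤ m} (i + 1) (m - i + 1) = (m + 1) (m + 2) (m + 3) / 6` (induction; e.g. prove
`6 * ∑ i ∈ range (m + 1), (i + 1) * (m - i + 1) = (m + 1) * (m + 2) * (m + 3)` in `ℝ` with
`(m : ℝ) - i`), so the bound is `m! (m + 1) (m + 2) (m + 3) B^{m+4} = (m + 2)! (m + 3) B^{m+4}`.
-/

namespace Pool.Agent.Schn

open NumberField

theorem six_sum_aux (M : ℝ) (n : ℕ) :
    6 * ∑ i ∈ Finset.range n, ((i : ℝ) + 1) * (M - i + 1) =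
      6 * n * (M + 1) + 3 * M * n * (n - 1) - n * (n - 1) * (2 * n - 1) := by
  induction n with
  | zero => simp
  | succ n ih =>
    rw [Finset.sum_range_succ, mul_add, ih]
    push_cast
    ring

theorem six_sum (m : ℕ) :
    6 * ∑ i ∈ Finset.range (m + 1), ((i : ℝ) + 1) * ((m : ℝ) - i + 1) =
      (m + 1) * (m + 2) * (m + 3) := by
  rw [six_sum_aux]
  push_cast
  ring

theorem seq_bound {K : Type*} [Field K] (D : Dat K) (σ : K →+* ℂ) {B : ℝ} (hB : 2 ≤ B)
    (h0 : ‖σ D.X0‖ ≤ B) (h1 : ‖σ D.X1‖ ≤ B) (hG : ‖σ D.G‖ ≤ B) (m : ℕ) :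
    ‖σ (seq D m)‖ ≤ m.factorial * (m + 1) * B ^ (m + 2) := by
  have hB0 : 0 < B := by linarith
  induction m using Nat.strong_induction_on with
  | _ m ih =>
    match m with
    | 0 =>
      rw [seq_zero]
      simp only [Nat.factorial_zero, Nat.cast_one, Nat.cast_zero, zero_add, mul_one, one_mul]
      nlinarith
    | 1 =>
      rw [seq_one]
      have : B ≤ B ^ 3 := le_self_pow₀ (by linarith) (by norm_num)
      simp only [Nat.factorial_one, Nat.cast_one]
      norm_num
      linarith
    | (k + 2) =>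
      rw [seq_add_two]
      rcases Nat.eq_zero_or_pos k with hk | hk
      · subst hk
        simp only [zero_add, Finset.range_one, Finset.sum_singleton, Nat.choose_self, Nat.cast_one,
          one_mul, Nat.sub_zero, if_true, seq_zero]
        have h6' : σ (algebraMap (𝓞 K) K 6) = 6 := by
          rw [map_ofNat, map_ofNat]
        have e : σ (((6 * (D.X0 * D.X0) - D.G : 𝓞 K)) : K) = 6 * (σ D.X0 * σ D.X0) - σ D.G := by
          simp [h6']
        rw [e]
        have b1 : ‖6 * (σ D.X0 * σ D.X0) - σ D.G‖ ≤ 6 * (B * B) + B := by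
          refine (norm_sub_le _ _).trans (add_le_add ?_ hG)
          rw [norm_mul, norm_mul]
          have : ‖(6 : ℂ)‖ = 6 := by norm_num
          rw [this]
          have := mul_le_mul h0 h0 (norm_nonneg _) hB0.le
          linarith
        refine b1.trans ?_
        have e2 : (((2 : ℕ).factorial : ℕ) : ℝ) * (((2 : ℕ) : ℝ) + 1) * B ^ (2 + 2) = 6 * (B ^ 2 * B ^ 2) := by
          norm_num [Nat.factorial]
          ring
        rw [e2]
        have : 4 ≤ B ^ 2 := by nlinarith
        nlinarith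
      · rw [if_neg (by omega), sub_zero]
        have h6' : σ (algebraMap (𝓞 K) K 6) = 6 := by
          rw [map_ofNat, map_ofNat]
        have e : σ (((6 * ∑ i ∈ Finset.range (k + 1), (k.choose i : 𝓞 K) * seq D i * seq D (k - i) :
            𝓞 K)) : K) =
            6 * ∑ i ∈ Finset.range (k + 1), (k.choose i : ℂ) * σ (seq D i) * σ (seq D (k - i)) := by
          simp [map_sum, h6']
        rw [e, norm_mul]
        have h6 : ‖(6 : ℂ)‖ = 6 := by norm_num
        rw [h6]
        have b : ‖∑ i ∈ Finset.range (k + 1), (k.choose i : ℂ) * σ (seq D i) * σ (seq D (k - i))‖ ≤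
            ∑ i ∈ Finset.range (k + 1),
              (k.factorial : ℝ) * B ^ (k + 4) * (((i : ℝ) + 1) * ((k : ℝ) - i + 1)) := by
          refine (norm_sum_le _ _).trans (Finset.sum_le_sum fun i hi => ?_)
          rw [Finset.mem_range] at hi
          have hi' : i ≤ k := by omega
          have i1 := ih i (by omega)
          have i2 := ih (k - i) (by omega)
          rw [norm_mul, norm_mul, Complex.norm_natCast]
          have hc : ((k.choose i : ℕ) : ℝ) * (i.factorial : ℝ) * ((k - i).factorial : ℝ) =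
              (k.factorial : ℝ) := by
            exact_mod_cast Nat.choose_mul_factorial_mul_factorial hi'
          have hs : (((k - i : ℕ) : ℝ)) = (k : ℝ) - i := by
            rw [Nat.cast_sub hi']
          calc (k.choose i : ℝ) * ‖σ (seq D i)‖ * ‖σ (seq D (k - i))‖
              ≤ (k.choose i : ℝ) * (i.factorial * (i + 1) * B ^ (i + 2)) *
                ((k - i).factorial * (((k - i : ℕ) : ℝ) + 1) * B ^ (k - i + 2)) := by
                gcongr
            _ = ((k.choose i : ℝ) * (i.factorial : ℝ) * ((k - i).factorial : ℝ)) *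
                (B ^ (i + 2) * B ^ (k - i + 2)) * (((i : ℝ) + 1) * ((k : ℝ) - i + 1)) := by
                rw [hs]; ring
            _ = _ := by
                rw [hc, ← pow_add]
                congr 3
                omega
        rw [← Finset.mul_sum] at b
        calc 6 * ‖∑ i ∈ Finset.range (k + 1),
              (k.choose i : ℂ) * σ (seq D i) * σ (seq D (k - i))‖
            ≤ 6 * ((k.factorial : ℝ) * B ^ (k + 4) *
              ∑ i ∈ Finset.range (k + 1), (((i : ℝ) + 1) * ((k : ℝ) - i + 1))) := by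
                gcongr
          _ = (k.factorial : ℝ) * B ^ (k + 4) *
              (6 * ∑ i ∈ Finset.range (k + 1), (((i : ℝ) + 1) * ((k : ℝ) - i + 1))) := by ring
          _ = (k.factorial : ℝ) * B ^ (k + 4) * ((k + 1) * (k + 2) * (k + 3)) := by
                rw [six_sum]
          _ = _ := by
                rw [Nat.factorial_succ, Nat.factorial_succ]
                push_cast
                ring

end Pool.Agent.Schn
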