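import Pool.Agent.Schn.LatCount
import Pool.Agent.EllSch.C1

/-!
# Schneider's theorem, module Tail: `℘` minus its principal parts in a disc

There is `C ≥ 1` such that for every `R ≥ 1` and the finite set `S` of the `x` with
`‖lat a b x‖ ≤ 2 R` there is `g` holomorphic on the ball of radius `2 R` with
`℘ (w) = g (w) + ∑_{x ∈ S} 1 / (w - lat x)²` for `w` in this ball off the lattice, and
`‖g (w)‖ ≤ C R²` for `‖w‖ ≤ R`.

Proof. `℘ (w) = ∑' x, (1 / (w - l)² - 1 / l²)`, `l = lat a b x` (for `x = 0`, `l = 0` and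
`1 / l² = 0` in Lean: the term is `1 / w²`). The series `∑_{x ≠ 0} 1 / ‖lat x‖³` converges (see
`Pool/Agent/EllSch` for the summability facts: search for Summable in `Pool/Agent/EllSch`, and
Mathlib's `PeriodPair` file; the terms of `℘` are summable for `w` off the lattice:
`(pp h).hasSumLocallyUniformly...`; see also `EllSch.Cusp.term_bound`).
For `‖w‖ < 2 R` and `x ∉ S` (so `‖l‖ > 2 R > ‖w‖`) the term
`t_x (w) = 1 / (w - l)² - 1 / l² = w (2 l - w) / (l² (w - l)²)` is holomorphic in the ball, and on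
every smaller ball `‖w‖ ≤ r < 2 R`: `‖w - l‖ ≥ ‖l‖ - r ≥ ‖l‖ (1 - r / (2 R))`, so
`‖t_x (w)‖ ≤ C_r / ‖l‖³`; hence `∑' x ∉ S, t_x (w)` converges locally uniformly on the ball
(`differentiableOn_tsum_of_summable_norm` on each smaller open ball `‖w‖ < r`, then
differentiability at every point of the ball) and
`g (w) := ∑' x, (if x ∈ S then 0 else t_x (w)) - ∑_{x ∈ S} 1 / l²` is holomorphic.
The identity: split the sum of `℘` over `S` and its complement (`Summable.sum_add_tsum_compl` or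
`tsum_eq_add...`).
Bound for `‖w‖ ≤ R`: `‖w - l‖ ≥ ‖l‖ / 2`, `‖2 l - w‖ ≤ 5/2 ‖l‖`, so
`‖t_x (w)‖ ≤ R * (5/2) ‖l‖ / (‖l‖² ‖l‖² / 4) = 10 R / ‖l‖³`, total at most
`10 R ∑_{x} 1 / ‖lat x‖³ ≤ C' R²`; and `∑_{x ∈ S, x ≠ 0} 1 / ‖l‖² ≤ card S / c₀²` where `c₀ > 0` is a
lower bound for the norms of the nonzero lattice vectors, and `card S ≤ C'' R²`
(`lat_count`, whose finset is the same as `S` by extensionality).
(The lower bound `c₀`: e.g. from summability of `1 / ‖lat x‖³` each term is at most the sum; or from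
the formula in `lat_count`: `1 ≤ |m| ≤ 2 ‖w‖ (‖a‖ + ‖b‖) / |Δ|` if `m ≠ 0`.)
-/

namespace Pool.Agent.Schn

open Pool.Agent.EllSch

/-- summability of the series of `℘` -/
theorem tail_summable_wp {a b : ℂ} (h : Ind a b) (z : ℂ) :
    Summable fun x : ℤ × ℤ => 1 / (z - lat a b x) ^ 2 - 1 / lat a b x ^ 2 := by
  have h1 := ((pp h).hasSum_weierstrassP z).summable
  rw [← (pp h).latticeEquivProd.symm.toEquiv.summable_iff] at h1
  refine h1.congr fun x => ?_
  change 1 / (z - (((pp h).latticeEquivProd.symm x : (pp h).lattice) : ℂ)) ^ 2 -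
    1 / (((pp h).latticeEquivProd.symm x : (pp h).lattice) : ℂ) ^ 2 = _
  rw [pp_symm_coe]

/-- the basic bound for the terms -/
theorem tail_term {w l : ℂ} {r κ : ℝ} (hw : ‖w‖ ≤ r) (hκ : 0 < κ)
    (h1 : κ * ‖l‖ ≤ ‖w - l‖) (hl : r ≤ ‖l‖) (hl0 : 0 < ‖l‖) :
    ‖1 / (w - l) ^ 2 - 1 / l ^ 2‖ ≤ 3 * r / κ ^ 2 * (1 / ‖l‖ ^ 3) := by
  have hr : 0 ≤ r := (norm_nonneg w).trans hw
  have hln : l ≠ 0 := norm_pos_iff.1 hl0
  have hwl0 : 0 < ‖w - l‖ := lt_of_lt_of_le (mul_pos hκ hl0) h1
  have hwl : w - l ≠ 0 := norm_pos_iff.1 hwl0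
  have h2 : 1 / (w - l) ^ 2 - 1 / l ^ 2 = w * (2 * l - w) / ((w - l) ^ 2 * l ^ 2) := by
    field_simp
    ring
  have h3 : ‖2 * l - w‖ ≤ 3 * ‖l‖ := by
    calc ‖2 * l - w‖ ≤ ‖2 * l‖ + ‖w‖ := norm_sub_le _ _
      _ = 2 * ‖l‖ + ‖w‖ := by rw [norm_mul]; norm_num
      _ ≤ _ := by linarith
  rw [h2, norm_div, norm_mul, norm_mul, norm_pow, norm_pow]
  have h4 : ‖w‖ * ‖2 * l - w‖ ≤ r * (3 * ‖l‖) := by gcongr
  have h5 : (κ * ‖l‖) ^ 2 * ‖l‖ ^ 2 ≤ ‖w - l‖ ^ 2 * ‖l‖ ^ 2 := by gcongr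
  calc ‖w‖ * ‖2 * l - w‖ / (‖w - l‖ ^ 2 * ‖l‖ ^ 2)
      ≤ r * (3 * ‖l‖) / ((κ * ‖l‖) ^ 2 * ‖l‖ ^ 2) := by
        apply div_le_div₀ (by positivity) h4 (by positivity) h5
    _ = 3 * r / κ ^ 2 * (1 / ‖l‖ ^ 3) := by
        field_simp

theorem tail_exists_lower {a b : ℂ} (h : Ind a b) :
    ∃ c > 0, ∀ x : ℤ × ℤ, c * C1.nx x ≤ ‖lat a b x‖ := by
  obtain ⟨c, hc, hl⟩ := lat_lower_bound h
  exact ⟨c, hc, fun x => hl.self_of_nhds x⟩

theorem tail {a b : ℂ} (h : Ind a b) :
    ∃ C : ℝ, 1 ≤ C ∧ ∀ R : ℝ, 1 ≤ R → ∀ S : Finset (ℤ × ℤ),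
      (∀ x, x ∈ S ↔ ‖lat a b x‖ ≤ 2 * R) → ∃ g : ℂ → ℂ,
        DifferentiableOn ℂ g (Metric.ball 0 (2 * R)) ∧
        (∀ w ∈ Metric.ball (0 : ℂ) (2 * R), Off a b w →
          wp a b w = g w + ∑ x ∈ S, 1 / (w - lat a b x) ^ 2) ∧
        ∀ w ∈ Metric.closedBall (0 : ℂ) R, ‖g w‖ ≤ C * R ^ 2 := by
  classical
  obtain ⟨c, hc, hcl⟩ := tail_exists_lower h
  obtain ⟨C2, hC2, hcount⟩ := lat_count h
  -- the majorant
  have hlat0 : lat a b 0 = 0 := by simp [lat]
  have hle : ∀ x : ℤ × ℤ, x ≠ 0 → c ≤ ‖lat a b x‖ := by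
    intro x hx
    calc c = c * 1 := (mul_one c).symm
      _ ≤ c * C1.nx x := by
          have := C1.one_le_nx hx
          gcongr
      _ ≤ _ := hcl x
  have hsum : Summable fun x : ℤ × ℤ => 1 / ‖lat a b x‖ ^ 3 := by
    refine Summable.of_nonneg_of_le (fun x => by positivity) (fun x => ?_)
      (C1.summable_u3.mul_left ((2 / c) ^ 3))
    by_cases hx : x = 0
    · rw [hx, hlat0, norm_zero]
      have := C1.u3_pos 0
      simp only [ne_eq, OfNat.ofNat_ne_zero, not_false_eq_true, zero_pow, div_zero]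
      positivity
    · have h1 := C1.one_le_nx hx
      have h2 : c / 2 * (1 + C1.nx x) ≤ ‖lat a b x‖ := by
        refine le_trans ?_ (hcl x)
        have h3 : c / 2 * (1 + C1.nx x) ≤ c / 2 * (C1.nx x + C1.nx x) := by gcongr
        linarith
      have h3 : 0 < c / 2 * (1 + C1.nx x) := by positivity
      calc 1 / ‖lat a b x‖ ^ 3 ≤ 1 / (c / 2 * (1 + C1.nx x)) ^ 3 := by gcongr
        _ = (2 / c) ^ 3 * C1.u3 x := by
            unfold C1.u3
            field_simp
  set Sg : ℝ := ∑' x : ℤ × ℤ, 1 / ‖lat a b x‖ ^ 3 with hSg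
  have hSg0 : 0 ≤ Sg := tsum_nonneg fun x => by positivity
  refine ⟨12 * Sg + C2 / c ^ 2 + 1, ?_, ?_⟩
  · have : 0 ≤ C2 / c ^ 2 := by positivity
    linarith
  intro R hR S hS
  have hR0 : 0 < R := by linarith
  have hout : ∀ x, x ∉ S → 2 * R < ‖lat a b x‖ := by
    intro x hx
    rw [hS, not_le] at hx
    exact hx
  set F : ℤ × ℤ → ℂ → ℂ := fun x w =>
    if x ∈ S then 0 else 1 / (w - lat a b x) ^ 2 - 1 / lat a b x ^ 2 with hF
  refine ⟨fun w => ∑' x, F x w - ∑ x ∈ S, 1 / lat a b x ^ 2, ?_, ?_, ?_⟩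
  · -- holomorphic
    intro w₀ hw₀
    rw [Metric.mem_ball, dist_zero_right] at hw₀
    set r : ℝ := (‖w₀‖ + 2 * R) / 2 with hr
    have hr0 : 0 < r := by have := norm_nonneg w₀; linarith
    have hr1 : ‖w₀‖ < r := by linarith
    have hr2 : r < 2 * R := by linarith
    set κ : ℝ := 1 - r / (2 * R) with hκ
    have hκ0 : 0 < κ := by
      have : r / (2 * R) < 1 := by rw [div_lt_one (by linarith)]; exact hr2
      linarith
    have hd : DifferentiableOn ℂ (fun w => ∑' x, F x w) (Metric.ball 0 r) := by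
      refine Complex.differentiableOn_tsum_of_summable_norm (u := fun x => 3 * r / κ ^ 2 *
        (1 / ‖lat a b x‖ ^ 3)) (hsum.mul_left _) ?_ Metric.isOpen_ball ?_
      · intro x
        by_cases hx : x ∈ S
        · simp only [hF, hx, if_true]
          exact differentiableOn_const _
        · simp only [hF, hx, if_false]
          intro w hw
          rw [Metric.mem_ball, dist_zero_right] at hw
          have h1 := hout x hx
          have h2 : w - lat a b x ≠ 0 := by
            intro h0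
            rw [sub_eq_zero.1 h0] at hw
            linarith
          apply DifferentiableAt.differentiableWithinAt
          have h3 : (w - lat a b x) ^ 2 ≠ 0 := pow_ne_zero 2 h2
          fun_prop (disch := assumption)
      · intro x w hw
        rw [Metric.mem_ball, dist_zero_right] at hw
        by_cases hx : x ∈ S
        · simp only [hF, hx, if_true, norm_zero]
          positivity
        · simp only [hF, hx, if_false]
          have h1 := hout x hx
          refine tail_term hw.le hκ0 ?_ (by linarith) (by linarith)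
          have h2 : ‖lat a b x‖ - ‖w‖ ≤ ‖w - lat a b x‖ := by
            rw [norm_sub_rev]
            exact norm_sub_norm_le _ _
          have h3 : κ * ‖lat a b x‖ = ‖lat a b x‖ - r * (‖lat a b x‖ / (2 * R)) := by
            rw [hκ]
            ring
          have h4 : 1 ≤ ‖lat a b x‖ / (2 * R) := by
            rw [one_le_div (by linarith)]
            exact h1.le
          have h5 : r * 1 ≤ r * (‖lat a b x‖ / (2 * R)) := by gcongr
          linarith
    have hd2 : DifferentiableAt ℂ (fun w => ∑' x, F x w) w₀ :=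
      hd.differentiableAt (Metric.isOpen_ball.mem_nhds (by
        rw [Metric.mem_ball, dist_zero_right]; exact hr1))
    exact (hd2.sub_const _).differentiableWithinAt
  · intro w _ _
    have hs := tail_summable_wp h w
    have h1 : Summable fun x : ℤ × ℤ =>
        if x ∈ S then 1 / (w - lat a b x) ^ 2 - 1 / lat a b x ^ 2 else 0 :=
      summable_of_ne_finset_zero (s := S) fun x hx => by rw [if_neg hx]
    have h2 : Summable fun x : ℤ × ℤ => F x w := by
      refine (hs.sub h1).congr fun x => ?_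
      by_cases hx : x ∈ S
      · simp [hF, hx]
      · simp [hF, hx]
    have h3 : wp a b w = ∑' x : ℤ × ℤ,
        ((if x ∈ S then 1 / (w - lat a b x) ^ 2 - 1 / lat a b x ^ 2 else 0) + F x w) := by
      unfold wp
      congr 1
      funext x
      by_cases hx : x ∈ S
      · simp [hF, hx]
      · simp [hF, hx]
    rw [h3, h1.tsum_add h2, tsum_eq_sum (s := S) (fun x hx => by rw [if_neg hx])]
    have h4 : ∑ x ∈ S, (if x ∈ S then 1 / (w - lat a b x) ^ 2 - 1 / lat a b x ^ 2 else 0) =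
        ∑ x ∈ S, 1 / (w - lat a b x) ^ 2 - ∑ x ∈ S, 1 / lat a b x ^ 2 := by
      rw [← Finset.sum_sub_distrib]
      exact Finset.sum_congr rfl fun x hx => by rw [if_pos hx]
    rw [h4]
    ring
  · intro w hw
    rw [Metric.mem_closedBall, dist_zero_right] at hw
    have h1 : ‖∑' x, F x w‖ ≤ 12 * R * Sg := by
      refine tsum_of_norm_bounded (hsum.hasSum.mul_left (12 * R)) fun x => ?_
      by_cases hx : x ∈ S
      · simp only [hF, hx, if_true, norm_zero]
        positivity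
      · simp only [hF, hx, if_false]
        have h1 := hout x hx
        have h2 : ‖lat a b x‖ - ‖w‖ ≤ ‖w - lat a b x‖ := by
          rw [norm_sub_rev]
          exact norm_sub_norm_le _ _
        have h3 := tail_term (w := w) (l := lat a b x) (r := R) (κ := 1 / 2) hw (by norm_num)
          (by linarith) (by linarith) (by linarith)
        refine h3.trans (le_of_eq ?_)
        ring
    have h2 : ‖∑ x ∈ S, 1 / lat a b x ^ 2‖ ≤ C2 / c ^ 2 * R ^ 2 := by
      obtain ⟨S', hS', hcard⟩ := hcount R hR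
      have hSS : S' = S := by
        ext x
        rw [hS', hS]
      rw [hSS] at hcard
      calc ‖∑ x ∈ S, 1 / lat a b x ^ 2‖ ≤ ∑ x ∈ S, (1 / c ^ 2 : ℝ) := by
            refine norm_sum_le_of_le _ fun x _ => ?_
            by_cases hx : x = 0
            · rw [hx, hlat0]
              simp only [ne_eq, OfNat.ofNat_ne_zero, not_false_eq_true, zero_pow, div_zero,
                norm_zero]
              positivity
            · rw [norm_div, norm_one, norm_pow]
              have := hle x hx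
              gcongr
        _ = (S.card : ℝ) * (1 / c ^ 2) := by rw [Finset.sum_const, nsmul_eq_mul]
        _ ≤ C2 * R ^ 2 * (1 / c ^ 2) := by gcongr
        _ = _ := by ring
    have h3 : R ≤ R ^ 2 := by nlinarith
    calc ‖∑' x, F x w - ∑ x ∈ S, 1 / lat a b x ^ 2‖
        ≤ ‖∑' x, F x w‖ + ‖∑ x ∈ S, 1 / lat a b x ^ 2‖ := norm_sub_le _ _
      _ ≤ 12 * R * Sg + C2 / c ^ 2 * R ^ 2 := add_le_add h1 h2
      _ ≤ 12 * R ^ 2 * Sg + C2 / c ^ 2 * R ^ 2 := by gcongr
      _ ≤ _ := by nlinarith [sq_nonneg R]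

end Pool.Agent.Schn
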