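import Pool.Agent.Schn.TayWp

/-!
# Schneider's theorem, module TayFn: the Taylor series of the auxiliary function

`Fn a b δ c w = ∑ c_{ij} (δ w)^i (δ² ℘ (w))^j`. At a point `z` off the lattice with data `D`, the
function `t ↦ Fn a b δ (φ ∘ c) (z + δ t)` is analytic at `t = 0` and its Taylor coefficients are
`φ (gam D c n)`.

Proof. `δ (z + δ t) = δ z + δ² t` has the Taylor series `φ U0 + φ V X = map φ (us D)` (`tay_lin`,
`IsDat.U0`, `IsDat.V`, `PowerSeries.map_C`, `PowerSeries.map_X`), `δ² ℘ (z + δ t)` has the Taylor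
series `map φ (xs D)` (`tay_wp`); so by `tay_mul`, `tay_pow`, `tay_const`, `tay_sum` the function
has the Taylor series `∑ C (φ c_{ij}) * map φ (mono D i j)`, and
`coeff n (C u * f) = u * coeff n f`, `coeff n (map φ f) = φ (coeff n f)`.
-/

namespace Pool.Agent.Schn

open Pool.Agent.EllSch Filter Topology NumberField

theorem analyticAt_Fn {a b δ z : ℂ} (h : Ind a b) (hz : Off a b z) {T L : ℕ}
    (c : Fin T → Fin L → ℂ) : AnalyticAt ℂ (fun t => Fn a b δ c (z + δ * t)) 0 := by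
  have h1 : AnalyticAt ℂ (fun t : ℂ => δ * (z + δ * t)) 0 := by fun_prop
  have h2 := analyticAt_wp_comp (δ := δ) h hz
  unfold Fn
  refine Finset.analyticAt_fun_sum _ fun i _ => Finset.analyticAt_fun_sum _ fun j _ => ?_
  exact (analyticAt_const.mul (h1.pow _)).mul (h2.pow _)

theorem tay_Fn {K : Type*} [Field K] (φ : K →+* ℂ) {a b δ z : ℂ} (h : Ind a b)
    (hz : Off a b z) {D : Dat K} (hD : IsDat a b δ φ D z) {T L : ℕ}
    (c : Fin T → Fin L → 𝓞 K) (n : ℕ) :
    PowerSeries.coeff n (tay (fun t => Fn a b δ (fun i j => φ (c i j)) (z + δ * t)))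
      = φ (gam D c n) := by
  have h1 : AnalyticAt ℂ (fun t : ℂ => δ * (z + δ * t)) 0 := by fun_prop
  have h2 := analyticAt_wp_comp (δ := δ) h hz
  have a1 : ∀ i : ℕ, AnalyticAt ℂ (fun t : ℂ => (δ * (z + δ * t)) ^ i) 0 := fun i => h1.pow i
  have a2 : ∀ j : ℕ, AnalyticAt ℂ (fun t : ℂ => (δ ^ 2 * wp a b (z + δ * t)) ^ j) 0 :=
    fun j => h2.pow j
  have a3 : ∀ (u : ℂ) (i : ℕ), AnalyticAt ℂ (fun t : ℂ => u * (δ * (z + δ * t)) ^ i) 0 :=
    fun u i => analyticAt_const.mul (a1 i)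
  have t1 : tay (fun t : ℂ => δ * (z + δ * t)) = PowerSeries.map φ (us D) := by
    have e : (fun t : ℂ => δ * (z + δ * t)) = fun t => δ * z + δ ^ 2 * t := by
      funext t
      ring
    rw [e, tay_lin, ← hD.U0, ← hD.V, us, map_add, map_mul, PowerSeries.map_C,
      PowerSeries.map_C, PowerSeries.map_X]
  have t2 := tay_wp φ h hz hD
  have t3 : ∀ (u : ℂ) (i j : ℕ), tay (fun t : ℂ => u * (δ * (z + δ * t)) ^ i *
      (δ ^ 2 * wp a b (z + δ * t)) ^ j) = PowerSeries.C u * PowerSeries.map φ (mono D i j) := by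
    intro u i j
    rw [tay_mul (a3 u i) (a2 j), tay_mul analyticAt_const (a1 i), tay_const, tay_pow h1,
      tay_pow h2, t1, t2, mono, map_mul, map_pow, map_pow, mul_assoc]
  have hmain : tay (fun t => Fn a b δ (fun i j => φ (c i j)) (z + δ * t)) =
      ∑ i, ∑ j, PowerSeries.C (φ (c i j)) * PowerSeries.map φ (mono D i j) := by
    unfold Fn
    rw [tay_sum]
    · refine Finset.sum_congr rfl fun i _ => ?_
      rw [tay_sum]
      · exact Finset.sum_congr rfl fun j _ => t3 _ _ _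
      · intro j _
        exact (a3 _ i).mul (a2 j)
    · intro i _
      exact Finset.analyticAt_fun_sum _ fun j _ => (a3 _ i).mul (a2 j)
  rw [hmain, gam, map_sum, map_sum]
  refine Finset.sum_congr rfl fun i _ => ?_
  rw [map_sum, map_sum]
  refine Finset.sum_congr rfl fun j _ => ?_
  rw [PowerSeries.coeff_C_mul, PowerSeries.coeff_map, map_mul]

end Pool.Agent.Schn
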