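import Pool.Agent.Schn.TayBasic

/-!
# Schneider's theorem, module TayWp: the Taylor series of `δ² ℘ (z + δ t)`

If `D` is the data of the point `z` (`IsDat`), `z` off the lattice, then the Taylor series at `t = 0`
of `X (t) = δ² ℘ (z + δ t)` is the image under `φ` of `xs D`.

Proof. The set of `t` with `z + δ t` off the lattice is open (`isOpen_off`) and contains `0`. On it
`X` is analytic (`analyticOnNhd_wp`), `X' (t) = δ³ ℘' (z + δ t)` (`hasDerivAt_wp` and the chain rule)
and `X'' (t) = δ⁴ (6 ℘ (z + δ t)² - g₂ / 2) = 6 X (t)² - δ⁴ g₂ / 2` (`hasDerivAt_wq`). We show by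
strong induction on `m`: `iteratedDeriv m X 0 = φ (seq D m)`.
`m = 0`: `X 0 = δ² ℘ (z) = φ X0`. `m = 1`: `deriv X 0 = δ³ ℘' (z) = φ X1`.
`m + 2`: `iteratedDeriv (m + 2) X 0 = iteratedDeriv m (deriv (deriv X)) 0` (`iteratedDeriv_succ'`)
`= iteratedDeriv m (fun t => 6 * X t ^ 2 - δ⁴ g₂ / 2) 0` (both functions agree near `0`:
`Filter.EventuallyEq.iteratedDeriv_eq`) `= 6 ∑_{i ≤ m} C(m, i) X^(i)(0) X^(m-i)(0) - [m = 0] δ⁴ g₂ / 2`
(Leibniz rule), which is `φ (seq D (m + 2))` by induction, `seq_add_two` and `IsDat.G`.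
Alternatively use `tay_mul`, `tay_const`, `tay_add` of `TayBasic` for the right side.
Finally `coeff m (map φ (xs D)) = φ (seq D m / m!) = φ (seq D m) / m!`.
-/

namespace Pool.Agent.Schn

open Pool.Agent.EllSch Filter Topology

theorem isOpen_offc {a b : ℂ} (h : Ind a b) (δ z : ℂ) :
    IsOpen {t : ℂ | Off a b (z + δ * t)} :=
  (isOpen_off h).preimage (by fun_prop : Continuous fun t : ℂ => z + δ * t)

theorem hasDerivAt_lin (δ z t : ℂ) : HasDerivAt (fun t : ℂ => z + δ * t) δ t := by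
  have h := ((hasDerivAt_id t).const_mul δ).const_add z
  simpa using h

theorem hasDerivAt_wpc {a b : ℂ} (h : Ind a b) {δ z t : ℂ} (ht : Off a b (z + δ * t)) :
    HasDerivAt (fun t => δ ^ 2 * wp a b (z + δ * t)) (δ ^ 3 * wq a b (z + δ * t)) t := by
  have h1 := ((hasDerivAt_wp h ht).comp t (hasDerivAt_lin δ z t)).const_mul (δ ^ 2)
  refine h1.congr_deriv ?_
  ring

theorem hasDerivAt_wqc {a b : ℂ} (h : Ind a b) {δ z t : ℂ} (ht : Off a b (z + δ * t)) :
    HasDerivAt (fun t => δ ^ 3 * wq a b (z + δ * t))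
      (6 * ((δ ^ 2 * wp a b (z + δ * t)) * (δ ^ 2 * wp a b (z + δ * t))) -
        δ ^ 4 * G2 a b / 2) t := by
  have h1 := ((hasDerivAt_wq h ht).comp t (hasDerivAt_lin δ z t)).const_mul (δ ^ 3)
  refine h1.congr_deriv ?_
  ring

theorem analyticAt_wp_comp {a b δ z : ℂ} (h : Ind a b) (hz : Off a b z) :
    AnalyticAt ℂ (fun t => δ ^ 2 * wp a b (z + δ * t)) 0 := by
  have h0 : {t : ℂ | Off a b (z + δ * t)} ∈ 𝓝 (0 : ℂ) :=
    (isOpen_offc h δ z).mem_nhds (by simpa using hz)
  refine DifferentiableOn.analyticAt (s := {t : ℂ | Off a b (z + δ * t)}) ?_ h0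
  intro t ht
  exact (hasDerivAt_wpc h ht).differentiableAt.differentiableWithinAt

theorem iteratedDeriv_wp {K : Type*} [Field K] (φ : K →+* ℂ) {a b δ z : ℂ} (h : Ind a b)
    (hz : Off a b z) {D : Dat K} (hD : IsDat a b δ φ D z) (m : ℕ) :
    iteratedDeriv m (fun t => δ ^ 2 * wp a b (z + δ * t)) 0 = φ (seq D m) := by
  have hO := isOpen_offc h δ z
  have h0 : (0 : ℂ) ∈ {t : ℂ | Off a b (z + δ * t)} := by
    show Off a b (z + δ * 0)
    simpa using hz
  have hd1 : ∀ t ∈ {t : ℂ | Off a b (z + δ * t)},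
      deriv (fun t => δ ^ 2 * wp a b (z + δ * t)) t = δ ^ 3 * wq a b (z + δ * t) :=
    fun t ht => (hasDerivAt_wpc h ht).deriv
  have hd2 : ∀ t ∈ {t : ℂ | Off a b (z + δ * t)},
      deriv (deriv (fun t => δ ^ 2 * wp a b (z + δ * t))) t =
        6 * ((δ ^ 2 * wp a b (z + δ * t)) * (δ ^ 2 * wp a b (z + δ * t))) -
        δ ^ 4 * G2 a b / 2 := by
    intro t ht
    have h1 : deriv (fun t => δ ^ 2 * wp a b (z + δ * t)) =ᶠ[𝓝 t]
        fun t => δ ^ 3 * wq a b (z + δ * t) := by
      filter_upwards [hO.mem_nhds ht] with u hu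
      exact hd1 u hu
    rw [h1.deriv_eq]
    exact (hasDerivAt_wqc h ht).deriv
  have han := analyticAt_wp_comp (δ := δ) h hz
  induction m using Nat.strong_induction_on with
  | _ m ih =>
    match m, ih with
    | 0, _ =>
      rw [iteratedDeriv_zero, seq_zero, hD.X0]
      simp
    | 1, _ =>
      rw [iteratedDeriv_one, seq_one, hD.X1, hd1 0 h0]
      simp
    | m + 2, ih =>
      have hcd : ∀ n : ℕ, ContDiffAt ℂ n (fun t => δ ^ 2 * wp a b (z + δ * t)) 0 :=
        fun n => han.contDiffAt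
      have hev : deriv (deriv (fun t => δ ^ 2 * wp a b (z + δ * t))) =ᶠ[𝓝 0]
          fun t => 6 * ((δ ^ 2 * wp a b (z + δ * t)) * (δ ^ 2 * wp a b (z + δ * t))) -
            δ ^ 4 * G2 a b / 2 := by
        filter_upwards [hO.mem_nhds h0] with t ht
        exact hd2 t ht
      rw [iteratedDeriv_succ', iteratedDeriv_succ', (hev.iteratedDeriv m).eq_of_nhds,
        iteratedDeriv_fun_sub (contDiffAt_const.mul ((hcd m).mul (hcd m))) contDiffAt_const,
        iteratedDeriv_const_mul_field,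
        iteratedDeriv_fun_mul (hcd m) (hcd m), iteratedDeriv_const, seq_add_two]
      have hs : ∀ i ∈ Finset.range (m + 1),
          (m.choose i : ℂ) * iteratedDeriv i (fun t => δ ^ 2 * wp a b (z + δ * t)) 0 *
            iteratedDeriv (m - i) (fun t => δ ^ 2 * wp a b (z + δ * t)) 0 =
          φ (((m.choose i : NumberField.RingOfIntegers K) * seq D i * seq D (m - i) :
            NumberField.RingOfIntegers K) : K) := by
        intro i hi
        have hi' : i < m + 1 := Finset.mem_range.1 hi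
        rw [ih i (by omega), ih (m - i) (by omega)]
        simp
      rw [Finset.sum_congr rfl hs]
      have h6 : φ ((algebraMap (NumberField.RingOfIntegers K) K) 6) = 6 := by
        rw [map_ofNat, map_ofNat]
      by_cases hm : m = 0
      · subst hm
        simp [hD.G, h6]
      · simp [hm, h6]

theorem tay_wp {K : Type*} [Field K] (φ : K →+* ℂ) {a b δ z : ℂ} (h : Ind a b)
    (hz : Off a b z) {D : Dat K} (hD : IsDat a b δ φ D z) :
    tay (fun t => δ ^ 2 * wp a b (z + δ * t)) = PowerSeries.map φ (xs D) := by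
  ext m
  rw [PowerSeries.coeff_map, tay, xs, PowerSeries.coeff_mk, PowerSeries.coeff_mk,
    iteratedDeriv_wp φ h hz hD m, map_div₀, map_natCast]

end Pool.Agent.Schn
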