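import Pool.Agent.Schn.Den
import Pool.Agent.Schn.HFun
import Pool.Agent.Schn.Schwarz
import Pool.Agent.Schn.LocalZero

/-!
# Schneider's theorem, module Upper: the upper bound

Data at `N ≥ 1` distinct points `z_j` off the lattice, `‖δ‖ ≥ 1`, `C₁ ≥ 1`. There are `C ≥ 1` and `s₀`
such that for all `T ≥ 1`, all `c : Fin T → Fin (2 N) → 𝓞 K` with `house (c i l) ≤ (C₁ T)^T`, all
`s ≥ T`, `s ≥ s₀` with `gam (D j) c n = 0` for all `j` and `n < s`, and `R ≥ 0` with `R⁴ = s`: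
`‖φ (gam (D j) c s)‖ R^(N s) ≤ (C R⁵)^s`.

Proof. Let `ρ ≥ 1` with `‖z_j‖ ≤ ρ` for all `j`, `C_D` the constant of `den h z`, `s₀ ≥ (2 ρ)⁴`,
`s₀ ≥ 1`. Then `R ≥ 1`, `R ≥ 2 ρ` (fourth powers), `T ≤ s = R⁴`. Take `E, Q` from `den` for this `R`,
`Y = exp (C_D R³) ≥ 1`, `A = (C₁ T)^T` (`‖φ x‖ ≤ house x`: `norm_embedding_le_house`), `H` from
`hfun` with `L = 2 N`, `M = T * (2 N) * A * (‖δ‖ R)^T * ‖δ‖^(4 N) * Y^(4 N)`. By `local_zero`, near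
`z_j`: `Fn = (w - z_j)^s g_j (w)`, and, as `z_j` is in the open set of points off the lattice in the
ball of radius `2 R` (`isOpen_off`), `H (w) = (w - z_j)^s (E (w)^(4 N) g_j (w))` near `z_j`. `schwarz`
gives `‖E (z_j)‖^(4 N) ‖g_j (z_j)‖ ≤ M (2 ρ)^((N - 1) s) (2 / R)^(N s)`. With
`‖E (z_j)‖ ≥ exp (- C_D R³)`, `‖φ (gam (D j) c s)‖ = ‖g_j (z_j)‖ ‖δ‖^s`:
`‖φ (gam (D j) c s)‖ R^(N s) ≤ ‖δ‖^s exp (4 N C_D R³) M (2 ρ)^(N s) 2^(N s)`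
(as `2 ρ ≥ 1`: `(2 ρ)^((N - 1) s) ≤ (2 ρ)^(N s)`).
Finally `R³ ≤ R⁴ = s` so `exp (4 N C_D R³) ≤ exp (4 N C_D)^s` and `Y^(4 N) ≤ exp (4 N C_D)^s`;
`T ≤ 2^s`, `2 N ≤ (2 N)^s`, `A ≤ (C₁ s)^s = (C₁ R⁴)^s`, `(‖δ‖ R)^T ≤ (‖δ‖ R)^s`,
`‖δ‖^(4 N) ≤ (‖δ‖^(4 N))^s`. The product is `(C R⁵)^s` with
`C = ‖δ‖ exp (4 N C_D)² 2 (2 N) C₁ ‖δ‖ ‖δ‖^(4 N) (2 ρ)^N 2^N`.
-/

namespace Pool.Agent.Schn

open Pool.Agent.EllSch NumberField

/-- numerical end of `upper` -/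
lemma upper_num {N T s : ℕ} {d CD C₁ ρ R : ℝ} (hd : 1 ≤ d) (hCD : 1 ≤ CD) (hC₁ : 1 ≤ C₁)
    (hρ : 1 ≤ ρ) (hN : 0 < N) (hT : 1 ≤ T) (hTs : T ≤ s) (hR1 : 1 ≤ R) (hR : R ^ 4 = s) :
    d ^ s * Real.exp (2 * (2 * N) * (CD * R ^ 3)) *
      (T * ((2 * N : ℕ) : ℝ) * (C₁ * T) ^ T * (d * R) ^ T * d ^ (2 * (2 * N)) *
        Real.exp (CD * R ^ 3) ^ (2 * (2 * N))) * (2 * ρ) ^ ((N - 1) * s) * 2 ^ (N * s) ≤
    (d * Real.exp (2 * (2 * N) * CD) * 2 * (2 * N) * C₁ * d * d ^ (2 * (2 * N)) *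
      Real.exp (2 * (2 * N) * CD) * (2 * ρ) ^ N * 2 ^ N * R ^ 5) ^ s := by
  have hs1 : 1 ≤ s := le_trans hT hTs
  have hR0 : 0 ≤ R := le_trans zero_le_one hR1
  have hN1 : (1 : ℝ) ≤ N := by exact_mod_cast hN
  have hTr : (1 : ℝ) ≤ T := by exact_mod_cast hT
  have hTsr : (T : ℝ) ≤ s := by exact_mod_cast hTs
  have hR3 : R ^ 3 ≤ s := by
    rw [← hR]
    exact pow_le_pow_right₀ hR1 (by norm_num)
  have e1 : Real.exp (2 * (2 * N) * (CD * R ^ 3)) ≤ Real.exp (2 * (2 * N) * CD) ^ s := by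
    rw [← Real.exp_nat_mul]
    apply Real.exp_le_exp.2
    have : 2 * (2 * (N : ℝ)) * (CD * R ^ 3) ≤ 2 * (2 * (N : ℝ)) * (CD * s) := by gcongr
    linarith
  have e2 : Real.exp (CD * R ^ 3) ^ (2 * (2 * N)) ≤ Real.exp (2 * (2 * N) * CD) ^ s := by
    rw [← Real.exp_nat_mul]
    refine le_trans (le_of_eq ?_) e1
    congr 1
    push_cast
    ring
  have e3 : (T : ℝ) ≤ 2 ^ s := by
    refine hTsr.trans ?_
    exact_mod_cast (Nat.lt_two_pow_self (n := s)).le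
  have e4 : ((2 * N : ℕ) : ℝ) ≤ (2 * N) ^ s := by
    push_cast
    exact le_self_pow₀ (by linarith) (by omega)
  have e5 : (C₁ * T) ^ T ≤ (C₁ * R ^ 4) ^ s := by
    rw [hR]
    have h1 : 1 ≤ C₁ * T := one_le_mul_of_one_le_of_one_le hC₁ hTr
    calc (C₁ * T) ^ T ≤ (C₁ * T) ^ s := pow_le_pow_right₀ h1 hTs
      _ ≤ (C₁ * s) ^ s := by gcongr
  have e6 : (d * R) ^ T ≤ (d * R) ^ s :=
    pow_le_pow_right₀ (one_le_mul_of_one_le_of_one_le hd hR1) hTs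
  have e7 : d ^ (2 * (2 * N)) ≤ (d ^ (2 * (2 * N))) ^ s :=
    le_self_pow₀ (one_le_pow₀ hd) (by omega)
  have e8 : (2 * ρ) ^ ((N - 1) * s) ≤ ((2 * ρ) ^ N) ^ s := by
    rw [← pow_mul]
    exact pow_le_pow_right₀ (by linarith) (Nat.mul_le_mul_right _ (Nat.sub_le _ _))
  have e9 : (2 : ℝ) ^ (N * s) ≤ (2 ^ N) ^ s := by rw [pow_mul]
  have hd0 : 0 ≤ d := le_trans zero_le_one hd
  have hC0 : 0 ≤ C₁ := le_trans zero_le_one hC₁
  have hρ0 : 0 ≤ ρ := le_trans zero_le_one hρ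
  calc d ^ s * Real.exp (2 * (2 * N) * (CD * R ^ 3)) *
      (T * ((2 * N : ℕ) : ℝ) * (C₁ * T) ^ T * (d * R) ^ T * d ^ (2 * (2 * N)) *
        Real.exp (CD * R ^ 3) ^ (2 * (2 * N))) * (2 * ρ) ^ ((N - 1) * s) * 2 ^ (N * s)
      ≤ d ^ s * Real.exp (2 * (2 * N) * CD) ^ s *
      (2 ^ s * (2 * N) ^ s * (C₁ * R ^ 4) ^ s * (d * R) ^ s * (d ^ (2 * (2 * N))) ^ s *
        Real.exp (2 * (2 * N) * CD) ^ s) * ((2 * ρ) ^ N) ^ s * (2 ^ N) ^ s := by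
        gcongr
    _ = _ := by
        simp only [← mul_pow]
        congr 1
        ring

theorem upper {K : Type*} [Field K] [NumberField K] (φ : K →+* ℂ) {a b δ : ℂ} (h : Ind a b)
    (hδ : 1 ≤ ‖δ‖) {N : ℕ} (hN : 0 < N) (z : Fin N → ℂ) (hz : Function.Injective z)
    (hoff : ∀ j, Off a b (z j)) (D : Fin N → Dat K) (hD : ∀ j, IsDat a b δ φ (D j) (z j))
    {C₁ : ℝ} (hC₁ : 1 ≤ C₁) :
    ∃ C : ℝ, 1 ≤ C ∧ ∃ s₀ : ℕ, ∀ T : ℕ, 1 ≤ T → ∀ c : Fin T → Fin (2 * N) → 𝓞 K,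
      (∀ i l, house (c i l : K) ≤ (C₁ * T) ^ T) → ∀ s : ℕ, T ≤ s → s₀ ≤ s →
      (∀ j, ∀ n < s, gam (D j) c n = 0) → ∀ R : ℝ, 0 ≤ R → R ^ 4 = s →
      ∀ j, ‖φ (gam (D j) c s)‖ * R ^ (N * s) ≤ (C * R ^ 5) ^ s := by
  obtain ⟨CD, hCD, hden⟩ := den h z hoff
  obtain ⟨ρ, hρ1, hρ⟩ : ∃ ρ : ℝ, 1 ≤ ρ ∧ ∀ j, ‖z j‖ ≤ ρ := by
    refine ⟨1 + ∑ j, ‖z j‖, ?_, ?_⟩
    · have : 0 ≤ ∑ j, ‖z j‖ := Finset.sum_nonneg fun j _ => norm_nonneg _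
      linarith
    · intro j
      have := Finset.single_le_sum (f := fun j => ‖z j‖) (fun j _ => norm_nonneg _)
        (Finset.mem_univ j)
      linarith
  have hN1 : (1 : ℝ) ≤ N := by exact_mod_cast hN
  have hEX : 1 ≤ Real.exp (2 * (2 * N) * CD) := Real.one_le_exp (by positivity)
  have hδ0 : δ ≠ 0 := by
    rintro rfl
    rw [norm_zero] at hδ
    linarith
  refine ⟨‖δ‖ * Real.exp (2 * (2 * N) * CD) * 2 * (2 * N) * C₁ * ‖δ‖ * ‖δ‖ ^ (2 * (2 * N)) *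
      Real.exp (2 * (2 * N) * CD) * (2 * ρ) ^ N * 2 ^ N, ?_, ⌈(2 * ρ) ^ 4⌉₊ + 1, ?_⟩
  · refine one_le_mul_of_one_le_of_one_le ?_ (one_le_pow₀ one_le_two)
    refine one_le_mul_of_one_le_of_one_le ?_ (one_le_pow₀ (by linarith))
    refine one_le_mul_of_one_le_of_one_le ?_ hEX
    refine one_le_mul_of_one_le_of_one_le ?_ (one_le_pow₀ hδ)
    refine one_le_mul_of_one_le_of_one_le ?_ hδ
    refine one_le_mul_of_one_le_of_one_le ?_ hC₁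
    refine one_le_mul_of_one_le_of_one_le ?_ (by linarith)
    refine one_le_mul_of_one_le_of_one_le ?_ one_le_two
    exact one_le_mul_of_one_le_of_one_le hδ hEX
  · intro T hT c hc s hTs hs0 h0 R hR0 hR j
    have h2ρ : 2 * ρ ≤ R := by
      have h1 : (2 * ρ) ^ 4 ≤ R ^ 4 := by
        rw [hR]
        refine (Nat.le_ceil _).trans ?_
        exact_mod_cast (Nat.le_succ _).trans hs0
      exact le_of_pow_le_pow_left₀ (by norm_num) hR0 h1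
    have hR1 : 1 ≤ R := by linarith
    have hRpos : 0 < R := by linarith
    obtain ⟨E, Q, hE, hQ, hEQ, hB, hlow⟩ := hden R hR1
    have hY : 1 ≤ Real.exp (CD * R ^ 3) := Real.one_le_exp (by positivity)
    have hc' : ∀ i l, ‖φ (c i l : K)‖ ≤ (C₁ * T) ^ T := fun i l =>
      (norm_embedding_le_house _ φ).trans (hc i l)
    obtain ⟨H, hH, hHF, hHM⟩ := hfun (T := T) (L := 2 * N) hδ (fun i l => φ (c i l : K)) hR1 hY hc'
      E Q hE hQ hEQ hB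
    have hloc := fun j => local_zero φ h hδ0 (hoff j) (hD j) c s (h0 j)
    choose g hgc hgv hgF using hloc
    have hball : ∀ j, z j ∈ Metric.ball (0 : ℂ) (2 * R) := by
      intro j
      rw [mem_ball_zero_iff]
      have := hρ j
      linarith
    have hS := schwarz z hz hρ hRpos h2ρ H hH hHM s (fun j w => E w ^ (2 * (2 * N)) * g j w)
      (fun j => ((hE.continuous.continuousAt).pow _).mul (hgc j)) (by
        intro j
        filter_upwards [hgF j, (isOpen_off h).mem_nhds (hoff j),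
          Metric.isOpen_ball.mem_nhds (hball j)] with w hw1 hw2 hw3
        rw [hHF w hw3 hw2, hw1]
        ring) j
    simp only [norm_mul, norm_pow] at hS
    have hE1 : 1 ≤ Real.exp (2 * (2 * N) * (CD * R ^ 3)) * ‖E (z j)‖ ^ (2 * (2 * N)) := by
      have h1 : Real.exp (-(CD * R ^ 3)) ^ (2 * (2 * N)) ≤ ‖E (z j)‖ ^ (2 * (2 * N)) :=
        pow_le_pow_left₀ (Real.exp_pos _).le (hlow j) _
      have h2 : Real.exp (2 * (2 * N) * (CD * R ^ 3)) * Real.exp (-(CD * R ^ 3)) ^ (2 * (2 * N)) = 1 := by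
        rw [← Real.exp_nat_mul, ← Real.exp_add, ← Real.exp_zero]
        congr 1
        push_cast
        ring
      rw [← h2]
      exact mul_le_mul_of_nonneg_left h1 (Real.exp_pos _).le
    have hg1 : ‖g j (z j)‖ ≤ Real.exp (2 * (2 * N) * (CD * R ^ 3)) *
        (‖E (z j)‖ ^ (2 * (2 * N)) * ‖g j (z j)‖) := by
      rw [← mul_assoc]
      exact le_mul_of_one_le_left (norm_nonneg _) hE1
    have hgv' : ‖φ (gam (D j) c s)‖ = ‖g j (z j)‖ * ‖δ‖ ^ s := by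
      rw [← hgv j, norm_mul, norm_pow]
    rw [hgv']
    have hRN : (2 / R) ^ (N * s) * R ^ (N * s) = 2 ^ (N * s) := by
      rw [← mul_pow, div_mul_cancel₀ _ hRpos.ne']
    refine le_trans ?_ (upper_num (N := N) (T := T) (s := s) (R := R) hδ hCD hC₁ hρ1 hN hT hTs
      hR1 hR)
    calc ‖g j (z j)‖ * ‖δ‖ ^ s * R ^ (N * s)
        ≤ (Real.exp (2 * (2 * N) * (CD * R ^ 3)) *
          (T * ((2 * N : ℕ) : ℝ) * (C₁ * T) ^ T * (‖δ‖ * R) ^ T * ‖δ‖ ^ (2 * (2 * N)) *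
            Real.exp (CD * R ^ 3) ^ (2 * (2 * N)) * (2 * ρ) ^ ((N - 1) * s) *
            (2 / R) ^ (N * s))) * ‖δ‖ ^ s * R ^ (N * s) := by
          have := hg1.trans (mul_le_mul_of_nonneg_left hS (Real.exp_pos _).le)
          gcongr
      _ = ‖δ‖ ^ s * Real.exp (2 * (2 * N) * (CD * R ^ 3)) *
          (T * ((2 * N : ℕ) : ℝ) * (C₁ * T) ^ T * (‖δ‖ * R) ^ T * ‖δ‖ ^ (2 * (2 * N)) *
            Real.exp (CD * R ^ 3) ^ (2 * (2 * N))) * (2 * ρ) ^ ((N - 1) * s) *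
            ((2 / R) ^ (N * s) * R ^ (N * s)) := by ring
      _ = _ := by rw [hRN]

end Pool.Agent.Schn
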